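import Mathlib
import Pool.Agent.Work.MP_02e323_helper29.Occ

/-!
# Polynomial functions on words

`IsPol D f` says that all `(D+1)`-fold differences of `f` with respect to adding letters at the
left end vanish.  Such functions are exactly the linear combinations of subword counts `|w|_u`,
`|u| ≤ D`.
-/

set_option autoImplicit false

open Finset

namespace Pool.Agent.Work.MP_02e323_helper2

open Pool.Agent.Work.MP_02e323_helper29 (occ occ_nil occ_cons_nil occ_cons_cons)

variable {α : Type*}

/-- Polynomial functions of degree at most `D` on words. -/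
def IsPol : ℕ → (List α → ℚ) → Prop
  | 0, f => ∀ w, f w = f []
  | D + 1, f => ∀ c, IsPol D (fun w => f (c :: w) - f w)

lemma isPol_zero {f : List α → ℚ} : IsPol 0 f ↔ ∀ w, f w = f [] := Iff.rfl

lemma isPol_succ {D : ℕ} {f : List α → ℚ} :
    IsPol (D + 1) f ↔ ∀ c, IsPol D (fun w => f (c :: w) - f w) := Iff.rfl

lemma IsPol.const (D : ℕ) (a : ℚ) : IsPol D (fun _ : List α => a) := by
  induction D generalizing a with
  | zero => intro w; rfl
  | succ D ih => intro c; simpa using ih 0

lemma IsPol.succ {D : ℕ} {f : List α → ℚ} (h : IsPol D f) : IsPol (D + 1) f := by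
  induction D generalizing f with
  | zero =>
    intro c w
    have h1 := h (c :: w)
    have h2 := h w
    have h3 := h [c]
    simp only [h1, h2, h3]
  | succ D ih => intro c; exact ih (h c)

lemma IsPol.mono {D E : ℕ} {f : List α → ℚ} (h : IsPol D f) (hDE : D ≤ E) : IsPol E f := by
  induction hDE with
  | refl => exact h
  | step _ ih => exact ih.succ

lemma IsPol.add {D : ℕ} {f g : List α → ℚ} (hf : IsPol D f) (hg : IsPol D g) :
    IsPol D (fun w => f w + g w) := by
  induction D generalizing f g with
  | zero => intro w; simp only [hf w, hg w]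
  | succ D ih =>
    intro c
    have h := ih (hf c) (hg c)
    have e : (fun w => f (c :: w) + g (c :: w) - (f w + g w)) =
        (fun w => f (c :: w) - f w + (g (c :: w) - g w)) := by
      funext w; ring
    rw [e]; exact h

lemma IsPol.smul {D : ℕ} {f : List α → ℚ} (a : ℚ) (hf : IsPol D f) :
    IsPol D (fun w => a * f w) := by
  induction D generalizing f with
  | zero => intro w; simp only [hf w]
  | succ D ih =>
    intro c
    have h := ih (hf c)
    have e : (fun w => a * f (c :: w) - a * f w) = (fun w => a * (f (c :: w) - f w)) := by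
      funext w; ring
    rw [e]; exact h

lemma IsPol.sub {D : ℕ} {f g : List α → ℚ} (hf : IsPol D f) (hg : IsPol D g) :
    IsPol D (fun w => f w - g w) := by
  have h := hf.add (hg.smul (-1))
  have e : (fun w => f w - g w) = (fun w => f w + -1 * g w) := by funext w; ring
  rw [e]; exact h

lemma IsPol.sum {ι : Type*} {D : ℕ} (s : Finset ι) {f : ι → List α → ℚ}
    (h : ∀ i ∈ s, IsPol D (f i)) : IsPol D (fun w => ∑ i ∈ s, f i w) := by
  classical
  induction s using Finset.induction_on with
  | empty => simpa using IsPol.const D 0
  | insert i s hi ih =>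
    have h1 := (h i (Finset.mem_insert_self _ _)).add
      (ih (fun j hj => h j (Finset.mem_insert_of_mem hj)))
    have e : (fun w => ∑ j ∈ insert i s, f j w) = (fun w => f i w + ∑ j ∈ s, f j w) := by
      funext w; rw [Finset.sum_insert hi]
    rw [e]; exact h1

lemma IsPol.mul {D E : ℕ} {f g : List α → ℚ} (hf : IsPol D f) (hg : IsPol E g) :
    IsPol (D + E) (fun w => f w * g w) := by
  obtain ⟨n, hn⟩ : ∃ n, D + E = n := ⟨_, rfl⟩
  induction n using Nat.strong_induction_on generalizing D E f g with
  | _ n ih =>
    rcases D with _ | D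
    · have e : (fun w => f w * g w) = (fun w => f [] * g w) := by
        funext w; rw [hf w]
      rw [e]
      exact (hg.smul (f [])).mono (by omega)
    rcases E with _ | E
    · have e : (fun w => f w * g w) = (fun w => g [] * f w) := by
        funext w; rw [hg w, mul_comm]
      rw [e]
      exact (hf.smul (g [])).mono (by omega)
    · have key : IsPol (D + 1 + E + 1) (fun w => f w * g w) := by
        intro c
        have h1 : IsPol (D + (E + 1)) (fun w => (f (c :: w) - f w) * g w) :=
          ih (D + (E + 1)) (by omega) (hf c) hg rfl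
        have h2 : IsPol ((D + 1) + E) (fun w => f w * (g (c :: w) - g w)) :=
          ih ((D + 1) + E) (by omega) hf (hg c) rfl
        have h3 : IsPol (D + E) (fun w => (f (c :: w) - f w) * (g (c :: w) - g w)) :=
          ih (D + E) (by omega) (hf c) (hg c) rfl
        have h4 := ((h1.mono (show D + (E + 1) ≤ D + 1 + E by omega)).add h2).add
          (h3.mono (show D + E ≤ D + 1 + E by omega))
        have e : (fun w => f (c :: w) * g (c :: w) - f w * g w) =
            (fun w => (f (c :: w) - f w) * g w + f w * (g (c :: w) - g w) +
              (f (c :: w) - f w) * (g (c :: w) - g w)) := by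
          funext w; ring
        rw [e]; exact h4
      exact key.mono (by omega)

lemma IsPol.sq {D : ℕ} {f : List α → ℚ} (hf : IsPol D f) : IsPol (2 * D) (fun w => f w ^ 2) := by
  have h := hf.mul hf
  have e : (fun w => f w ^ 2) = (fun w => f w * f w) := by funext w; ring
  rw [e, two_mul]; exact h

lemma IsPol.transRight {D : ℕ} {f : List α → ℚ} (hf : IsPol D f) (g : List α) :
    IsPol D (fun u => f (u ++ g)) := by
  induction D generalizing f with
  | zero =>
    intro w
    have h1 := hf (w ++ g)
    have h2 := hf ([] ++ g)
    simp only [h1, h2]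
  | succ D ih => intro c; exact ih (hf c)

lemma IsPol.diffRight {D : ℕ} {f : List α → ℚ} (hf : IsPol (D + 1) f) (g : List α) :
    IsPol D (fun u => f (u ++ g) - f u) := by
  induction D generalizing f with
  | zero =>
    intro w
    have key : ∀ w : List α, f (w ++ g) - f w = f g - f [] := by
      intro w
      induction w with
      | nil => simp
      | cons c w ih =>
        have h1 := hf c (w ++ g)
        have h2 := hf c w
        simp only at h1 h2
        have h3 : f (c :: w ++ g) = f (c :: (w ++ g)) := rfl
        rw [h3]
        linarith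
    simp only [key]
  | succ D ih =>
    intro c
    have h := ih (hf c)
    have e : (fun w => f (c :: w ++ g) - f (c :: w) - (f (w ++ g) - f w)) =
        (fun u => f (c :: (u ++ g)) - f (u ++ g) - (f (c :: u) - f u)) := by
      funext w
      have h3 : f (c :: w ++ g) = f (c :: (w ++ g)) := rfl
      rw [h3]; ring
    rw [e]; exact h

/-- Division by a right factor. -/
lemma IsPol.div {D : ℕ} {f : List α → ℚ} (hf : IsPol D f) (g : List α) :
    ∃ φ, IsPol D φ ∧ ∀ u, φ (u ++ g) = f u := by
  induction D generalizing f with
  | zero => exact ⟨f, hf, fun u => by rw [hf (u ++ g), hf u]⟩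
  | succ D ih =>
    obtain ⟨ψ, hψ, h⟩ := ih (hf.diffRight g)
    exact ⟨fun u => f u - ψ u, hf.sub hψ.succ, fun u => by simp only [h]; ring⟩

lemma IsPol.transLeft {D : ℕ} {f : List α → ℚ} (hf : IsPol D f) (g : List α) :
    IsPol D (fun u => f (g ++ u)) := by
  induction g generalizing f with
  | nil => exact hf
  | cons a g ih =>
    have h1 : IsPol D (fun u => f (a :: u)) := by
      rcases D with _ | D
      · intro w
        have h1 := hf (a :: w)
        have h2 := hf [a]
        simp only [h1, h2]
      · have h2 := (hf a).succ.add hf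
        have e : (fun u => f (a :: u)) = (fun w => f (a :: w) - f w + f w) := by
          funext w; ring
        rw [e]; exact h2
    exact ih h1

/-- Sum of `f` over the tails preceded by the letter `c`. -/
noncomputable def J (c : α) (f : List α → ℚ) : List α → ℚ
  | [] => 0
  | d :: w => J c f w + (open Classical in if d = c then f w else 0)

lemma J_nil (c : α) (f : List α → ℚ) : J c f [] = 0 := rfl

open Classical in
lemma J_cons (c d : α) (f : List α → ℚ) (w : List α) :
    J c f (d :: w) = J c f w + if d = c then f w else 0 := rfl

lemma isPol_J {D : ℕ} {f : List α → ℚ} (hf : IsPol D f) (c : α) : IsPol (D + 1) (J c f) := by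
  classical
  intro d
  by_cases h : d = c
  · have e : (fun w => J c f (d :: w) -
        J c f w) = f := by
      funext w; rw [J_cons, if_pos h]; ring
    rw [e]; exact hf
  · have e : (fun w => J c f (d :: w) -
        J c f w) = (fun _ => 0) := by
      funext w; rw [J_cons, if_neg h]; ring
    rw [e]; exact IsPol.const D 0

lemma isPol_length : IsPol 1 (fun w : List α => (w.length : ℚ)) := by
  intro c w
  simp

lemma J_nonneg (c : α) {f : List α → ℚ} (hf : ∀ w, 0 ≤ f w) (w : List α) : 0 ≤ J c f w := by
  classical
  induction w with
  | nil => exact le_rfl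
  | cons d w ih =>
    rw [J_cons]
    have : (0 : ℚ) ≤ if d = c then f w else 0 := by
      split_ifs
      · exact hf w
      · exact le_rfl
    linarith

lemma J_append_ge (c : α) {f : List α → ℚ} (hf : ∀ w, 0 ≤ f w) (x T : List α) :
    f T ≤ J c f (x ++ c :: T) := by
  classical
  induction x with
  | nil =>
    rw [List.nil_append, J_cons, if_pos rfl]
    have := J_nonneg c hf T
    linarith
  | cons d x ih =>
    rw [List.cons_append, J_cons]
    have : (0 : ℚ) ≤ if d = c then f (x ++ c :: T) else 0 := by
      split_ifs
      · exact hf _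
      · exact le_rfl
    linarith

lemma J_eq_zero (c : α) {f : List α → ℚ} {w : List α}
    (hf : ∀ x T, w = x ++ c :: T → f T = 0) : J c f w = 0 := by
  classical
  induction w with
  | nil => rfl
  | cons d w ih =>
    rw [J_cons, ih (fun x T h => hf (d :: x) T (by rw [h]; rfl))]
    by_cases h : d = c
    · rw [if_pos h, hf [] w (by rw [h]; rfl), add_zero]
    · rw [if_neg h, add_zero]

/-! ### Newton expansion -/

/-- span of the subword counts -/
def Sp (D : ℕ) : Submodule ℚ (List α → ℚ) :=
  Submodule.span ℚ {h | ∃ u : List α, u.length ≤ D ∧ h = fun w => (occ u w : ℚ)}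

lemma Sp_mono {D E : ℕ} (h : D ≤ E) : (Sp D : Submodule ℚ (List α → ℚ)) ≤ Sp E := by
  apply Submodule.span_mono
  rintro _ ⟨u, hu, rfl⟩
  exact ⟨u, hu.trans h, rfl⟩

lemma J_occ (c : α) (u w : List α) :
    J c (fun w => (occ u w : ℚ)) w = (occ (c :: u) w : ℚ) := by
  classical
  induction w with
  | nil => rw [J_nil, occ_cons_nil]; simp
  | cons d w ih =>
    rw [J_cons, ih, occ_cons_cons]
    by_cases h : d = c
    · subst h; simp
    · rw [if_neg h, if_neg (fun e => h e.symm)]; simp

lemma J_add (c : α) (f g : List α → ℚ) : J c (f + g) = J c f + J c g := by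
  classical
  funext w
  induction w with
  | nil => simp [J_nil]
  | cons d w ih =>
    simp only [Pi.add_apply] at ih ⊢
    rw [J_cons, J_cons, J_cons, ih]
    split_ifs <;> simp <;> ring

lemma J_smul (c : α) (a : ℚ) (f : List α → ℚ) : J c (a • f) = a • J c f := by
  classical
  funext w
  induction w with
  | nil => simp [J_nil]
  | cons d w ih =>
    simp only [Pi.smul_apply, smul_eq_mul] at ih ⊢
    rw [J_cons, J_cons, ih]
    split_ifs <;> simp <;> ring

lemma J_mem_Sp {D : ℕ} (c : α) {f : List α → ℚ} (hf : f ∈ Sp D) : J c f ∈ Sp (D + 1) := by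
  unfold Sp at hf
  induction hf using Submodule.span_induction with
  | mem x hx =>
    obtain ⟨u, hu, rfl⟩ := hx
    apply Submodule.subset_span
    refine ⟨c :: u, by simpa using hu, ?_⟩
    funext w
    exact J_occ c u w
  | zero =>
    have : J c (0 : List α → ℚ) = 0 := by
      have := J_smul c 0 (0 : List α → ℚ)
      simpa using this
    rw [this]; exact Submodule.zero_mem _
  | add x y _ _ hx hy => rw [J_add]; exact Submodule.add_mem _ hx hy
  | smul a x _ hx => rw [J_smul]; exact Submodule.smul_mem _ _ hx

lemma IsPol.mem_Sp [Fintype α] {D : ℕ} {f : List α → ℚ} (hf : IsPol D f) : f ∈ Sp D := by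
  classical
  induction D generalizing f with
  | zero =>
    have e : f = f [] • (fun w => (occ ([] : List α) w : ℚ)) := by
      funext w
      simp [occ_nil, hf w]
    rw [e]
    exact Submodule.smul_mem _ _ (Submodule.subset_span ⟨[], by simp, rfl⟩)
  | succ D ih =>
    have e : f = f [] • (fun w => (occ ([] : List α) w : ℚ)) +
        ∑ c : α, J c (fun w => f (c :: w) - f w) := by
      funext w
      simp only [Pi.add_apply, Pi.smul_apply, smul_eq_mul, occ_nil, Nat.cast_one, mul_one,
        Finset.sum_apply]
      induction w with
      | nil => simp [J_nil]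
      | cons d w ih2 =>
        have h1 : ∑ c : α, J c (fun w => f (c :: w) - f w) (d :: w) =
            ∑ c : α, J c (fun w => f (c :: w) - f w) w + (f (d :: w) - f w) := by
          rw [show (f (d :: w) - f w) = ∑ c : α, (if d = c then (f (c :: w) - f w) else 0) by
            rw [Finset.sum_ite_eq]; simp]
          rw [← Finset.sum_add_distrib]
          apply Finset.sum_congr rfl
          intro c _
          rw [J_cons]
        rw [h1, ← add_assoc, ← ih2]
        ring
    rw [e]
    refine Submodule.add_mem _ ?_ ?_
    · exact Submodule.smul_mem _ _ (Submodule.subset_span ⟨[], by simp, rfl⟩)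
    · exact Submodule.sum_mem _ (fun c _ => J_mem_Sp c (ih (hf c)))

/-- `w` and `w'` cannot be distinguished by polynomial functions of degree `t`. -/
def SameP (t : ℕ) (w w' : List α) : Prop := ∀ f, IsPol t f → f w = f w'

lemma sameP_of_occ [Fintype α] {t : ℕ} {w w' : List α}
    (h : ∀ u : List α, u.length ≤ t → occ u w = occ u w') : SameP t w w' := by
  intro f hf
  have h1 : ∀ g ∈ (Sp t : Submodule ℚ (List α → ℚ)), g w = g w' := by
    intro g hg
    unfold Sp at hg
    induction hg using Submodule.span_induction with
    | mem x hx =>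
      obtain ⟨u, hu, rfl⟩ := hx
      simp only [h u hu]
    | zero => rfl
    | add x y _ _ hx hy => simp only [Pi.add_apply, hx, hy]
    | smul a x _ hx => simp only [Pi.smul_apply, hx]
  exact h1 f hf.mem_Sp

lemma SameP.cancel {t : ℕ} {w w' g : List α} (h : SameP t (w ++ g) (w' ++ g)) : SameP t w w' := by
  intro f hf
  obtain ⟨φ, hφ, e⟩ := hf.div g
  rw [← e w, ← e w']
  exact h φ hφ

lemma SameP.length_eq {t : ℕ} (ht : 1 ≤ t) {w w' : List α} (h : SameP t w w') :
    w.length = w'.length := by
  have := h _ (isPol_length.mono ht)
  simpa using this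

/-- A polynomial of a polynomial function of degree one. -/
lemma IsPol.eval {D : ℕ} {l : List α → ℚ} (hl : IsPol 1 l) (F : Polynomial ℚ)
    (hF : F.natDegree ≤ D) : IsPol D (fun w => F.eval (l w)) := by
  have hpow : ∀ i, IsPol i (fun w => l w ^ i) := by
    intro i
    induction i with
    | zero => simpa using IsPol.const 0 1
    | succ i ih =>
      have := ih.mul hl
      simpa [pow_succ] using this
  have e : (fun w => F.eval (l w)) =
      (fun w => ∑ i ∈ Finset.range (F.natDegree + 1), F.coeff i * l w ^ i) := by
    funext w
    rw [Polynomial.eval_eq_sum_range]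
  rw [e]
  apply IsPol.sum
  intro i hi
  have : i ≤ F.natDegree := by
    have := Finset.mem_range.mp hi
    omega
  exact ((hpow i).mono (this.trans hF)).smul _

end Pool.Agent.Work.MP_02e323_helper2
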