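import Mathlib
import Pool.Agent.Work.MP_02e323_helper2.Pol

/-!
# Digitally polynomial words are determined by low spectra

If the number of letters `c` among the first `m` letters of `w` is within distance `< 1/2` of a
polynomial of degree `≤ s` for every `m ≤ |w|`, then the positions of the letter `c` are determined
by the full `(s+2)`-spectrum.
-/

set_option autoImplicit false

open Finset

namespace Pool.Agent.Work.MP_02e323_helper2

variable {α : Type*}

/-- Sum of `f` over all proper suffixes. -/
lemma sum_J [Fintype α] (f : List α → ℚ) (w : List α) :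
    ∑ c, J c f w = ∑ i ∈ range w.length, f (w.drop (i + 1)) := by
  classical
  induction w with
  | nil => simp [J_nil]
  | cons a w ih =>
    have h1 : ∑ c, J c f (a :: w) = f w + ∑ c, J c f w := by
      simp only [J_cons, Finset.sum_add_distrib]
      simp [add_comm]
    rw [h1, ih, List.length_cons, Finset.sum_range_succ']
    simp only [List.drop_succ_cons, List.drop_zero]
    ring

lemma J_one_eq_count [DecidableEq α] (c : α) (w : List α) :
    J c (fun _ => 1) w = (w.count c : ℚ) := by
  induction w with
  | nil => simp [J_nil]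
  | cons a w ih =>
    rw [J_cons, ih, List.count_cons]
    by_cases h : a = c
    · subst h; simp [add_comm]
    · have h' : ¬ c = a := fun e => h e.symm
      simp [h, h']

lemma isPol_count [DecidableEq α] (c : α) : IsPol 1 (fun w : List α => (w.count c : ℚ)) := by
  have h := isPol_J (IsPol.const 0 1) c
  have e : (fun w : List α => (w.count c : ℚ)) = J c (fun _ => 1) := by
    funext w; exact (J_one_eq_count c w).symm
  rw [e]; exact h

lemma IsPol.pow_one {f : List α → ℚ} (hf : IsPol 1 f) (k : ℕ) : IsPol k (fun w => f w ^ k) := by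
  induction k with
  | zero => simpa using IsPol.const 0 1
  | succ k ih =>
    have h := ih.mul hf
    have e : (fun w => f w ^ (k + 1)) = (fun w => f w ^ k * f w) := by funext w; ring
    rw [e]; exact h

/-- The sums over all proper suffixes of a polynomial function of degree `D` are equal. -/
lemma SameP.sum_drop [Fintype α] {D t : ℕ} {w w' : List α} (h : SameP t w w')
    {f : List α → ℚ} (hf : IsPol D f) (hD : D + 1 ≤ t) :
    ∑ i ∈ range w.length, f (w.drop (i + 1)) = ∑ i ∈ range w'.length, f (w'.drop (i + 1)) := by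
  have h1 : IsPol t (fun w => ∑ c, J c f w) :=
    (IsPol.sum Finset.univ (fun c _ => isPol_J hf c)).mono hD
  have h2 := h _ h1
  simp only [sum_J] at h2
  exact h2

lemma count_drop_eq [DecidableEq α] (c : α) (w : List α) (i : ℕ) :
    ((w.drop i).count c : ℚ) = w.count c - (w.take i).count c := by
  have h := List.count_append (a := c) (l₁ := w.take i) (l₂ := w.drop i)
  rw [List.take_append_drop] at h
  rw [h]; push_cast; ring

/-- Moments of the difference of the letter counts. -/
lemma moments [Fintype α] [DecidableEq α] {s t : ℕ} {w w' : List α} (h : SameP t w w')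
    (hs : s + 2 ≤ t) (c : α) (k : ℕ) (hk : k ≤ s) :
    ∑ i ∈ range w.length, (((w.take (i + 1)).count c : ℚ) - (w'.take (i + 1)).count c) *
      ((w.length : ℚ) - (i + 1)) ^ k = 0 := by
  have hl : w.length = w'.length := h.length_eq (by omega)
  have hc : (w.count c : ℚ) = w'.count c := h _ ((isPol_count c).mono (by omega))
  have h1 := h.sum_drop ((isPol_count c).mul (isPol_length.pow_one k)) (by omega)
  rw [← hl, ← sub_eq_zero, ← Finset.sum_sub_distrib] at h1
  rw [← neg_eq_zero, ← Finset.sum_neg_distrib, ← h1]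
  apply Finset.sum_congr rfl
  intro i hi
  have hi' : i + 1 ≤ w.length := by simpa using hi
  simp only [List.length_drop, ← hl, count_drop_eq]
  rw [Nat.cast_sub hi', hc]
  push_cast
  ring

lemma sq_moment [Fintype α] [DecidableEq α] {t : ℕ} {w w' : List α} (h : SameP t w w')
    (ht : 3 ≤ t) (c : α) :
    ∑ i ∈ range w.length, (((w'.take (i + 1)).count c : ℚ) ^ 2 -
      ((w.take (i + 1)).count c : ℚ) ^ 2) = 0 := by
  have hl : w.length = w'.length := h.length_eq (by omega)
  have hc : (w.count c : ℚ) = w'.count c := h _ ((isPol_count c).mono (by omega))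
  have h1 := h.sum_drop ((isPol_count c).pow_one 1 |>.mul ((isPol_count c).pow_one 1)) (by omega)
  have h0 := moments (s := 1) h (by omega) c 0 (by omega)
  rw [← hl, ← sub_eq_zero, ← Finset.sum_sub_distrib] at h1
  simp only [pow_one, pow_zero, mul_one, count_drop_eq] at h1 h0
  have h2 : ∑ i ∈ range w.length, (((w'.take (i + 1)).count c : ℚ) ^ 2 -
      ((w.take (i + 1)).count c : ℚ) ^ 2) =
      -(∑ x ∈ range w.length, (((w.count c : ℚ) - (w.take (x + 1)).count c) *
        ((w.count c : ℚ) - (w.take (x + 1)).count c) -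
        ((w'.count c : ℚ) - (w'.take (x + 1)).count c) *
        ((w'.count c : ℚ) - (w'.take (x + 1)).count c))) -
      2 * (w.count c : ℚ) * ∑ i ∈ range w.length, (((w.take (i + 1)).count c : ℚ) -
        (w'.take (i + 1)).count c) := by
    rw [Finset.mul_sum, ← Finset.sum_neg_distrib, ← Finset.sum_sub_distrib]
    apply Finset.sum_congr rfl
    intro i _
    rw [← hc]
    ring
  rw [h2, h1, h0]
  ring

/-- Real polynomials: the difference of counts is orthogonal to them. -/
lemma poly_moment [Fintype α] [DecidableEq α] {s t : ℕ} {w w' : List α} (h : SameP t w w')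
    (hs : s + 2 ≤ t) (c : α) (P : Polynomial ℝ) (hP : P.natDegree ≤ s) :
    ∑ i ∈ range w.length, (((w.take (i + 1)).count c : ℝ) - (w'.take (i + 1)).count c) *
      P.eval ((i + 1 : ℕ) : ℝ) = 0 := by
  -- change of variable
  obtain ⟨R, hR, hRdeg⟩ : ∃ R : Polynomial ℝ, (∀ x : ℝ, P.eval x = R.eval ((w.length : ℝ) - x)) ∧
      R.natDegree ≤ s := by
    refine ⟨P.comp (Polynomial.C (w.length : ℝ) - Polynomial.X), ?_, ?_⟩
    · intro x
      rw [Polynomial.eval_comp]
      simp
    · refine le_trans (Polynomial.natDegree_comp_le) ?_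
      have h1 : (Polynomial.C (w.length : ℝ) - Polynomial.X).natDegree ≤ 1 := by
        refine le_trans (Polynomial.natDegree_sub_le _ _) ?_
        simp
      calc P.natDegree * _ ≤ P.natDegree * 1 := Nat.mul_le_mul_left _ h1
        _ ≤ s := by omega
  have h1 : ∀ k ≤ s, ∑ i ∈ range w.length, (((w.take (i + 1)).count c : ℝ) -
      (w'.take (i + 1)).count c) * ((w.length : ℝ) - (i + 1)) ^ k = 0 := by
    intro k hk
    have h2 := moments h hs c k hk
    exact_mod_cast h2
  have h3 : ∀ i : ℕ, P.eval ((i + 1 : ℕ) : ℝ) =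
      ∑ k ∈ range (s + 1), R.coeff k * ((w.length : ℝ) - (i + 1)) ^ k := by
    intro i
    rw [hR, Polynomial.eval_eq_sum_range' (n := s + 1) (by omega)]
    push_cast
    rfl
  simp only [h3, Finset.mul_sum]
  rw [Finset.sum_comm]
  apply Finset.sum_eq_zero
  intro k hk
  have hk' : k ≤ s := by simp at hk; omega
  have h4 := h1 k hk'
  have h5 : ∑ i ∈ range w.length, (((w.take (i + 1)).count c : ℝ) - (w'.take (i + 1)).count c) *
      (R.coeff k * ((w.length : ℝ) - (i + 1)) ^ k) = R.coeff k *
      ∑ i ∈ range w.length, (((w.take (i + 1)).count c : ℝ) -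
      (w'.take (i + 1)).count c) * ((w.length : ℝ) - (i + 1)) ^ k := by
    rw [Finset.mul_sum]
    apply Finset.sum_congr rfl
    intro i _
    ring
  rw [h5, h4, mul_zero]

/-- The key rigidity statement, nearest integer form. -/
theorem count_eq_of_near [Fintype α] [DecidableEq α] {s t : ℕ} {w w' : List α}
    (h : SameP t w w') (hs1 : 1 ≤ s) (hs : s + 2 ≤ t) (c : α) (P : Polynomial ℝ)
    (hP : P.natDegree ≤ s)
    (hw : ∀ m, 1 ≤ m → m ≤ w.length → |((w.take m).count c : ℝ) - P.eval (m : ℝ)| < 1 / 2) :
    ∀ m ≤ w.length, (w.take m).count c = (w'.take m).count c := by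
  have h1 := poly_moment h hs c P hP
  have h2 : ∑ i ∈ range w.length, (((w'.take (i + 1)).count c : ℝ) ^ 2 -
      ((w.take (i + 1)).count c : ℝ) ^ 2) = 0 := by
    have := sq_moment h (by omega) c
    exact_mod_cast this
  -- the sum of nonnegative terms
  have h3 : ∑ i ∈ range w.length, ((((w'.take (i + 1)).count c : ℝ) -
      (w.take (i + 1)).count c) ^ 2 + 2 * (((w'.take (i + 1)).count c : ℝ) -
      (w.take (i + 1)).count c) * (((w.take (i + 1)).count c : ℝ) -
      P.eval ((i + 1 : ℕ) : ℝ))) = 0 := by
    have e : ∑ i ∈ range w.length, ((((w'.take (i + 1)).count c : ℝ) -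
      (w.take (i + 1)).count c) ^ 2 + 2 * (((w'.take (i + 1)).count c : ℝ) -
      (w.take (i + 1)).count c) * (((w.take (i + 1)).count c : ℝ) -
      P.eval ((i + 1 : ℕ) : ℝ))) = ∑ i ∈ range w.length, (((w'.take (i + 1)).count c : ℝ) ^ 2 -
      ((w.take (i + 1)).count c : ℝ) ^ 2) + 2 * ∑ i ∈ range w.length,
      (((w.take (i + 1)).count c : ℝ) - (w'.take (i + 1)).count c) *
      P.eval ((i + 1 : ℕ) : ℝ) := by
      rw [Finset.mul_sum, ← Finset.sum_add_distrib]
      apply Finset.sum_congr rfl
      intro i _
      ring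
    rw [e, h1, h2]; ring
  have hint : ∀ (a b : ℕ) (q : ℝ), |(b : ℝ) - q| < 1 / 2 → a ≠ b →
      0 < ((a : ℝ) - b) ^ 2 + 2 * ((a : ℝ) - b) * ((b : ℝ) - q) := by
    intro a b q hq hab
    have h4 : (1 : ℝ) ≤ |(a : ℝ) - b| := by
      have h5 : (a : ℤ) - b ≠ 0 := by
        intro h6; apply hab; omega
      have h6 : (1 : ℤ) ≤ |(a : ℤ) - b| := Int.one_le_abs h5
      have h7 : ((1 : ℤ) : ℝ) ≤ ((|(a : ℤ) - b| : ℤ) : ℝ) := by exact_mod_cast h6
      simpa using h7
    rw [abs_lt] at hq
    rcases le_abs.mp h4 with h5 | h5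
    · nlinarith [hq.1, hq.2]
    · nlinarith [hq.1, hq.2]
  have hnn : ∀ i ∈ range w.length, 0 ≤ (((w'.take (i + 1)).count c : ℝ) -
      (w.take (i + 1)).count c) ^ 2 + 2 * (((w'.take (i + 1)).count c : ℝ) -
      (w.take (i + 1)).count c) * (((w.take (i + 1)).count c : ℝ) -
      P.eval ((i + 1 : ℕ) : ℝ)) := by
    intro i hi
    have hi' : i + 1 ≤ w.length := by simpa using hi
    by_cases h4 : (w'.take (i + 1)).count c = (w.take (i + 1)).count c
    · rw [h4]; simp
    · exact (hint _ _ _ (hw (i + 1) (by omega) hi') h4).le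
  have h4 := (Finset.sum_eq_zero_iff_of_nonneg hnn).mp h3
  intro m hm
  rcases m with _ | i
  · simp
  · by_contra h5
    have h6 := h4 i (by simpa using hm)
    have h7 := hint ((w'.take (i + 1)).count c) ((w.take (i + 1)).count c)
      (P.eval ((i + 1 : ℕ) : ℝ)) (hw (i + 1) (by omega) hm) (fun e => h5 e.symm)
    linarith

/-- Two words of the same length with the same prefix counts of all letters but one are equal. -/
lemma eq_of_count [DecidableEq α] {w w' : List α} (c₀ : α) (hl : w.length = w'.length)
    (h : ∀ c ≠ c₀, ∀ m ≤ w.length, (w.take m).count c = (w'.take m).count c) : w = w' := by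
  induction w generalizing w' with
  | nil =>
    rcases w' with _ | ⟨b, w'⟩
    · rfl
    · simp at hl
  | cons a w ih =>
    rcases w' with _ | ⟨b, w'⟩
    · simp at hl
    have hab : a = b := by
      by_contra hne
      by_cases hb : b = c₀
      · have ha : a ≠ c₀ := fun e => hne (e.trans hb.symm)
        have h1 := h a ha 1 (by simp)
        have hne' : ¬ b = a := fun e => hne e.symm
        simp [hne'] at h1
      · have h1 := h b hb 1 (by simp)
        simp [hne] at h1
    subst hab
    congr 1
    apply ih (by simpa using hl)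
    intro c hc m hm
    have h1 := h c hc (m + 1) (by simpa using hm)
    simp only [List.take_succ_cons, List.count_cons] at h1
    omega

end Pool.Agent.Work.MP_02e323_helper2
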