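import Mathlib
import Pool.Agent.Work.MP_02e323_helper2.Pol

/-!
# Weighted polynomial functions on binary words

`W j N f`: the function `f` has weight `< N`, where a position has weight `1` and the difference of
the two letters has weight `j + 1`.
-/

set_option autoImplicit false

open Finset

namespace Pool.Agent.Work.MP_02e323_helper2

/-- Difference in the letter `false`. -/
def D0 (f : List Bool → ℚ) : List Bool → ℚ := fun w => f (false :: w) - f w

/-- Difference between the letters `true` and `false`. -/
def D1 (f : List Bool → ℚ) : List Bool → ℚ := fun w => f (true :: w) - f (false :: w)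

/-- Weight less than `N`. -/
def W (j : ℕ) : ℕ → (List Bool → ℚ) → Prop
  | 0, f => ∀ w, f w = 0
  | n + 1, f => W j n (D0 f) ∧ W j (n - j) (D1 f)
termination_by n => n
decreasing_by all_goals omega

variable {j : ℕ}

lemma W_zero {f : List Bool → ℚ} : W j 0 f ↔ ∀ w, f w = 0 := by rw [W]

lemma W_succ {n : ℕ} {f : List Bool → ℚ} : W j (n + 1) f ↔ W j n (D0 f) ∧ W j (n - j) (D1 f) := by
  rw [W]

lemma D0_zero : D0 (fun _ => 0) = fun _ => 0 := by funext w; simp [D0]
lemma D1_zero : D1 (fun _ => 0) = fun _ => 0 := by funext w; simp [D1]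

lemma W.zero (N : ℕ) : W j N (fun _ => 0) := by
  induction N using Nat.strong_induction_on with
  | _ N ih =>
    rcases N with _ | n
    · rw [W_zero]; intro w; rfl
    · rw [W_succ, D0_zero, D1_zero]
      exact ⟨ih n (by omega), ih (n - j) (by omega)⟩

lemma W.of_eq_zero {N : ℕ} {f : List Bool → ℚ} (h : ∀ w, f w = 0) : W j N f := by
  have e : f = fun _ => 0 := funext h
  rw [e]; exact W.zero N

lemma W.const (N : ℕ) (a : ℚ) : W j (N + 1) (fun _ => a) := by
  rw [W_succ]
  exact ⟨W.of_eq_zero (fun w => by simp [D0]), W.of_eq_zero (fun w => by simp [D1])⟩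

lemma W.add {N : ℕ} {f g : List Bool → ℚ} (hf : W j N f) (hg : W j N g) :
    W j N (fun w => f w + g w) := by
  induction N using Nat.strong_induction_on generalizing f g with
  | _ N ih =>
    rcases N with _ | n
    · rw [W_zero] at *; intro w; rw [hf w, hg w]; ring
    · rw [W_succ] at *
      have e0 : D0 (fun w => f w + g w) = fun w => D0 f w + D0 g w := by
        funext w; simp only [D0]; ring
      have e1 : D1 (fun w => f w + g w) = fun w => D1 f w + D1 g w := by
        funext w; simp only [D1]; ring
      rw [e0, e1]
      exact ⟨ih n (by omega) hf.1 hg.1, ih (n - j) (by omega) hf.2 hg.2⟩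

lemma W.smul {N : ℕ} (a : ℚ) {f : List Bool → ℚ} (hf : W j N f) :
    W j N (fun w => a * f w) := by
  induction N using Nat.strong_induction_on generalizing f with
  | _ N ih =>
    rcases N with _ | n
    · rw [W_zero] at *; intro w; rw [hf w]; ring
    · rw [W_succ] at *
      have e0 : D0 (fun w => a * f w) = fun w => a * D0 f w := by
        funext w; simp only [D0]; ring
      have e1 : D1 (fun w => a * f w) = fun w => a * D1 f w := by
        funext w; simp only [D1]; ring
      rw [e0, e1]
      exact ⟨ih n (by omega) hf.1, ih (n - j) (by omega) hf.2⟩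

lemma W.sub {N : ℕ} {f g : List Bool → ℚ} (hf : W j N f) (hg : W j N g) :
    W j N (fun w => f w - g w) := by
  have h := hf.add (hg.smul (-1))
  have e : (fun w => f w - g w) = fun w => f w + -1 * g w := by funext w; ring
  rw [e]; exact h

lemma W.mono {N M : ℕ} {f : List Bool → ℚ} (hf : W j N f) (h : N ≤ M) : W j M f := by
  induction M using Nat.strong_induction_on generalizing f N with
  | _ M ih =>
    rcases N with _ | n
    · rw [W_zero] at hf; exact W.of_eq_zero hf
    · rcases M with _ | m
      · omega
      · rw [W_succ] at *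
        exact ⟨ih m (by omega) hf.1 (by omega), ih (m - j) (by omega) hf.2 (by omega)⟩

lemma W.d0 {N : ℕ} {f : List Bool → ℚ} (hf : W j N f) : W j (N - 1) (D0 f) := by
  rcases N with _ | n
  · rw [W_zero] at hf
    exact W.of_eq_zero (fun w => by simp [D0, hf])
  · rw [W_succ] at hf; simpa using hf.1

lemma W.d1 {N : ℕ} {f : List Bool → ℚ} (hf : W j N f) : W j (N - (j + 1)) (D1 f) := by
  rcases N with _ | n
  · rw [W_zero] at hf
    exact W.of_eq_zero (fun w => by simp [D1, hf])
  · rw [W_succ] at hf
    have e : n + 1 - (j + 1) = n - j := by omega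
    rw [e]; exact hf.2

lemma W.consFalse {N : ℕ} {f : List Bool → ℚ} (hf : W j N f) :
    W j N (fun w => f (false :: w)) := by
  have h := hf.add (hf.d0.mono (show N - 1 ≤ N by omega))
  have e : (fun w => f (false :: w)) = fun w => f w + D0 f w := by
    funext w; simp only [D0]; ring
  rw [e]; exact h

lemma W.consTrue {N : ℕ} {f : List Bool → ℚ} (hf : W j N f) :
    W j N (fun w => f (true :: w)) := by
  have h := hf.consFalse.add (hf.d1.mono (show N - (j + 1) ≤ N by omega))
  have e : (fun w => f (true :: w)) = fun w => f (false :: w) + D1 f w := by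
    funext w; simp only [D1]; ring
  rw [e]; exact h

lemma W.cons {N : ℕ} {f : List Bool → ℚ} (hf : W j N f) (c : Bool) :
    W j N (fun w => f (c :: w)) := by
  cases c
  · exact hf.consFalse
  · exact hf.consTrue

lemma W.dcons {N : ℕ} {f : List Bool → ℚ} (hf : W j N f) (c : Bool) :
    W j (N - 1) (fun w => f (c :: w) - f w) := by
  cases c
  · exact hf.d0
  · have h := hf.d0.add (hf.d1.mono (show N - (j + 1) ≤ N - 1 by omega))
    have e : (fun w => f (true :: w) - f w) = fun w => D0 f w + D1 f w := by
      funext w; simp only [D0, D1]; ring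
    rw [e]; exact h

lemma W.app {N : ℕ} {f : List Bool → ℚ} (hf : W j N f) (x : List Bool) :
    W j N (fun w => f (x ++ w)) := by
  induction x generalizing f with
  | nil => simpa using hf
  | cons c x ih => exact ih (hf.cons c)

lemma W.dapp {N : ℕ} {f : List Bool → ℚ} (hf : W j N f) (x : List Bool) :
    W j (N - 1) (fun w => f (x ++ w) - f w) := by
  induction x with
  | nil => exact W.of_eq_zero (fun w => by simp)
  | cons c x ih =>
    have h := ((hf.dcons c).app x).add ih
    have e : (fun w => f (c :: x ++ w) - f w) =
        fun w => f (c :: (x ++ w)) - f (x ++ w) + (f (x ++ w) - f w) := by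
      funext w
      have : c :: x ++ w = c :: (x ++ w) := rfl
      rw [this]; ring
    rw [e]; exact h

lemma W.comm {N : ℕ} {f : List Bool → ℚ} (hf : W j N f) :
    W j (N - (j + 2)) (fun w => f (true :: false :: w) - f (false :: true :: w)) := by
  have h1 : W j (N - (j + 2)) (D0 (D1 f)) := hf.d1.d0.mono (by omega)
  have h2 : W j (N - (j + 2)) (D1 (D0 f)) := hf.d0.d1.mono (by omega)
  have h := h1.sub h2
  have e : (fun w => f (true :: false :: w) - f (false :: true :: w)) =
      fun w => D0 (D1 f) w - D1 (D0 f) w := by
    funext w; simp only [D0, D1]; ring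
  rw [e]; exact h

lemma W.mul {a b : ℕ} {f g : List Bool → ℚ} (hf : W j a f) (hg : W j b g) :
    W j (a + b - 1) (fun w => f w * g w) := by
  obtain ⟨n, hn⟩ : ∃ n, a + b = n := ⟨_, rfl⟩
  induction n using Nat.strong_induction_on generalizing a b f g with
  | _ n ih =>
    rcases a with _ | a
    · rw [W_zero] at hf
      exact W.of_eq_zero (fun w => by rw [hf w]; ring)
    rcases b with _ | b
    · rw [W_zero] at hg
      exact W.of_eq_zero (fun w => by rw [hg w]; ring)
    have e : a + 1 + (b + 1) - 1 = (a + b) + 1 := by omega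
    rw [e, W_succ]
    have hf' := W_succ.mp hf
    have hg' := W_succ.mp hg
    constructor
    · have h1 : W j (a + b) (fun w => D0 f w * g w) :=
        (ih (a + (b + 1)) (by omega) hf'.1 hg rfl).mono (by omega)
      have h2 : W j (a + b) (fun w => f w * D0 g w) :=
        (ih ((a + 1) + b) (by omega) hf hg'.1 rfl).mono (by omega)
      have h3 : W j (a + b) (fun w => D0 f w * D0 g w) :=
        (ih (a + b) (by omega) hf'.1 hg'.1 rfl).mono (by omega)
      have e0 : D0 (fun w => f w * g w) =
          fun w => D0 f w * g w + f w * D0 g w + D0 f w * D0 g w := by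
        funext w; simp only [D0]; ring
      rw [e0]; exact (h1.add h2).add h3
    · have h1 : W j (a + b - j) (fun w => D1 f w * g (false :: w)) := by
        rcases Nat.lt_or_ge j a with h | h
        · exact (ih ((a - j) + (b + 1)) (by omega) hf'.2 hg.consFalse rfl).mono (by omega)
        · have h4 := hf'.2
          rw [show a - j = 0 by omega, W_zero] at h4
          exact W.of_eq_zero (fun w => by rw [h4 w]; ring)
      have h2 : W j (a + b - j) (fun w => f (false :: w) * D1 g w) := by
        rcases Nat.lt_or_ge j b with h | h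
        · exact (ih ((a + 1) + (b - j)) (by omega) hf.consFalse hg'.2 rfl).mono (by omega)
        · have h4 := hg'.2
          rw [show b - j = 0 by omega, W_zero] at h4
          exact W.of_eq_zero (fun w => by rw [h4 w]; ring)
      have h3 : W j (a + b - j) (fun w => D1 f w * D1 g w) := by
        rcases Nat.lt_or_ge j a with h | h
        · exact (ih ((a - j) + (b - j)) (by omega) hf'.2 hg'.2 rfl).mono (by omega)
        · have h4 := hf'.2
          rw [show a - j = 0 by omega, W_zero] at h4
          exact W.of_eq_zero (fun w => by rw [h4 w]; ring)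
      have e1 : D1 (fun w => f w * g w) =
          fun w => D1 f w * g (false :: w) + f (false :: w) * D1 g w + D1 f w * D1 g w := by
        funext w; simp only [D1]; ring
      rw [e1]; exact (h1.add h2).add h3

/-- Sum over all proper suffixes. -/
def Sg (f : List Bool → ℚ) : List Bool → ℚ
  | [] => 0
  | _ :: w => Sg f w + f w

/-- Sum over all suffixes preceded by `true`. -/
def J1 (f : List Bool → ℚ) : List Bool → ℚ
  | [] => 0
  | c :: w => J1 f w + (if c then f w else 0)

lemma D0_Sg (f : List Bool → ℚ) : D0 (Sg f) = f := by funext w; simp [D0, Sg]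
lemma D1_Sg (f : List Bool → ℚ) : D1 (Sg f) = fun _ => 0 := by funext w; simp [D1, Sg]
lemma D0_J1 (f : List Bool → ℚ) : D0 (J1 f) = fun _ => 0 := by funext w; simp [D0, J1]
lemma D1_J1 (f : List Bool → ℚ) : D1 (J1 f) = f := by funext w; simp [D1, J1]

lemma W.Sg {N : ℕ} {f : List Bool → ℚ} (hf : W j N f) : W j (N + 1) (Sg f) := by
  rw [W_succ, D0_Sg, D1_Sg]; exact ⟨hf, W.zero _⟩

lemma W.J1 {N : ℕ} {f : List Bool → ℚ} (hf : W j N f) : W j (N + j + 1) (J1 f) := by
  rw [W_succ, D0_J1, D1_J1]
  refine ⟨W.zero _, ?_⟩
  rw [Nat.add_sub_cancel]; exact hf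

/-- Decomposition. -/
lemma decomp (f : List Bool → ℚ) (w : List Bool) :
    f w = f [] + Sg (D0 f) w + J1 (D1 f) w := by
  induction w with
  | nil => simp [Sg, J1]
  | cons c w ih =>
    have h1 : Sg (D0 f) (c :: w) = Sg (D0 f) w + (f (false :: w) - f w) := rfl
    have h2 : J1 (D1 f) (c :: w) =
        J1 (D1 f) w + (if c then (f (true :: w) - f (false :: w)) else 0) := rfl
    rw [h1, h2]
    cases c
    · simp only [Bool.false_eq_true, if_false]; linarith
    · simp only [if_true]; linarith

lemma Sg_congr {f g : List Bool → ℚ} (h : ∀ w, f w = g w) (w : List Bool) : Sg f w = Sg g w := by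
  rw [funext h]

lemma Sg_add (f g : List Bool → ℚ) (w : List Bool) :
    Sg (fun w => f w + g w) w = Sg f w + Sg g w := by
  induction w with
  | nil => simp [Sg]
  | cons c w ih => simp only [Sg, ih]; ring

lemma Sg_smul (a : ℚ) (f : List Bool → ℚ) (w : List Bool) :
    Sg (fun w => a * f w) w = a * Sg f w := by
  induction w with
  | nil => simp [Sg]
  | cons c w ih => simp only [Sg, ih]; ring

lemma J1_add' (f g : List Bool → ℚ) (w : List Bool) :
    J1 (fun w => f w + g w) w = J1 f w + J1 g w := by
  induction w with
  | nil => simp [J1]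
  | cons c w ih => simp only [J1, ih]; cases c <;> simp; ring

/-- Two words with the same functions of weight `< N`. -/
def SameW (j N : ℕ) (w w' : List Bool) : Prop := ∀ f, W j N f → f w = f w'

lemma W.isPol {D : ℕ} {f : List Bool → ℚ} (hf : W 0 (D + 1) f) : IsPol D f := by
  induction D generalizing f with
  | zero =>
    rw [W_succ, W_zero, W_zero] at hf
    obtain ⟨h0, h1⟩ := hf
    intro w
    induction w with
    | nil => rfl
    | cons c w ih =>
      have h2 := h0 w
      have h3 := h1 w
      simp only [D0, D1] at h2 h3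
      cases c
      · linarith
      · linarith
  | succ D ih =>
    intro c
    apply ih
    have h := hf.dcons c
    simpa using h

lemma SameP.sameW {t : ℕ} {w w' : List Bool} (h : SameP t w w') : SameW 0 (t + 1) w w' :=
  fun f hf => h f hf.isPol

end Pool.Agent.Work.MP_02e323_helper2
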