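import Mathlib
import Pool.Agent.Work.MP_02e323_helper2.Wt

/-!
# Extension of weighted polynomial functions along `0 ↦ m01`, `1 ↦ m10`
-/

set_option autoImplicit false

open Finset

namespace Pool.Agent.Work.MP_02e323_helper2

/-- The morphism `0 ↦ m01`, `1 ↦ m10`. -/
def beta (m : List Bool) : List Bool → List Bool
  | [] => []
  | c :: v => m ++ c :: (!c) :: beta m v

variable {j : ℕ} {m : List Bool}

/-- `g` extends along `beta m` to a function of weight `< M`. -/
def Ext (m : List Bool) (j M : ℕ) (g : List Bool → ℚ) : Prop :=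
  ∃ F, W j M F ∧ ∀ v, F (beta m v) = g v

lemma Ext.of {M : ℕ} {F : List Bool → ℚ} (h : W j M F) : Ext m j M (fun v => F (beta m v)) :=
  ⟨F, h, fun _ => rfl⟩

lemma Ext.add {M : ℕ} {f g : List Bool → ℚ} (hf : Ext m j M f) (hg : Ext m j M g) :
    Ext m j M (fun v => f v + g v) := by
  obtain ⟨F, h1, h2⟩ := hf
  obtain ⟨G, h3, h4⟩ := hg
  exact ⟨fun w => F w + G w, h1.add h3, fun v => by simp only [h2, h4]⟩

lemma Ext.smul {M : ℕ} (a : ℚ) {f : List Bool → ℚ} (hf : Ext m j M f) :
    Ext m j M (fun v => a * f v) := by
  obtain ⟨F, h1, h2⟩ := hf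
  exact ⟨fun w => a * F w, h1.smul a, fun v => by simp only [h2]⟩

lemma Ext.sub {M : ℕ} {f g : List Bool → ℚ} (hf : Ext m j M f) (hg : Ext m j M g) :
    Ext m j M (fun v => f v - g v) := by
  obtain ⟨F, h1, h2⟩ := hf
  obtain ⟨G, h3, h4⟩ := hg
  exact ⟨fun w => F w - G w, h1.sub h3, fun v => by simp only [h2, h4]⟩

lemma Ext.mono {M M' : ℕ} {f : List Bool → ℚ} (hf : Ext m j M f) (h : M ≤ M') :
    Ext m j M' f := by
  obtain ⟨F, h1, h2⟩ := hf
  exact ⟨F, h1.mono h, h2⟩

lemma Ext.congr {M : ℕ} {f g : List Bool → ℚ} (hf : Ext m j M f) (h : ∀ v, f v = g v) :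
    Ext m j M g := by
  rw [← funext h]; exact hf

lemma Ext.zero {M : ℕ} {f : List Bool → ℚ} (h : ∀ v, f v = 0) : Ext m j M f :=
  ⟨fun _ => 0, W.zero _, fun v => (h v).symm⟩

/-- Contribution of a left factor `x` to `Sg G (x ++ T)`. -/
def RR (G : List Bool → ℚ) : List Bool → List Bool → ℚ
  | [], _ => 0
  | _ :: x, T => RR G x T + G (x ++ T)

/-- Contribution of a left factor `x` to `J1 G (x ++ T)`. -/
def SS (G : List Bool → ℚ) : List Bool → List Bool → ℚ
  | [], _ => 0
  | a :: x, T => SS G x T + (if a then G (x ++ T) else 0)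

lemma Sg_append (G : List Bool → ℚ) (x T : List Bool) : Sg G (x ++ T) = Sg G T + RR G x T := by
  induction x with
  | nil => simp [RR]
  | cons a x ih =>
    have : a :: x ++ T = a :: (x ++ T) := rfl
    rw [this]; simp only [Sg, RR, ih]; ring

lemma J1_append (G : List Bool → ℚ) (x T : List Bool) : J1 G (x ++ T) = J1 G T + SS G x T := by
  induction x with
  | nil => simp [SS]
  | cons a x ih =>
    have : a :: x ++ T = a :: (x ++ T) := rfl
    rw [this]; simp only [J1, SS, ih]; ring

lemma beta_cons (m : List Bool) (c : Bool) (v : List Bool) :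
    beta m (c :: v) = (m ++ [c, !c]) ++ beta m v := by
  simp [beta]

/-- `Sg` along `beta`. -/
lemma Sg_beta (G : List Bool → ℚ) (v : List Bool) :
    Sg G (beta m v) = Sg (fun v => RR G (m ++ [false, true]) (beta m v)) v +
      J1 (fun v => RR G (m ++ [true, false]) (beta m v) -
        RR G (m ++ [false, true]) (beta m v)) v := by
  induction v with
  | nil => simp [beta, Sg, J1]
  | cons c v ih =>
    rw [beta_cons, Sg_append, ih]
    simp only [Sg, J1]
    cases c <;> simp <;> ring

/-- `J1` along `beta`. -/
lemma J1_beta (G : List Bool → ℚ) (v : List Bool) :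
    J1 G (beta m v) = Sg (fun v => SS G (m ++ [false, true]) (beta m v)) v +
      J1 (fun v => SS G (m ++ [true, false]) (beta m v) -
        SS G (m ++ [false, true]) (beta m v)) v := by
  induction v with
  | nil => simp [beta, Sg, J1]
  | cons c v ih =>
    rw [beta_cons, J1_append, ih]
    simp only [Sg, J1]
    cases c <;> simp <;> ring

lemma W_RR {N : ℕ} {G : List Bool → ℚ} (hG : W j N G) (x : List Bool) :
    W j N (fun T => RR G x T) := by
  induction x with
  | nil => exact W.of_eq_zero (fun w => rfl)
  | cons a x ih => exact ih.add (hG.app x)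

lemma W_RR_sub {N : ℕ} {G : List Bool → ℚ} (hG : W j N G) (x : List Bool) :
    W j (N - 1) (fun T => RR G x T - x.length * G T) := by
  induction x with
  | nil =>
    exact W.of_eq_zero (fun w => by
      simp [RR])
  | cons a x ih =>
    have h := ih.add (hG.dapp x)
    have e : (fun T => RR G (a :: x) T -
        ((a :: x).length : ℚ) * G T) =
        fun T => RR G x T - (x.length : ℚ) * G T +
          (G (x ++ T) - G T) := by
      funext T
      simp only [RR, List.length_cons]
      push_cast; ring
    rw [e]; exact h

/-- `RR` of the two block types. -/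
lemma W_RR_blk {N M : ℕ} {G : List Bool → ℚ} (hG : W j N G)
    (h1 : W j M (fun T => G (false :: T) - G (true :: T))) (hM : N - (j + 2) ≤ M)
    (x : List Bool) :
    W j M (fun T => RR G (x ++ [true, false]) T - RR G (x ++ [false, true]) T) := by
  induction x with
  | nil =>
    have e : (fun T => RR G ([] ++ [true, false]) T -
        RR G ([] ++ [false, true]) T) =
        fun T => G (false :: T) - G (true :: T) := by
      funext T
      simp [RR]
    rw [e]; exact h1
  | cons a x ih =>
    have h2 : W j M (fun T => G (x ++ true :: false :: T) - G (x ++ false :: true :: T)) :=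
      (hG.app x).comm.mono hM
    have h := ih.add h2
    have e : (fun T => RR G (a :: x ++ [true, false]) T -
        RR G (a :: x ++ [false, true]) T) =
        fun T => RR G (x ++ [true, false]) T -
          RR G (x ++ [false, true]) T +
          (G (x ++ true :: false :: T) - G (x ++ false :: true :: T)) := by
      funext T
      have e1 : a :: x ++ [true, false] = a :: (x ++ [true, false]) := rfl
      have e2 : a :: x ++ [false, true] = a :: (x ++ [false, true]) := rfl
      rw [e1, e2]
      simp only [RR, List.append_assoc, List.cons_append,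
        List.nil_append]
      ring
    rw [e]; exact h

/-- Number of letters `true`. -/
def ct (x : List Bool) : ℕ := x.count true

/-- `SS` of a left factor, up to lower weight, is a combination of translates. -/
lemma SS_blk_false {N : ℕ} {G : List Bool → ℚ} (hG : W j N G) (x : List Bool) :
    ∃ R, W j N R ∧ ∀ T, SS (Sg G) (x ++ [false, true]) T =
      ((x.count true + 1 : ℕ) : ℚ) * Sg G T + R T := by
  induction x with
  | nil => exact ⟨fun _ => 0, W.zero _, fun T => by simp [SS]⟩
  | cons a x ih =>
    obtain ⟨R, h1, h2⟩ := ih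
    cases a
    · refine ⟨R, h1, fun T => ?_⟩
      have e1 : false :: x ++ [false, true] = false :: (x ++ [false, true]) := rfl
      rw [e1]; simp only [SS, h2]; simp
    · refine ⟨fun T => R T + RR G (x ++ [false, true]) T, h1.add (W_RR hG _), fun T => ?_⟩
      have e1 : true :: x ++ [false, true] = true :: (x ++ [false, true]) := rfl
      rw [e1]
      simp only [SS, h2, if_true, Sg_append, List.count_cons_self]
      push_cast; ring

lemma SS_blk_diff {N M : ℕ} {G : List Bool → ℚ} (hG : W j N G) (hM : N - (j + 2) ≤ M)
    (x : List Bool) :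
    ∃ R, W j M R ∧ ∀ T, SS G (x ++ [true, false]) T - SS G (x ++ [false, true]) T =
      (G (false :: T) - G T) + R T := by
  induction x with
  | nil => exact ⟨fun _ => 0, W.zero _, fun T => by simp [SS]⟩
  | cons a x ih =>
    obtain ⟨R, h1, h2⟩ := ih
    have e1 : a :: x ++ [false, true] = a :: (x ++ [false, true]) := rfl
    have e2 : a :: x ++ [true, false] = a :: (x ++ [true, false]) := rfl
    rw [e1, e2]
    cases a
    · refine ⟨R, h1, fun T => ?_⟩
      have := h2 T
      simp only [SS, Bool.false_eq_true, if_false]
      linarith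
    · refine ⟨fun T => R T + (G (x ++ true :: false :: T) - G (x ++ false :: true :: T)),
        h1.add ((hG.app x).comm.mono hM), fun T => ?_⟩
      have := h2 T
      simp only [SS, if_true, List.append_assoc, List.cons_append, List.nil_append]
      linarith

lemma Sg_zero' {f : List Bool → ℚ} (h : ∀ v, f v = 0) (v : List Bool) : Sg f v = 0 := by
  induction v with
  | nil => rfl
  | cons c v ih => simp [Sg, ih, h]

lemma J1_zero' {f : List Bool → ℚ} (h : ∀ v, f v = 0) (v : List Bool) : J1 f v = 0 := by
  induction v with
  | nil => rfl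
  | cons c v ih => simp [J1, ih, h]

lemma core_ext {j N M : ℕ} {m : List Bool}
    (hlow : ∀ H : List Bool → ℚ, W j (N - (j + 1)) H →
      Ext m j (N + 1) (J1 (fun v => H (beta m v))))
    {G' : List Bool → ℚ} (hG' : W j M G') (hNM : N ≤ M)
    (hR0 : Ext m j (M + 1) (Sg (fun v => RR G' (m ++ [false, true]) (beta m v) -
      ((m ++ [false, true]).length : ℚ) * G' (beta m v))))
    (hR1 : W j (N - (j + 1)) (fun T => RR G' (m ++ [true, false]) T -
      RR G' (m ++ [false, true]) T)) :
    Ext m j (M + 1) (Sg (fun v => G' (beta m v))) := by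
  have hq : ((m ++ [false, true]).length : ℚ) ≠ 0 := by
    simp only [List.length_append, List.length_cons, List.length_nil]
    positivity
  have h1 : Ext m j (M + 1) (fun v => Sg G' (beta m v)) := Ext.of hG'.Sg
  have h2 := (hlow _ hR1).mono (show N + 1 ≤ M + 1 by omega)
  have h4 := ((h1.sub h2).sub hR0).smul (1 / ((m ++ [false, true]).length : ℚ))
  refine h4.congr (fun v => ?_)
  have e1 := Sg_beta (m := m) G' v
  have e2 : Sg (fun v => RR G' (m ++ [false, true]) (beta m v)) v =
      Sg (fun v => (RR G' (m ++ [false, true]) (beta m v) -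
        ((m ++ [false, true]).length : ℚ) * G' (beta m v))) v +
      ((m ++ [false, true]).length : ℚ) * Sg (fun v => G' (beta m v)) v := by
    rw [← Sg_smul, ← Sg_add]
    apply Sg_congr
    intro w; ring
  rw [e1, e2]
  generalize ((m ++ [false, true]).length : ℚ) = q at *
  generalize Sg (fun v => (RR G' (m ++ [false, true]) (beta m v) - q * G' (beta m v))) v = A
  generalize J1 (fun v => RR G' (m ++ [true, false]) (beta m v) -
        RR G' (m ++ [false, true]) (beta m v)) v = B
  generalize Sg (fun v => G' (beta m v)) v = C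
  field_simp
  ring

/-- The extension lemma for sums over all tails and over tails preceded by `1`. -/
lemma ext_aux (m : List Bool) (j N : ℕ) : ∀ (G : List Bool → ℚ), W j N G →
    Ext m j (N + 1) (Sg (fun v => G (beta m v))) ∧
    Ext m j (N + j + 2) (J1 (fun v => G (beta m v))) := by
  induction N using Nat.strong_induction_on with
  | _ N ih =>
    rcases Nat.eq_zero_or_pos N with hN | hN
    · subst hN
      intro G hG
      rw [W_zero] at hG
      exact ⟨Ext.zero (fun v => Sg_zero' (fun v => hG _) v),
        Ext.zero (fun v => J1_zero' (fun v => hG _) v)⟩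
    -- functions of weight `< N - (j+1)` summed over `1`-tails
    have hlow : ∀ H : List Bool → ℚ, W j (N - (j + 1)) H →
        Ext m j (N + 1) (J1 (fun v => H (beta m v))) := by
      intro H hH
      rcases Nat.lt_or_ge N (j + 1) with h | h
      · rw [show N - (j + 1) = 0 by omega, W_zero] at hH
        exact Ext.zero (fun v => J1_zero' (fun v => hH _) v)
      · exact ((ih (N - (j + 1)) (by omega) H hH).2).mono (by omega)
    have E1 : ∀ G : List Bool → ℚ, W j N G →
        Ext m j (N + 1) (Sg (fun v => G (beta m v))) := by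
      intro G hG
      apply core_ext hlow hG le_rfl
      · exact ((ih (N - 1) (by omega) _ (W_RR_sub hG (m ++ [false, true]))).1).mono (by omega)
      · apply W_RR_blk hG _ (by omega)
        have h := hG.d1.smul (-1)
        have e : (fun T => G (false :: T) - G (true :: T)) = fun w => -1 * D1 G w := by
          funext w; simp only [D1]; ring
        rw [e]; exact h
    intro G hG
    refine ⟨E1 G hG, ?_⟩
    have hG1 : W j (N + 1) (Sg G) := hG.Sg
    -- `Sg` of `Sg G`
    have E1' : Ext m j (N + 2) (Sg (fun v => Sg G (beta m v))) := by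
      apply core_ext hlow hG1 (by omega)
      · have h := W_RR_sub hG1 (m ++ [false, true])
        rw [Nat.add_sub_cancel] at h
        exact (E1 _ h).mono (by omega)
      · apply W_RR_blk hG1 _ (by omega)
        exact W.of_eq_zero (fun w => by simp [Sg])
    obtain ⟨R, hR1, hR2⟩ := SS_blk_false hG m
    obtain ⟨R', hR1', hR2'⟩ := SS_blk_diff (M := N - (j + 1)) hG1 (by omega) m
    have h1 : Ext m j (N + j + 2) (fun v => J1 (Sg G) (beta m v)) := by
      have := hG1.J1
      rw [show N + 1 + j + 1 = N + j + 2 by omega] at this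
      exact Ext.of this
    have h2 : Ext m j (N + j + 2) (Sg (fun v => SS (Sg G) (m ++ [false, true]) (beta m v))) := by
      have h3 := (E1'.mono (show N + 2 ≤ N + j + 2 by omega)).smul ((m.count true + 1 : ℕ) : ℚ)
      have h4 := (E1 R hR1).mono (show N + 1 ≤ N + j + 2 by omega)
      refine (h3.add h4).congr (fun v => ?_)
      rw [← Sg_smul, ← Sg_add]
      apply Sg_congr
      intro w
      rw [hR2]
    have h5 : Ext m j (N + j + 2) (J1 (fun v => R' (beta m v))) :=
      (hlow R' hR1').mono (by omega)
    refine ((h1.sub h2).sub h5).congr (fun v => ?_)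
    rw [J1_beta]
    have e : (fun v => SS (Sg G) (m ++ [true, false]) (beta m v) -
        SS (Sg G) (m ++ [false, true]) (beta m v)) =
        fun v => G (beta m v) + R' (beta m v) := by
      funext v
      rw [hR2']
      simp [Sg]
    rw [e, J1_add']
    ring

/-- Every function of weight `< N` for the letter weight `j + 2` extends along `beta`. -/
lemma extend (m : List Bool) (j N : ℕ) : ∀ (f : List Bool → ℚ), W (j + 1) N f → Ext m j N f := by
  induction N using Nat.strong_induction_on with
  | _ N ih =>
    intro f hf
    rcases N with _ | n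
    · rw [W_zero] at hf; exact Ext.zero hf
    rw [W_succ] at hf
    obtain ⟨F0, h1, h2⟩ := ih n (by omega) _ hf.1
    have h3 : Ext m j (n + 1) (Sg (D0 f)) := by
      refine ((ext_aux m j n F0 h1).1).congr (fun v => ?_)
      apply Sg_congr
      intro w; rw [h2]
    have h4 : Ext m j (n + 1) (J1 (D1 f)) := by
      rcases Nat.lt_or_ge n (j + 1) with h | h
      · have h5 := hf.2
        rw [show n - (j + 1) = 0 by omega, W_zero] at h5
        exact Ext.zero (fun v => J1_zero' h5 v)
      · obtain ⟨F1, h5, h6⟩ := ih (n - (j + 1)) (by omega) _ hf.2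
        have h7 := ((ext_aux m j (n - (j + 1)) F1 h5).2).mono
          (show n - (j + 1) + j + 2 ≤ n + 1 by omega)
        refine h7.congr (fun v => ?_)
        rw [funext h6]
    have h8 : Ext m j (n + 1) (fun _ => f []) := ⟨fun _ => f [], W.const n _, fun _ => rfl⟩
    refine ((h8.add h3).add h4).congr (fun v => ?_)
    exact (decomp f v).symm

end Pool.Agent.Work.MP_02e323_helper2
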