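import Mathlib
import Pool.Agent.Work.MP_02e323_helper2.Pol

/-!
# Periodic sequences: indicators of residue classes are polynomial of degree `q - 1`
-/

set_option autoImplicit false

open Finset

namespace Pool.Agent.Work.MP_02e323_helper2

variable {α : Type*}

/-- The word `z (m-1) ⋯ z 1 z 0`. -/
def v (z : ℕ → α) : ℕ → List α
  | 0 => []
  | m + 1 => z m :: v z m

@[simp] lemma v_zero (z : ℕ → α) : v z 0 = [] := rfl

lemma v_succ (z : ℕ → α) (m : ℕ) : v z (m + 1) = z m :: v z m := rfl

@[simp] lemma v_length (z : ℕ → α) (m : ℕ) : (v z m).length = m := by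
  induction m with
  | zero => rfl
  | succ m ih => simp [v_succ, ih]

lemma per_mul {β : Type*} {z : ℕ → β} {q : ℕ} (hz : ∀ i, z (i + q) = z i) (m i : ℕ) :
    z (m + i * q) = z m := by
  induction i with
  | zero => simp
  | succ i ih => rw [Nat.succ_mul, ← add_assoc, hz, ih]

lemma per_mod {β : Type*} {z : ℕ → β} {q : ℕ} (hz : ∀ i, z (i + q) = z i) (m : ℕ) :
    z (m % q) = z m := by
  conv_rhs => rw [← Nat.mod_add_div m q, mul_comm q]
  rw [per_mul hz]

lemma v_add {z : ℕ → α} {q : ℕ} (hz : ∀ i, z (i + q) = z i) (m i : ℕ) :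
    v z (m + i * q) = v z m ++ v z (i * q) := by
  induction m with
  | zero => simp
  | succ m ih =>
    have e : m + 1 + i * q = (m + i * q) + 1 := by ring
    rw [e, v_succ, v_succ, ih, per_mul hz]
    rfl

open Classical in
lemma J_v (c : α) (f : List α → ℚ) (z : ℕ → α) (m : ℕ) :
    J c f (v z m) = ∑ i ∈ range m, if z i = c then f (v z i) else 0 := by
  induction m with
  | zero => simp [J_nil]
  | succ m ih => rw [v_succ, J_cons, ih, Finset.sum_range_succ]

/-- suffixes of `v z n` -/
lemma v_eq_append {z : ℕ → α} {n : ℕ} {x T : List α} {c : α} (h : v z n = x ++ c :: T) :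
    T = v z T.length ∧ z T.length = c := by
  induction n generalizing x with
  | zero => simp at h
  | succ n ih =>
    rcases x with _ | ⟨d, x⟩
    · rw [v_succ, List.nil_append] at h
      injection h with h1 h2
      subst h2
      rw [v_length]
      exact ⟨rfl, h1⟩
    · rw [v_succ, List.cons_append] at h
      injection h with h1 h2
      exact ih h2

section Chain

variable {q : ℕ} [NeZero q]

/-- The functions on `ZMod q` realised by polynomial functions of degree `D` along `z`. -/
def U (z : ℕ → α) (q D : ℕ) : Submodule ℚ (ZMod q → ℚ) where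
  carrier := {s | ∃ φ, IsPol D φ ∧ ∀ m : ℕ, φ (v z m) = s m}
  add_mem' := by
    rintro s s' ⟨φ, h1, h2⟩ ⟨φ', h1', h2'⟩
    exact ⟨_, h1.add h1', fun m => by simp [h2, h2']⟩
  zero_mem' := ⟨_, IsPol.const D 0, fun m => by simp⟩
  smul_mem' := by
    rintro a s ⟨φ, h1, h2⟩
    exact ⟨_, h1.smul a, fun m => by simp [h2]⟩

lemma one_mem_U (z : ℕ → α) (D : ℕ) : (1 : ZMod q → ℚ) ∈ U z q D :=
  ⟨_, IsPol.const D 1, fun m => by simp⟩

lemma U_mono (z : ℕ → α) {D E : ℕ} (h : D ≤ E) : U z q D ≤ U z q E := by
  rintro s ⟨φ, h1, h2⟩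
  exact ⟨φ, h1.mono h, h2⟩

/-- the letter read at a residue class -/
def zb (z : ℕ → α) (q : ℕ) (x : ZMod q) : α := z x.val

lemma zb_cast {z : ℕ → α} (hz : ∀ i, z (i + q) = z i) (m : ℕ) : zb z q (m : ZMod q) = z m := by
  unfold zb
  rw [ZMod.val_natCast, per_mod hz]

lemma sum_per {h : ℕ → ℚ} (hh : ∀ i, h (i + q) = h i) (m : ℕ) :
    ∑ i ∈ range (m + q), h i = ∑ i ∈ range m, h i + ∑ i ∈ range q, h i := by
  induction m with
  | zero => simp
  | succ m ih =>
    rw [show m + 1 + q = (m + q) + 1 by ring, Finset.sum_range_succ, ih, hh,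
      Finset.sum_range_succ]
    ring

open Classical in
lemma key1 {z : ℕ → α} (hz : ∀ i, z (i + q) = z i) {D : ℕ} {s : ZMod q → ℚ}
    (hs : s ∈ U z q D) (c : α) :
    ∃ r ∈ U z q (D + 1), ∃ κ : ℚ, ∀ x, r (x + 1) - r x =
      (if zb z q x = c then s x else 0) - κ := by
  obtain ⟨φ, h1, h2⟩ := hs
  set h : ℕ → ℚ := fun i => if z i = c then s i else 0 with hh
  have hper : ∀ i, h (i + q) = h i := by
    intro i
    simp only [hh, hz]
    simp
  set κ : ℚ := (∑ i ∈ range q, h i) / q with hκ
  have hq : (q : ℚ) ≠ 0 := by exact_mod_cast NeZero.ne q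
  set R : ℕ → ℚ := fun m => ∑ i ∈ range m, h i - κ * m with hR
  have hRper : ∀ m, R (m + q) = R m := by
    intro m
    simp only [hR]
    rw [sum_per hper]
    push_cast
    have : κ * q = ∑ i ∈ range q, h i := by rw [hκ]; field_simp
    linarith
  have hRmod : ∀ m, R (m % q) = R m := per_mod hRper
  refine ⟨fun x => R x.val, ⟨fun w => J c φ w - κ * (w.length : ℚ), ?_, ?_⟩, κ, ?_⟩
  · exact (isPol_J h1 c).sub ((isPol_length.mono (by omega)).smul κ)
  · intro m
    simp only [ZMod.val_natCast, hRmod, v_length]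
    rw [J_v]
    simp only [hR, hh, h2]
  · intro x
    have h3 : R (x + 1).val = R (x.val + 1) := by
      rw [← hRmod (x.val + 1)]
      congr 1
      rw [← ZMod.val_natCast q (x.val + 1)]
      congr 1
      push_cast
      rw [ZMod.natCast_zmod_val]
    show R (x + 1).val - R x.val = _
    rw [h3]
    simp only [hR]
    rw [Finset.sum_range_succ]
    push_cast
    have h4 : h x.val = if zb z q x = c then s x else 0 := by
      simp only [hh, zb, ZMod.natCast_zmod_val]
      split_ifs <;> rfl
    rw [← h4]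
    ring

/-- the difference operator on functions on `ZMod q` -/
def Dl (q : ℕ) : (ZMod q → ℚ) →ₗ[ℚ] (ZMod q → ℚ) where
  toFun s := fun x => s (x + 1) - s x
  map_add' s s' := by funext x; simp; ring
  map_smul' a s := by funext x; simp; ring

@[simp] lemma Dl_apply (s : ZMod q → ℚ) (x : ZMod q) : Dl q s x = s (x + 1) - s x := rfl

/-- `U` is everything if the chain stops. -/
lemma stab {z : ℕ → α} (hz : ∀ i, z (i + q) = z i)
    (hmin : ∀ r, 0 < r → r < q → ∃ i, z (i + r) ≠ z i) {D : ℕ}
    (hD : U z q (D + 1) ≤ U z q D) : U z q D = ⊤ := by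
  classical
  set S := U z q D with hS
  have h1S : (1 : ZMod q → ℚ) ∈ S := one_mem_U z D
  set W : Submodule ℚ (ZMod q → ℚ) := S.map (Dl q) ⊔ Submodule.span ℚ {1} with hW
  have hW1 : ∀ s ∈ S, ∀ c, (fun x => if zb z q x = c then s x else 0) ∈ W := by
    intro s hs c
    obtain ⟨r, hr, κ, h⟩ := key1 hz hs c
    have e : (fun x => if zb z q x = c then s x else 0) = Dl q r + κ • (1 : ZMod q → ℚ) := by
      funext x
      simp only [Pi.add_apply, Dl_apply, Pi.smul_apply, Pi.one_apply, smul_eq_mul, mul_one, h]
      ring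
    rw [e]
    exact Submodule.add_mem_sup (Submodule.mem_map_of_mem (hD hr))
      (Submodule.smul_mem _ _ (Submodule.mem_span_singleton_self _))
  have hSW : S ≤ W := by
    intro s hs
    have e : s = ∑ c ∈ Finset.univ.image (zb z q), (fun x => if zb z q x = c then s x else 0) := by
      funext x
      rw [Finset.sum_apply, Finset.sum_ite_eq, if_pos (Finset.mem_image_of_mem _ (mem_univ x))]
    rw [e]
    exact Submodule.sum_mem _ (fun c _ => hW1 s hs c)
  have hfr : Module.finrank ℚ W ≤ Module.finrank ℚ S := by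
    have h1 : Module.finrank ℚ W ≤ Module.finrank ℚ (S.map (Dl q)) +
        Module.finrank ℚ (Submodule.span ℚ {(1 : ZMod q → ℚ)}) :=
      Submodule.finrank_add_le_finrank_add_finrank _ _
    have h2 : Module.finrank ℚ (Submodule.span ℚ {(1 : ZMod q → ℚ)}) ≤ 1 := by
      have := finrank_span_le_card (R := ℚ) ({(1 : ZMod q → ℚ)} : Set (ZMod q → ℚ))
      simpa using this
    have h3 : Module.finrank ℚ (S.map (Dl q)) +
        Module.finrank ℚ (LinearMap.ker ((Dl q).domRestrict S)) = Module.finrank ℚ S := by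
      have := LinearMap.finrank_range_add_finrank_ker ((Dl q).domRestrict S)
      rw [LinearMap.range_domRestrict] at this
      exact this
    have h4 : 0 < Module.finrank ℚ (LinearMap.ker ((Dl q).domRestrict S)) := by
      have : Nontrivial (LinearMap.ker ((Dl q).domRestrict S)) := by
        refine ⟨⟨⟨⟨1, h1S⟩, ?_⟩, 0, ?_⟩⟩
        · rw [LinearMap.mem_ker]
          funext x
          simp
        · intro h
          have h5 := congrArg
            (fun a : LinearMap.ker ((Dl q).domRestrict S) => a.1.1 (0 : ZMod q)) h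
          simp at h5
      exact Module.finrank_pos (R := ℚ) (M := LinearMap.ker ((Dl q).domRestrict S))
    omega
  have hWS : W = S := (Submodule.eq_of_le_of_finrank_le hSW hfr).symm
  have hΔ : ∀ s ∈ S, Dl q s ∈ S := by
    intro s hs
    rw [← hWS]
    exact Submodule.mem_sup_left (Submodule.mem_map_of_mem hs)
  have hc : ∀ s ∈ S, ∀ c, (fun x => if zb z q x = c then s x else 0) ∈ S := by
    intro s hs c
    rw [← hWS]
    exact hW1 s hs c
  have hT : ∀ s ∈ S, ∀ k : ℕ, (fun x => s (x + k)) ∈ S := by
    intro s hs k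
    induction k with
    | zero => simpa using hs
    | succ k ih =>
      have := S.add_mem (hΔ _ ih) ih
      have e : (fun x => s (x + ((k + 1 : ℕ) : ZMod q))) =
          Dl q (fun x => s (x + k)) + (fun x => s (x + k)) := by
        funext x
        simp only [Pi.add_apply, Dl_apply]
        push_cast
        ring_nf
      rw [e]; exact this
  have hTc : ∀ s ∈ S, ∀ (k : ℕ) (c : α),
      (fun x => if zb z q (x + k) = c then s x else 0) ∈ S := by
    intro s hs k c
    have h1 := hT _ (hc _ (hT s hs ((q - 1) * k)) c) k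
    have e : (fun x : ZMod q => if zb z q (x + k) = c then s x else 0) =
        (fun x => if zb z q (x + k) = c then s (x + k + (((q - 1) * k : ℕ) : ZMod q)) else 0) := by
      funext x
      have h2 : x + k + (((q - 1) * k : ℕ) : ZMod q) = x := by
        have h3 : (k : ZMod q) + (((q - 1) * k : ℕ) : ZMod q) = 0 := by
          have h4 : k + (q - 1) * k = q * k := by
            obtain ⟨m, hm⟩ := Nat.exists_eq_succ_of_ne_zero (NeZero.ne q)
            subst hm
            simp [Nat.succ_mul, add_comm]
          have h5 : ((k + (q - 1) * k : ℕ) : ZMod q) = 0 := by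
            rw [h4]; push_cast; simp
          rw [← h5]; push_cast; ring
        rw [add_assoc, h3, add_zero]
      rw [h2]
    rw [e]
    exact h1
  have hsep : ∀ j j' : ZMod q, j ≠ j' → ∃ k : ℕ, zb z q (j + k) ≠ zb z q (j' + k) := by
    intro j j' hjj
    by_contra hcon
    push Not at hcon
    set δ : ZMod q := j' - j with hδ
    have hδ0 : δ ≠ 0 := by
      rw [hδ]; exact sub_ne_zero.mpr (Ne.symm hjj)
    have h1 : ∀ x : ZMod q, zb z q (x + δ) = zb z q x := by
      intro x
      have h2 := hcon (x - j).val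
      rw [ZMod.natCast_zmod_val] at h2
      have e1 : j + (x - j) = x := by ring
      have e2 : j' + (x - j) = x + δ := by rw [hδ]; ring
      rw [e1, e2] at h2
      exact h2.symm
    have h3 : 0 < δ.val := by
      rcases Nat.eq_zero_or_pos δ.val with h | h
      · exact absurd ((ZMod.val_eq_zero δ).mp h) hδ0
      · exact h
    obtain ⟨i, hi⟩ := hmin δ.val h3 (ZMod.val_lt δ)
    apply hi
    rw [← zb_cast hz, ← zb_cast hz i]
    push_cast
    rw [ZMod.natCast_zmod_val]
    exact h1 _
  have hind : ∀ j : ZMod q, Pi.single j (1 : ℚ) ∈ S := by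
    intro j
    have hk : ∀ j' : ZMod q, ∃ k : ℕ, j ≠ j' → zb z q (j + k) ≠ zb z q (j' + k) := by
      intro j'
      by_cases h : j = j'
      · exact ⟨0, fun h' => absurd h h'⟩
      · obtain ⟨k, hk⟩ := hsep j j' h
        exact ⟨k, fun _ => hk⟩
    choose k hk using hk
    have hprod : ∀ A : Finset (ZMod q), (fun x => ∏ j' ∈ A,
        (if zb z q (x + k j') = zb z q (j + k j') then (1 : ℚ) else 0)) ∈ S := by
      intro A
      induction A using Finset.induction_on with
      | empty =>
        have e : (fun x => ∏ j' ∈ (∅ : Finset (ZMod q)),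
            (if zb z q (x + k j') = zb z q (j + k j') then (1 : ℚ) else 0)) = 1 := by
          funext x; simp
        rw [e]; exact h1S
      | insert a A ha ih =>
        have h2 := hTc _ ih (k a) (zb z q (j + k a))
        have e : (fun x => ∏ j' ∈ insert a A,
            (if zb z q (x + k j') = zb z q (j + k j') then (1 : ℚ) else 0)) =
            (fun x => if zb z q (x + k a) = zb z q (j + k a) then ∏ j' ∈ A,
            (if zb z q (x + k j') = zb z q (j + k j') then (1 : ℚ) else 0) else 0) := by
          funext x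
          rw [Finset.prod_insert ha]
          split_ifs <;> simp
        rw [e]; exact h2
    have h3 := hprod (Finset.univ.erase j)
    have e : (Pi.single j (1 : ℚ) : ZMod q → ℚ) = (fun x => ∏ j' ∈ Finset.univ.erase j,
        (if zb z q (x + k j') = zb z q (j + k j') then (1 : ℚ) else 0)) := by
      funext x
      by_cases hx : x = j
      · subst hx
        simp
      · rw [Pi.single_eq_of_ne hx]
        symm
        apply Finset.prod_eq_zero (Finset.mem_erase.mpr ⟨hx, mem_univ x⟩)
        rw [if_neg]
        exact fun h => (hk x (Ne.symm hx)) h.symm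
    rw [e]; exact h3
  rw [eq_top_iff]
  intro s _
  have e : s = ∑ j, s j • (Pi.single j (1 : ℚ) : ZMod q → ℚ) := by
    funext x
    simp [Finset.sum_apply, Pi.single_apply]
  rw [e]
  exact Submodule.sum_mem _ (fun j _ => Submodule.smul_mem _ _ (hind j))

lemma U_top {z : ℕ → α} (hz : ∀ i, z (i + q) = z i)
    (hmin : ∀ r, 0 < r → r < q → ∃ i, z (i + r) ≠ z i) : U z q (q - 1) = ⊤ := by
  by_contra hne
  have hns : ∀ D, D ≤ q - 1 → ¬ U z q (D + 1) ≤ U z q D := by
    intro D hD h
    apply hne
    rw [eq_top_iff, ← stab hz hmin h]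
    exact U_mono z hD
  have hdim : ∀ D, D ≤ q - 1 → D + 1 ≤ Module.finrank ℚ (U z q D) := by
    intro D
    induction D with
    | zero =>
      intro _
      have : Nontrivial (U z q 0) := by
        refine ⟨⟨⟨1, one_mem_U z 0⟩, 0, ?_⟩⟩
        intro h
        have h5 := congrArg (fun a => (a : U z q 0).1 (0 : ZMod q)) h
        simp at h5
      exact Module.finrank_pos
    | succ D ih =>
      intro hD
      have h1 := ih (by omega)
      have h2 : U z q D < U z q (D + 1) := lt_of_le_not_ge (U_mono z (by omega)) (hns D (by omega))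
      have h3 := Submodule.finrank_lt_finrank_of_lt h2
      omega
  have h1 := hdim (q - 1) le_rfl
  have h2 : Module.finrank ℚ (ZMod q → ℚ) = q := by
    rw [Module.finrank_fintype_fun_eq_card, ZMod.card]
  have h3 : 0 < q := Nat.pos_of_ne_zero (NeZero.ne q)
  exact hne (Submodule.eq_top_of_finrank_eq (le_antisymm (Submodule.finrank_le _) (by omega)))

/-- The indicator of a residue class is a polynomial function of degree `q - 1` along `z`. -/
lemma exists_indicator {z : ℕ → α} (hz : ∀ i, z (i + q) = z i)
    (hmin : ∀ r, 0 < r → r < q → ∃ i, z (i + r) ≠ z i) (j : ℕ) (hj : j < q) :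
    ∃ φ, IsPol (q - 1) φ ∧ ∀ m, φ (v z m) = if m % q = j then 1 else 0 := by
  have h : (Pi.single (j : ZMod q) (1 : ℚ) : ZMod q → ℚ) ∈ U z q (q - 1) := by
    rw [U_top hz hmin]; trivial
  obtain ⟨φ, h1, h2⟩ := h
  refine ⟨φ, h1, fun m => ?_⟩
  rw [h2, Pi.single_apply]
  congr 1
  apply propext
  rw [ZMod.natCast_eq_natCast_iff', Nat.mod_eq_of_lt hj]

end Chain

end Pool.Agent.Work.MP_02e323_helper2
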