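import Mathlib
import Pool.Agent.Work.MP_02e323_helper2.Per

/-!
# Separation of the empty word from a periodic family of words
-/

set_option autoImplicit false

open Finset

namespace Pool.Agent.Work.MP_02e323_helper2

variable {α : Type*}

lemma exists_newton {z : ℕ → α} {q : ℕ} (hz : ∀ i, z (i + q) = z i) {D : ℕ}
    {f : List α → ℚ} (hf : IsPol D f) (x : List α) :
    ∃ b : ℕ → ℚ, ∀ i : ℕ, f (x ++ v z (i * q)) = ∑ k ∈ range (D + 1), b k * (i.choose k : ℚ) := by
  induction D generalizing f with
  | zero =>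
    refine ⟨fun _ => f [], fun i => ?_⟩
    rw [hf (x ++ v z (i * q))]
    simp
  | succ D ih =>
    obtain ⟨b, hb⟩ := ih (hf.diffRight (v z q))
    refine ⟨fun k => match k with | 0 => f x | k + 1 => b k, fun i => ?_⟩
    induction i with
    | zero =>
      rw [Finset.sum_range_succ']
      simp
    | succ i ih2 =>
      have h1 : v z ((i + 1) * q) = v z (i * q) ++ v z q := by
        have h := v_add hz (i * q) 1
        rw [show (i + 1) * q = i * q + 1 * q by ring, h, one_mul]
      have h2 := hb i
      rw [h1, ← List.append_assoc]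
      have h3 : f (x ++ v z (i * q) ++ v z q) =
          f (x ++ v z (i * q)) + ∑ k ∈ range (D + 1), b k * (i.choose k : ℚ) := by
        rw [← h2]; ring
      rw [h3, ih2, Finset.sum_range_succ' _ (D + 1), Finset.sum_range_succ' _ (D + 1)]
      simp only [Nat.choose_succ_succ, Nat.choose_zero_right]
      push_cast
      have h4 : ∀ k, b k * ((i.choose k : ℚ) + (i.choose (k + 1) : ℚ)) =
          b k * (i.choose k : ℚ) + b k * (i.choose (k + 1) : ℚ) := fun k => by ring
      simp only [h4, Finset.sum_add_distrib]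
      ring

lemma choose_poly (k : ℕ) : ∃ F : Polynomial ℚ, F.natDegree ≤ k ∧
    ∀ i : ℕ, F.eval (i : ℚ) = (i.choose k : ℚ) := by
  refine ⟨Polynomial.C ((k.factorial : ℚ)⁻¹) * descPochhammer ℚ k, ?_, fun i => ?_⟩
  · refine (Polynomial.natDegree_C_mul_le _ _).trans ?_
    rw [descPochhammer_natDegree]
  · rw [Polynomial.eval_mul, Polynomial.eval_C, descPochhammer_eval_eq_descFactorial,
      Nat.descFactorial_eq_factorial_mul_choose]
    push_cast
    have : (k.factorial : ℚ) ≠ 0 := by exact_mod_cast k.factorial_ne_zero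
    field_simp

/-- Along a residue class a polynomial function of degree `D` is a polynomial of degree `D`. -/
lemma exists_poly {z : ℕ → α} {q : ℕ} (hz : ∀ i, z (i + q) = z i) {D : ℕ}
    {f : List α → ℚ} (hf : IsPol D f) (x y : List α) :
    ∃ F : Polynomial ℚ, F.natDegree ≤ D ∧
      ∀ i : ℕ, F.eval (i : ℚ) = f (x ++ v z (i * q) ++ y) := by
  obtain ⟨b, hb⟩ := exists_newton hz (hf.transRight y) x
  choose P hP1 hP2 using choose_poly
  refine ⟨∑ k ∈ range (D + 1), Polynomial.C (b k) * P k, ?_, fun i => ?_⟩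
  · apply Polynomial.natDegree_sum_le_of_forall_le
    intro k hk
    refine (Polynomial.natDegree_C_mul_le _ _).trans ((hP1 k).trans ?_)
    have := Finset.mem_range.mp hk
    omega
  · rw [hb i, Polynomial.eval_finset_sum]
    apply Finset.sum_congr rfl
    intro k _
    rw [Polynomial.eval_mul, Polynomial.eval_C, hP2]

/-- Separation when the periodic part is last. -/
lemma sep_last {z : ℕ → α} {q : ℕ} (hq : 0 < q) (hz : ∀ i, z (i + q) = z i)
    (hmin : ∀ r, 0 < r → r < q → ∃ i, z (i + r) ≠ z i) {c : α} (hc : z 0 ≠ c) :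
    ∃ φ, IsPol (q - 1) φ ∧ φ [] ≠ 0 ∧ ∀ m, z m = c → φ (v z m) = 0 := by
  haveI : NeZero q := ⟨hq.ne'⟩
  obtain ⟨φ, h1, h2⟩ := exists_indicator hz hmin 0 hq
  refine ⟨φ, h1, ?_, ?_⟩
  · have := h2 0
    simp at this
    rw [this]; norm_num
  · intro m hm
    rw [h2, if_neg]
    intro h
    apply hc
    rw [← hm, ← per_mod hz m, h]

/-- Separation when the periodic part is followed by a word `g ++ [d]`, `d ≠ c`. -/
lemma sep_mid {z : ℕ → α} {q : ℕ} (hq : 0 < q) (hz : ∀ i, z (i + q) = z i)
    (hmin : ∀ r, 0 < r → r < q → ∃ i, z (i + r) ≠ z i) {c d : α} (hcd : d ≠ c) (g₁ : List α) :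
    ∃ φ, IsPol (3 * q - 2) φ ∧ φ [] ≠ 0 ∧ ∀ m, z m = c → φ (v z m ++ (g₁ ++ [d])) = 0 := by
  classical
  haveI : NeZero q := ⟨hq.ne'⟩
  set g : List α := g₁ ++ [d] with hg
  by_contra hcon
  push Not at hcon
  -- (*) : every function of degree `3 q - 2` vanishing on the family vanishes at `[]`
  have hstar : ∀ φ, IsPol (3 * q - 2) φ → (∀ m, z m = c → φ (v z m ++ g) = 0) → φ [] = 0 := by
    intro φ h1 h2
    by_contra h3
    obtain ⟨m, hm1, hm2⟩ := hcon φ h1 h3
    exact hm2 (h2 m hm1)
  have hind : ∀ j : ℕ, ∃ φ : List α → ℚ, j < q →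
      IsPol (q - 1) φ ∧ ∀ m, φ (v z m) = if m % q = j then 1 else 0 := by
    intro j
    by_cases hj : j < q
    · obtain ⟨φ, h1, h2⟩ := exists_indicator hz hmin j hj
      exact ⟨φ, fun _ => ⟨h1, h2⟩⟩
    · exact ⟨fun _ => 0, fun h => absurd h hj⟩
  choose φ hφ using hind
  have hdiv : ∀ j : ℕ, ∃ ψ : List α → ℚ, j < q →
      IsPol (q - 1) ψ ∧ ∀ u, ψ (u ++ g) = φ j u := by
    intro j
    by_cases hj : j < q
    · obtain ⟨ψ, h1, h2⟩ := (hφ j hj).1.div g
      exact ⟨ψ, fun _ => ⟨h1, h2⟩⟩
    · exact ⟨fun _ => 0, fun h => absurd h hj⟩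
  choose ψ hψ using hdiv
  -- (b)
  have hb : ∃ j, j < q ∧ z j = c ∧ ψ j [] ≠ 0 := by
    have h1 : IsPol (3 * q - 2)
        (fun w => ∑ j ∈ (range q).filter (fun j => z j = c), ψ j w - 1) := by
      refine IsPol.sub (IsPol.sum _ ?_) (IsPol.const _ 1)
      intro j hj
      have hj1 : j < q := by
        have := (Finset.mem_filter.mp hj).1
        exact Finset.mem_range.mp this
      exact (hψ j hj1).1.mono (by omega)
    have h2 := hstar _ h1 ?_
    · by_contra hno
      push Not at hno
      have h3 : ∑ j ∈ (range q).filter (fun j => z j = c), ψ j [] = 0 := by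
        apply Finset.sum_eq_zero
        intro j hj
        have h4 := Finset.mem_filter.mp hj
        exact hno j (Finset.mem_range.mp h4.1) h4.2
      rw [h3] at h2
      norm_num at h2
    · intro m hm
      have h3 : ∑ j ∈ (range q).filter (fun j => z j = c), ψ j (v z m ++ g) =
          ∑ j ∈ (range q).filter (fun j => z j = c), (if m % q = j then (1 : ℚ) else 0) := by
        apply Finset.sum_congr rfl
        intro j hj
        have hj1 : j < q := Finset.mem_range.mp (Finset.mem_filter.mp hj).1
        rw [(hψ j hj1).2, (hφ j hj1).2]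
      rw [h3, Finset.sum_ite_eq, if_pos]
      · ring
      · rw [Finset.mem_filter, Finset.mem_range]
        exact ⟨Nat.mod_lt _ hq, by rw [per_mod hz]; exact hm⟩
  obtain ⟨j, hjq, hjc, hj0⟩ := hb
  -- (c)
  have hcl : ∀ f, IsPol (2 * q - 1) f → (∀ m, m % q = j → f (v z m ++ g) = 0) → f [] = 0 := by
    intro f hf h1
    have h2 : IsPol (3 * q - 2) (fun w => f w * ψ j w) := by
      have := hf.mul (hψ j hjq).1
      exact this.mono (by omega)
    have h3 := hstar _ h2 ?_
    · rcases mul_eq_zero.mp h3 with h | h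
      · exact h
      · exact absurd h hj0
    · intro m _
      by_cases hm : m % q = j
      · rw [h1 m hm, zero_mul]
      · rw [(hψ j hjq).2, (hφ j hjq).2, if_neg hm, mul_zero]
  -- (d)
  set ν : ℚ := ((g.length : ℚ) + j) / q with hν
  have hq0 : (q : ℚ) ≠ 0 := by exact_mod_cast hq.ne'
  have hclass : ∀ m, m % q = j → ∃ i, m = j + i * q := by
    intro m hm
    refine ⟨m / q, ?_⟩
    rw [← hm, mul_comm]
    exact (Nat.mod_add_div m q).symm
  have hev : ∀ f, IsPol (2 * q - 1) f → ∀ F : Polynomial ℚ, F.natDegree ≤ 2 * q - 1 →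
      (∀ i : ℕ, F.eval (i : ℚ) = f (v z (j + i * q) ++ g)) → f [] = F.eval (-ν) := by
    intro f hf F hF h1
    set l : List α → ℚ := fun w => (q : ℚ)⁻¹ * ((w.length : ℚ) - ((g.length : ℚ) + j)) with hl
    have hl1 : IsPol 1 l := (isPol_length.sub (IsPol.const 1 _)).smul _
    have h2 : IsPol (2 * q - 1) (fun w => f w - F.eval (l w)) := hf.sub (hl1.eval F hF)
    have h3 := hcl _ h2 ?_
    · have h4 : l [] = -ν := by
        simp only [hl, hν, List.length_nil, Nat.cast_zero]
        field_simp
        ring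
      rw [h4] at h3
      linarith
    · intro m hm
      obtain ⟨i, rfl⟩ := hclass m hm
      have h4 : l (v z (j + i * q) ++ g) = i := by
        simp only [hl, List.length_append, v_length]
        push_cast
        field_simp
        ring
      rw [h4, h1 i, sub_self]
  -- (e)
  set fs : List α → ℚ := J d (fun w => φ j w ^ 2) with hfs
  have hfsP : IsPol (2 * q - 1) fs :=
    (isPol_J (hφ j hjq).1.sq d).mono (by omega)
  have hfs0 : ∀ m, fs (v z m) = 0 := by
    intro m
    rw [hfs, J_v]
    apply Finset.sum_eq_zero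
    intro i _
    by_cases hi : z i = d
    · rw [if_pos hi, (hφ j hjq).2, if_neg, zero_pow two_ne_zero]
      intro h
      apply hcd
      rw [← hi, ← hjc, ← per_mod hz i, h]
    · rw [if_neg hi]
  obtain ⟨G, hG1, hG2⟩ := exists_poly hz hfsP (g ++ v z j) []
  have hG3 : ∀ k : ℕ, G.eval ((k : ℚ) - ν) = 0 := by
    intro k
    obtain ⟨χ, hχ1, hχ2⟩ := (hfsP.transRight (v z (k * q))).div g
    have h1 : IsPol (2 * q - 1) (fun u => χ (g ++ u)) := hχ1.transLeft g
    have h2 := hev _ h1 (G.comp (Polynomial.X + Polynomial.C (k : ℚ))) ?_ ?_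
    · simp only [List.append_nil] at h2
      have h3 : χ g = 0 := by
        have := hχ2 []
        rw [List.nil_append, List.nil_append] at this
        rw [this, hfs0]
      rw [h3, Polynomial.eval_comp] at h2
      simp only [Polynomial.eval_add, Polynomial.eval_X, Polynomial.eval_C] at h2
      rw [show (k : ℚ) - ν = -ν + k by ring]
      exact h2.symm
    · refine Polynomial.natDegree_comp_le.trans ?_
      have : (Polynomial.X + Polynomial.C (k : ℚ)).natDegree = 1 := Polynomial.natDegree_X_add_C _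
      rw [this, mul_one]
      exact hG1
    · intro i
      rw [Polynomial.eval_comp]
      simp only [Polynomial.eval_add, Polynomial.eval_X, Polynomial.eval_C]
      have h3 := hG2 (i + k)
      push_cast at h3
      rw [h3]
      have h4 := hχ2 (g ++ v z (j + i * q))
      rw [List.append_assoc] at h4
      rw [h4]
      have h5 := v_add hz (j + i * q) k
      have h6 := v_add hz j (i + k)
      have e1 : g ++ v z j ++ v z ((i + k) * q) ++ [] = g ++ v z (j + (i + k) * q) := by
        rw [List.append_nil, List.append_assoc, ← h6]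
      have e2 : g ++ v z (j + i * q) ++ v z (k * q) = g ++ v z (j + i * q + k * q) := by
        rw [List.append_assoc, ← h5]
      rw [e1, e2, show j + (i + k) * q = j + i * q + k * q by ring]
  have hG0 : G = 0 := by
    apply Polynomial.eq_zero_of_infinite_isRoot
    have : Set.range (fun k : ℕ => ((k : ℚ) - ν)) ⊆ {x | Polynomial.IsRoot G x} := by
      rintro _ ⟨k, rfl⟩
      exact hG3 k
    refine Set.Infinite.mono this (Set.infinite_range_of_injective ?_)
    intro a b hab
    have : (a : ℚ) = b := by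
      simp only at hab
      linarith
    exact_mod_cast this
  have h1 := hG2 0
  rw [hG0] at h1
  simp only [Polynomial.eval_zero, zero_mul, v_zero, List.append_nil] at h1
  have h2 : (1 : ℚ) ≤ fs (g ++ v z j) := by
    have h3 := J_append_ge d (f := fun w => φ j w ^ 2) (fun w => sq_nonneg _) g₁ (v z j)
    have h4 : φ j (v z j) = 1 := by
      rw [(hφ j hjq).2, if_pos (Nat.mod_eq_of_lt hjq)]
    simp only [h4] at h3
    have h5 : g ++ v z j = g₁ ++ d :: v z j := by rw [hg]; simp
    rw [h5, hfs]
    linarith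
  linarith

end Pool.Agent.Work.MP_02e323_helper2
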