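import Mathlib
import Pool.Agent.Work.MP_02e323_helper2.Sep

/-!
# Words cut into periodic pieces are determined by short subword counts
-/

set_option autoImplicit false

open Finset

namespace Pool.Agent.Work.MP_02e323_helper2

variable {α : Type*}

/-- `p` is a period of the word `w`. -/
def HasPeriod (p : ℕ) (w : List α) : Prop := ∀ i, i + p < w.length → w[i]? = w[i + p]?

/-- `w` is a concatenation of words with periods `p₁, …, p_r` and `C = ∑ (3 p_k - 2)`. -/
inductive Pieces : ℕ → List α → Prop
  | nil : Pieces 0 []
  | cons {p C : ℕ} {W w : List α} (hp : 0 < p) (hW : HasPeriod p W) (hw : Pieces C w) :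
      Pieces (3 * p - 2 + C) (W ++ w)

lemma v_getElem? (z : ℕ → α) (n i : ℕ) (h : i < n) : (v z n)[i]? = some (z (n - 1 - i)) := by
  induction n generalizing i with
  | zero => omega
  | succ n ih =>
    rw [v_succ]
    rcases i with _ | i
    · simp
    · rw [List.getElem?_cons_succ, ih i (by omega)]
      congr 2
      omega

/-- A word with period `p` is read off a periodic sequence with minimal period at most `p`. -/
lemma HasPeriod.exists_seq {p : ℕ} {W : List α} (hp : 0 < p) (h : HasPeriod p W) (hW : W ≠ []) :
    ∃ (z : ℕ → α) (q : ℕ), 0 < q ∧ q ≤ p ∧ (∀ i, z (i + q) = z i) ∧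
      (∀ r, 0 < r → r < q → ∃ i, z (i + r) ≠ z i) ∧ W = v z W.length := by
  classical
  set n := W.length with hn
  have hn0 : 0 < n := List.length_pos_iff.mpr hW
  set a : α := W.head hW with ha
  set z : ℕ → α := fun i => (W[n - 1 - i % p]?).getD a with hz
  have hzp : ∀ i, z (i + p) = z i := by
    intro i
    simp only [hz, Nat.add_mod_right]
  -- value for `i < n`
  have hval : ∀ i, i < n → W[n - 1 - i % p]? = W[n - 1 - i]? := by
    intro i
    induction i using Nat.strong_induction_on with
    | _ i ih =>
      intro hi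
      by_cases hip : i < p
      · rw [Nat.mod_eq_of_lt hip]
      · have h1 := ih (i - p) (by omega) (by omega)
        have h2 : (i - p) % p = i % p := by
          conv_rhs => rw [show i = (i - p) + p by omega]
          rw [Nat.add_mod_right]
        rw [h2] at h1
        rw [h1]
        have h3 := h (n - 1 - i) (by omega)
        rw [h3]
        congr 1
        omega
  have hWv : W = v z n := by
    apply List.ext_getElem?
    intro i
    by_cases hi : i < n
    · rw [v_getElem? z n i hi]
      simp only [hz]
      rw [hval _ (by omega), show n - 1 - (n - 1 - i) = i by omega]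
      have : i < W.length := hi
      rw [List.getElem?_eq_getElem this]
      rfl
    · rw [List.getElem?_eq_none (by omega), List.getElem?_eq_none (by simp; omega)]
  have hex : ∃ r, 0 < r ∧ ∀ i, z (i + r) = z i := ⟨p, hp, hzp⟩
  refine ⟨z, Nat.find hex, (Nat.find_spec hex).1, Nat.find_min' hex ⟨hp, hzp⟩,
    (Nat.find_spec hex).2, ?_, hWv⟩
  intro r hr0 hr
  have := Nat.find_min hex hr
  push Not at this
  exact this hr0

lemma Pieces.pos {C : ℕ} {w : List α} (h : Pieces C w) (hw : w ≠ []) : 0 < C := by
  induction h with
  | nil => exact absurd rfl hw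
  | @cons p P W w hp hW hw' ih => omega

/-- Initial separation for words cut into periodic pieces. -/
lemma Pieces.sep {P : ℕ} {w : List α} (h : Pieces P w) {c : α} (hc : ∀ x, w ≠ x ++ [c]) :
    ∃ φ, IsPol (P - 1) φ ∧ φ [] ≠ 0 ∧ ∀ x T, w = x ++ c :: T → φ T = 0 := by
  classical
  induction h with
  | nil =>
    exact ⟨fun _ => 1, IsPol.const _ 1, one_ne_zero, fun x T h => by simp at h⟩
  | @cons p P W w hp hW hw ih =>
    by_cases hw0 : w = []
    · subst hw0
      by_cases hW0 : W = []
      · subst hW0
        exact ⟨fun _ => 1, IsPol.const _ 1, one_ne_zero, fun x T h => by simp at h⟩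
      · obtain ⟨z, q, hq, hqp, hz, hmin, hWv⟩ := hW.exists_seq hp hW0
        have hz0 : z 0 ≠ c := by
          intro h0
          obtain ⟨n, hn⟩ := Nat.exists_eq_succ_of_ne_zero (List.length_pos_iff.mpr hW0).ne'
          have : ∀ n, ∃ x, v z (n + 1) = x ++ [z 0] := by
            intro n
            induction n with
            | zero => exact ⟨[], by simp [v_succ]⟩
            | succ n ih2 =>
              obtain ⟨x, hx⟩ := ih2
              exact ⟨z (n + 1) :: x, by rw [v_succ, hx]; rfl⟩
          obtain ⟨x, hx⟩ := this n
          apply hc x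
          rw [List.append_nil, hWv, hn, ← h0]
          exact hx
        obtain ⟨φ, h1, h2, h3⟩ := sep_last hq hz hmin hz0
        refine ⟨φ, h1.mono (by omega), h2, fun x T h => ?_⟩
        rw [List.append_nil, hWv] at h
        obtain ⟨h4, h5⟩ := v_eq_append h
        rw [h4]
        exact h3 _ h5
    · have hcw : ∀ x, w ≠ x ++ [c] := by
        intro x hx
        apply hc (W ++ x)
        rw [hx, List.append_assoc]
      obtain ⟨φ', h1', h2', h3'⟩ := ih hcw
      by_cases hW0 : W = []
      · subst hW0
        refine ⟨φ', h1'.mono (by omega), h2', fun x T h => h3' x T (by simpa using h)⟩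
      · obtain ⟨z, q, hq, hqp, hz, hmin, hWv⟩ := hW.exists_seq hp hW0
        obtain ⟨g₁, d, hgd⟩ : ∃ g₁ d, w = g₁ ++ [d] :=
          ⟨w.dropLast, w.getLast hw0, (List.dropLast_append_getLast hw0).symm⟩
        have hdc : d ≠ c := by
          intro h
          exact hcw g₁ (by rw [hgd, h])
        obtain ⟨φ, h1, h2, h3⟩ := sep_mid hq hz hmin hdc g₁
        have hP : 0 < P := hw.pos hw0
        refine ⟨fun u => φ u * φ' u, (h1.mul h1').mono (by omega), mul_ne_zero h2 h2', ?_⟩
        intro x T h
        show φ T * φ' T = 0
        rcases List.append_eq_append_iff.mp h with ⟨a, h4, h5⟩ | ⟨a, h4, h5⟩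
        · rw [h3' a T h5, mul_zero]
        · rcases a with _ | ⟨b, a⟩
          · rw [List.nil_append] at h5
            rw [h3' [] T (by rw [← h5]; rfl), mul_zero]
          · rw [List.cons_append] at h5
            injection h5 with h6 h7
            subst h6
            rw [hWv] at h4
            obtain ⟨h8, h9⟩ := v_eq_append h4
            rw [h7, h8, hgd, h3 _ h9, zero_mul]

lemma HasPeriod.dropLast {p : ℕ} {W : List α} {a : α} (h : HasPeriod p (W ++ [a])) :
    HasPeriod p W := by
  intro i hi
  have h1 := h i (by rw [List.length_append]; omega)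
  rw [List.getElem?_append_left (by omega), List.getElem?_append_left (by omega)] at h1
  exact h1

lemma Pieces.dropLast {P : ℕ} {w u : List α} (h : Pieces P u) {a : α} (hu : u = w ++ [a]) :
    ∃ P', P' ≤ P ∧ Pieces P' w := by
  induction h generalizing w with
  | nil => simp at hu
  | @cons p P W w₀ hp hW hw ih =>
    rcases List.eq_nil_or_concat w₀ with h0 | ⟨w₁, b, h0⟩
    · subst h0
      rw [List.append_nil] at hu
      subst hu
      refine ⟨3 * p - 2 + 0, by omega, ?_⟩
      have := Pieces.cons hp hW.dropLast (Pieces.nil (α := α))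
      rwa [List.append_nil] at this
    · rw [List.concat_eq_append] at h0
      subst h0
      rw [← List.append_assoc] at hu
      obtain ⟨h1, h2⟩ := List.append_inj' hu rfl
      simp only [List.cons.injEq, and_true] at h2
      subst h2
      obtain ⟨P', h3, h4⟩ := ih rfl
      refine ⟨3 * p - 2 + P', by omega, ?_⟩
      rw [← h1]
      exact Pieces.cons hp hW h4

/-- Core step: if the last letters differ, a squared separating function tells the words apart. -/
lemma last_letter {D t : ℕ} {w₁ w' : List α} {a c : α}
    (hs : SameP t (w₁ ++ [a]) (w' ++ [c]))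
    {φ : List α → ℚ} (hφ : IsPol D φ) (h0 : φ [] ≠ 0) (ht : 2 * D + 1 ≤ t)
    (hv : ∀ x T, w₁ ++ [a] = x ++ c :: T → φ T = 0) : False := by
  have h1 : IsPol t (J c (fun w => φ w ^ 2)) := (isPol_J hφ.sq c).mono ht
  have h2 := hs _ h1
  have h3 : J c (fun w => φ w ^ 2) (w₁ ++ [a]) = 0 :=
    J_eq_zero c (fun x T h => by rw [hv x T h]; norm_num)
  have h4 := J_append_ge c (f := fun w => φ w ^ 2) (fun w => sq_nonneg _) w' []
  have h5 : 0 < φ [] ^ 2 := by positivity
  rw [h3] at h2
  rw [← h2] at h4
  linarith

theorem Pieces.determined {P t : ℕ} {w : List α} (h : Pieces P w) (ht1 : 1 ≤ t)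
    (ht : 2 * P ≤ t) {w' : List α} (hs : SameP t w w') : w = w' := by
  obtain ⟨n, hn⟩ : ∃ n, w.length = n := ⟨_, rfl⟩
  induction n generalizing w w' P with
  | zero =>
    have h1 := hs.length_eq ht1
    have h2 : w = [] := List.eq_nil_of_length_eq_zero hn
    have h3 : w' = [] := List.eq_nil_of_length_eq_zero (by omega)
    rw [h2, h3]
  | succ n ih =>
    have h1 := hs.length_eq ht1
    rcases List.eq_nil_or_concat w with h0 | ⟨w₁, a, h0⟩
    · subst h0; simp at hn
    rcases List.eq_nil_or_concat w' with h0' | ⟨w₁', c, h0'⟩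
    · subst h0'; rw [hn] at h1; simp at h1
    rw [List.concat_eq_append] at h0 h0'
    subst h0 h0'
    by_cases hac : a = c
    · subst hac
      obtain ⟨P', hP', h2⟩ := h.dropLast rfl
      have h3 := ih h2 (by omega) hs.cancel (by simpa using hn)
      rw [h3]
    · exfalso
      have hc : ∀ x, w₁ ++ [a] ≠ x ++ [c] := by
        intro x hx
        have := List.append_inj' hx rfl
        simp at this
        exact hac this.2
      obtain ⟨φ, h2, h3, h4⟩ := h.sep hc
      have hP : 0 < P := h.pos (by simp)
      exact last_letter hs h2 h3 (by omega) h4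

theorem HasPeriod.determined {p t : ℕ} {w : List α} (hp : 0 < p) (h : HasPeriod p w)
    (ht : 2 * p - 1 ≤ t) {w' : List α} (hs : SameP t w w') : w = w' := by
  have ht1 : 1 ≤ t := by omega
  obtain ⟨n, hn⟩ : ∃ n, w.length = n := ⟨_, rfl⟩
  induction n generalizing w w' with
  | zero =>
    have h1 := hs.length_eq ht1
    have h2 : w = [] := List.eq_nil_of_length_eq_zero hn
    have h3 : w' = [] := List.eq_nil_of_length_eq_zero (by omega)
    rw [h2, h3]
  | succ n ih =>
    have h1 := hs.length_eq ht1
    rcases List.eq_nil_or_concat w with h0 | ⟨w₁, a, h0⟩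
    · subst h0; simp at hn
    rcases List.eq_nil_or_concat w' with h0' | ⟨w₁', c, h0'⟩
    · subst h0'; rw [hn] at h1; simp at h1
    rw [List.concat_eq_append] at h0 h0'
    subst h0 h0'
    by_cases hac : a = c
    · subst hac
      have h3 := ih h.dropLast hs.cancel (by simpa using hn)
      rw [h3]
    · exfalso
      obtain ⟨z, q, hq, hqp, hz, hmin, hWv⟩ := h.exists_seq hp (by simp)
      have hz0 : z 0 = a := by
        have : ∀ n, ∃ x, v z (n + 1) = x ++ [z 0] := by
          intro n
          induction n with
          | zero => exact ⟨[], by simp [v_succ]⟩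
          | succ n ih2 =>
            obtain ⟨x, hx⟩ := ih2
            exact ⟨z (n + 1) :: x, by rw [v_succ, hx]; rfl⟩
        obtain ⟨x, hx⟩ := this n
        rw [hn] at hWv
        rw [hx] at hWv
        have := List.append_inj' hWv rfl
        simp at this
        exact this.2.symm
      obtain ⟨φ, h2, h3, h4⟩ := sep_last hq hz hmin (c := c) (by rw [hz0]; exact hac)
      refine last_letter hs h2 h3 (by omega) ?_
      intro x T hx
      rw [hWv] at hx
      obtain ⟨h8, h9⟩ := v_eq_append hx
      rw [h8]
      exact h4 _ h9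

end Pool.Agent.Work.MP_02e323_helper2
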