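import Mathlib
import Pool.Agent.Work.MP_02e323_helper2.Main

/-!
# Undetermined words with `m + 1` factors of length `m`
-/

set_option autoImplicit false

open Finset

namespace Pool.Agent.Work.MP_02e323_helper2

open Pool.Agent.Work.MP_02e323_helper29 (occ occ_nil occ_cons_nil occ_cons_cons)

variable {α : Type*}

lemma isPol_occ (u : List α) : IsPol u.length (fun w => (occ u w : ℚ)) := by
  induction u with
  | nil =>
    have e : (fun w : List α => (occ [] w : ℚ)) = fun _ => 1 := by
      funext w; simp [occ_nil]
    rw [e]; exact IsPol.const _ 1
  | cons c u ih =>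
    have e : (fun w : List α => (occ (c :: u) w : ℚ)) = J c (fun w => (occ u w : ℚ)) := by
      funext w; exact (J_occ c u w).symm
    rw [e]; exact isPol_J ih c

lemma SameP.occ_eq {t : ℕ} {w w' : List α} (h : SameP t w w') {u : List α}
    (hu : u.length ≤ t) : occ u w = occ u w' := by
  have h1 := h _ ((isPol_occ u).mono hu)
  exact_mod_cast h1

/-- Difference with respect to a left factor. -/
lemma IsPol.diffLeft {D : ℕ} {f : List α → ℚ} (hf : IsPol (D + 1) f) (g : List α) :
    IsPol D (fun u => f (g ++ u) - f u) := by
  induction g generalizing f with
  | nil => simpa using IsPol.const D 0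
  | cons a g ih =>
    have h1 : IsPol D (fun u => f (g ++ u) - f u) := ih hf
    have h2 : IsPol D (fun u => f (a :: (g ++ u)) - f (g ++ u)) := (hf a).transLeft g
    have h3 := h2.add h1
    have e : (fun u => f (a :: g ++ u) - f u) =
        (fun w => f (a :: (g ++ w)) - f (g ++ w) + (f (g ++ w) - f w)) := by
      funext w
      have : a :: g ++ w = a :: (g ++ w) := rfl
      rw [this]; ring
    rw [e]; exact h3

/-- A morphism of free monoids. -/
def mor {β : Type*} (φ : α → List β) : List α → List β
  | [] => []
  | a :: u => φ a ++ mor φ u

lemma isPol_mor {β : Type*} {D : ℕ} {f : List β → ℚ} (hf : IsPol D f) (φ : α → List β) :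
    IsPol D (fun u => f (mor φ u)) := by
  induction D generalizing f with
  | zero =>
    intro w
    show f (mor φ w) = f (mor φ [])
    rw [hf (mor φ w)]
    rfl
  | succ D ih =>
    intro c
    exact ih (hf.diffLeft (φ c))

lemma sameP_mor {β : Type*} {t : ℕ} {w w' : List α} (h : SameP t w w') (φ : α → List β) :
    SameP t (mor φ w) (mor φ w') := fun _ hf => h _ (isPol_mor hf φ)

lemma SameP.append_comm {t : ℕ} {u v : List α} (h : SameP t u v) :
    SameP (t + 1) (u ++ v) (v ++ u) := by
  intro f hf
  -- `f (u x) - f (v x) = f u - f v`
  have h1 : f (u ++ v) - f (v ++ v) = f u - f v := by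
    have := h _ (hf.diffRight v)
    linarith
  have h2 : f (v ++ v) - f (v ++ u) = f v - f u := by
    have := h _ (hf.diffLeft v)
    linarith
  linarith

/-- Thue–Morse words. -/
def tm : ℕ → List Bool × List Bool
  | 0 => ([true], [false])
  | n + 1 => ((tm n).1 ++ (tm n).2, (tm n).2 ++ (tm n).1)

lemma tm_same (t : ℕ) : SameP t (tm t).1 (tm t).2 := by
  induction t with
  | zero =>
    intro f hf
    rw [hf (tm 0).1, hf (tm 0).2]
  | succ t ih => exact ih.append_comm

lemma tm_last (t : ℕ) : ∃ b x y, (tm t).1 = x ++ [b] ∧ (tm t).2 = y ++ [!b] := by
  induction t with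
  | zero => exact ⟨true, [], [], rfl, rfl⟩
  | succ t ih =>
    obtain ⟨b, x, y, h1, h2⟩ := ih
    refine ⟨!b, (tm t).1 ++ y, (tm t).2 ++ x, ?_, ?_⟩
    · show (tm t).1 ++ (tm t).2 = _
      rw [List.append_assoc, ← h2]
    · show (tm t).2 ++ (tm t).1 = _
      rw [List.append_assoc, Bool.not_not, ← h1]

/-- the morphism `0 ↦ 0`, `1 ↦ 0^m 1` -/
def sp (m : ℕ) (b : Bool) : List Bool := if b then List.replicate m false ++ [true] else [false]

lemma mor_append {β : Type*} (φ : α → List β) (u v : List α) :
    mor φ (u ++ v) = mor φ u ++ mor φ v := by
  induction u with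
  | nil => rfl
  | cons a u ih =>
    show φ a ++ mor φ (u ++ v) = φ a ++ mor φ u ++ mor φ v
    rw [ih, List.append_assoc]

lemma sp_last (m : ℕ) (b : Bool) : ∃ x, sp m b = x ++ [b] := by
  cases b
  · exact ⟨[], rfl⟩
  · exact ⟨List.replicate m false, rfl⟩

lemma mor_tm_ne (m t : ℕ) : mor (sp m) (tm t).1 ≠ mor (sp m) (tm t).2 := by
  obtain ⟨b, x, y, h1, h2⟩ := tm_last t
  rw [h1, h2, mor_append, mor_append]
  have e : ∀ b, mor (sp m) [b] = sp m b := fun b => by
    show sp m b ++ [] = sp m b
    rw [List.append_nil]
  rw [e, e]
  obtain ⟨x', hx'⟩ := sp_last m b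
  obtain ⟨y', hy'⟩ := sp_last m (!b)
  rw [hx', hy', ← List.append_assoc, ← List.append_assoc]
  intro h
  have := (List.append_inj' h rfl).2
  simp at this

/-- the letters `1` in the image of the morphism are far apart -/
lemma sparse (m : ℕ) (u : List Bool) :
    (∀ i, (mor (sp m) u)[i]? = some true → m ≤ i) ∧
    (∀ i j, i < j → (mor (sp m) u)[i]? = some true → (mor (sp m) u)[j]? = some true →
      i + m < j) := by
  induction u with
  | nil =>
    constructor
    · intro i h; simp [mor] at h
    · intro i j _ h; simp [mor] at h
  | cons b u ih =>
    obtain ⟨ih1, ih2⟩ := ih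
    have e : mor (sp m) (b :: u) = sp m b ++ mor (sp m) u := rfl
    rw [e]
    cases b
    · have e2 : sp m false = [false] := rfl
      rw [e2]
      constructor
      · intro i h
        rcases i with _ | i
        · simp at h
        · have h' : (mor (sp m) u)[i]? = some true := by simpa using h
          have := ih1 i h'
          omega
      · intro i j hij h1 h2
        rcases i with _ | i
        · simp at h1
        rcases j with _ | j
        · omega
        have h1' : (mor (sp m) u)[i]? = some true := by simpa using h1
        have h2' : (mor (sp m) u)[j]? = some true := by simpa using h2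
        have := ih2 i j (by omega) h1' h2'
        omega
    · have e2 : sp m true = List.replicate m false ++ [true] := rfl
      rw [e2, List.append_assoc]
      have get : ∀ i, (List.replicate m false ++ ([true] ++ mor (sp m) u))[i]? = some true →
          i = m ∨ (m < i ∧ (mor (sp m) u)[i - (m + 1)]? = some true) := by
        intro i h
        rcases lt_trichotomy i m with h1 | h1 | h1
        · rw [List.getElem?_append_left (by simpa using h1)] at h
          rw [List.getElem?_replicate, if_pos h1] at h
          simp at h
        · left; exact h1
        · right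
          refine ⟨h1, ?_⟩
          rw [List.getElem?_append_right (by simpa using h1.le)] at h
          rw [List.getElem?_append_right (by simp; omega)] at h
          simpa [Nat.sub_sub] using h
      constructor
      · intro i h
        rcases get i h with h1 | ⟨h1, _⟩ <;> omega
      · intro i j hij h1 h2
        rcases get i h1 with h3 | ⟨h3, h4⟩
        · rcases get j h2 with h5 | ⟨h5, h6⟩
          · omega
          · have := ih1 _ h6
            omega
        · rcases get j h2 with h5 | ⟨h5, h6⟩
          · omega
          · have := ih2 (i - (m + 1)) (j - (m + 1)) (by omega) h4 h6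
            omega

/-- A word in which the letters `1` have distance more than `m` has at most `m + 1` factors of
length `m`. -/
lemma ncard_sparse {m : ℕ} {w : List Bool}
    (h : ∀ i j, i < j → w[i]? = some true → w[j]? = some true → i + m < j) :
    {u : List Bool | u.length = m ∧ u <:+: w}.ncard ≤ m + 1 := by
  classical
  set S : Finset (List Bool) :=
    (range (m + 1)).image (fun k => List.ofFn (fun i : Fin m => decide (i.val = k))) with hS
  have hsub : {u : List Bool | u.length = m ∧ u <:+: w} ⊆ (S : Set (List Bool)) := by
    rintro u ⟨hu, x, y, hxy⟩
    -- at most one `true`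
    have hone : ∀ i j, i < m → j < m → u[i]? = some true → u[j]? = some true → i = j := by
      have key : ∀ i j, i < j → j < m → u[i]? = some true → u[j]? = some true → False := by
        intro i j hij hj h1 h2
        have hw : ∀ k, k < m → w[x.length + k]? = u[k]? := by
          intro k hk
          rw [← hxy, List.append_assoc, List.getElem?_append_right (by omega),
            List.getElem?_append_left (by omega)]
          congr 1
          omega
        have := h (x.length + i) (x.length + j) (by omega) (by rw [hw i (by omega), h1])
          (by rw [hw j hj, h2])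
        omega
      intro i j hi hj h1 h2
      rcases lt_trichotomy i j with h3 | h3 | h3
      · exact (key i j h3 hj h1 h2).elim
      · exact h3
      · exact (key j i h3 hi h2 h1).elim
    rw [hS, Finset.coe_image]
    by_cases hex : ∃ k, k < m ∧ u[k]? = some true
    · obtain ⟨k, hk, huk⟩ := hex
      refine ⟨k, by simpa using (by omega : k < m + 1), ?_⟩
      apply List.ext_getElem?
      intro i
      by_cases hi : i < m
      · rw [List.getElem?_ofFn, dif_pos hi]
        rw [List.getElem?_eq_getElem (by omega : i < u.length)]
        congr 1
        by_cases hik : i = k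
        · subst hik
          rw [List.getElem?_eq_getElem (by omega : i < u.length)] at huk
          simp only [decide_true]
          exact (Option.some.inj huk).symm
        · have h1 : u[i]'(by omega) ≠ true := by
            intro h2
            apply hik
            exact hone i k hi hk (by rw [List.getElem?_eq_getElem (by omega), h2]) huk
          simp only [Bool.not_eq_true] at h1
          rw [h1]
          simp [hik]
      · rw [List.getElem?_eq_none (by simp; omega), List.getElem?_eq_none (by omega)]
    · push Not at hex
      refine ⟨m, by simp, ?_⟩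
      apply List.ext_getElem?
      intro i
      by_cases hi : i < m
      · rw [List.getElem?_ofFn, dif_pos hi]
        rw [List.getElem?_eq_getElem (by omega : i < u.length)]
        congr 1
        have h1 : u[i]'(by omega) ≠ true := by
          intro h2
          exact hex i hi (by rw [List.getElem?_eq_getElem (by omega), h2])
        simp only [Bool.not_eq_true] at h1
        rw [h1]
        simp [hi.ne]
      · rw [List.getElem?_eq_none (by simp; omega), List.getElem?_eq_none (by omega)]
  calc {u : List Bool | u.length = m ∧ u <:+: w}.ncard ≤ (S : Set (List Bool)).ncard :=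
        Set.ncard_le_ncard hsub (Finset.finite_toSet S)
    _ = S.card := Set.ncard_coe_finset S
    _ ≤ (range (m + 1)).card := Finset.card_image_le
    _ = m + 1 := Finset.card_range _

/-- For all `m` and `t` two different words with the same `t`-spectrum, the first of which has
at most `m + 1` factors of length `m`. -/
theorem exists_undetermined (m t : ℕ) : ∃ w w' : List Bool, w' ≠ w ∧
    (∀ u : List Bool, u.length ≤ t → occ u w' = occ u w) ∧
    {u : List Bool | u.length = m ∧ u <:+: w}.ncard ≤ m + 1 := by
  refine ⟨mor (sp m) (tm t).1, mor (sp m) (tm t).2, (mor_tm_ne m t).symm, ?_, ?_⟩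
  · intro u hu
    exact ((sameP_mor (tm_same t) (sp m)).occ_eq hu).symm
  · exact ncard_sparse (sparse m (tm t).1).2

end Pool.Agent.Work.MP_02e323_helper2
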