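import Mathlib
import Pool.Agent.Work.MP_02e323_helper2.Ext
import Pool.Agent.Work.MP_02e323_helper2.Lower

/-!
# Rigidity of iterated central morphisms
-/

set_option autoImplicit false

open Finset

namespace Pool.Agent.Work.MP_02e323_helper2

/-- Central words. -/
def Central (m : List Bool) : Prop :=
  ∀ s, s <:+ m →
    s.count true * (m.length + 2) < (s.length + 1) * (m.count true + 1) ∧
    (s.length + 1) * (m.count true + 1) < (s.count true + 1) * (m.length + 2)

/-- Twice `q` times the distance of the number of ones of `T` to the line. -/
def uu (m : List Bool) (T : List Bool) : ℤ :=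
  2 * ((m.length : ℤ) + 2) * (T.count true : ℤ) - 2 * ((m.count true : ℤ) + 1) * (T.length : ℤ) +
    (2 * ((m.count true : ℤ) + 1) - ((m.length : ℤ) + 2))

lemma count_beta (m v : List Bool) :
    (beta m v).count true = (m.count true + 1) * v.length := by
  induction v with
  | nil => simp [beta]
  | cons c v ih =>
    rw [beta_cons, List.count_append, List.count_append, ih]
    cases c <;> simp <;> ring

lemma length_beta (m v : List Bool) : (beta m v).length = (m.length + 2) * v.length := by
  induction v with
  | nil => simp [beta]
  | cons c v ih =>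
    rw [beta_cons, List.length_append, List.length_append, ih]
    simp; ring

lemma uu_block {m : List Bool} (hm : Central m) {s : List Bool} (hs : s <:+ m) (c : Bool)
    (v : List Bool) : |uu m (s ++ [c, !c] ++ beta m v)| < (m.length : ℤ) + 2 := by
  obtain ⟨h1, h2⟩ := hm s hs
  have h3 : ((s ++ [c, !c] ++ beta m v).count true : ℤ) =
      s.count true + 1 + ((m.count true : ℤ) + 1) * v.length := by
    rw [List.count_append, List.count_append, count_beta]
    cases c <;> simp
  have h4 : ((s ++ [c, !c] ++ beta m v).length : ℤ) =
      s.length + 2 + ((m.length : ℤ) + 2) * v.length := by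
    rw [List.length_append, List.length_append, length_beta]
    push_cast
    simp
  have h1' : (s.count true : ℤ) * ((m.length : ℤ) + 2) <
      ((s.length : ℤ) + 1) * ((m.count true : ℤ) + 1) := by exact_mod_cast h1
  have h2' : ((s.length : ℤ) + 1) * ((m.count true : ℤ) + 1) <
      ((s.count true : ℤ) + 1) * ((m.length : ℤ) + 2) := by exact_mod_cast h2
  rw [abs_lt]
  unfold uu
  rw [h3, h4]
  constructor <;> nlinarith

lemma uu_start {m : List Bool} (hm : Central m) (v : List Bool) :
    |uu m (beta m v)| < (m.length : ℤ) + 2 := by
  obtain ⟨h1, h2⟩ := hm [] (List.nil_suffix)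
  simp only [List.count_nil, List.length_nil, zero_mul, zero_add, one_mul] at h1 h2
  have h2' : ((m.count true : ℤ) + 1) < ((m.length : ℤ) + 2) := by exact_mod_cast h2
  have h1' : (0 : ℤ) < (m.count true : ℤ) + 1 := by positivity
  rw [abs_lt]
  unfold uu
  rw [count_beta, length_beta]
  push_cast
  constructor <;> nlinarith

/-- Binary words with the same suffix counts are equal. -/
lemma eq_of_count_drop {x y : List Bool} (hl : x.length = y.length)
    (h : ∀ i ≤ x.length, (x.drop i).count true = (y.drop i).count true) : x = y := by
  induction x generalizing y with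
  | nil => exact (List.eq_nil_of_length_eq_zero hl.symm).symm
  | cons a x ih =>
    rcases y with _ | ⟨b, y⟩
    · simp at hl
    have h1 : x = y := by
      apply ih (by simpa using hl)
      intro i hi
      have := h (i + 1) (by simp; omega)
      simpa using this
    subst h1
    have h2 := h 0 (by simp)
    simp only [List.drop_zero, List.count_cons] at h2
    cases a <;> cases b <;> simp at h2 ⊢

/-- Recognising images of `beta`. -/
lemma recog {m : List Bool} (hm : Central m) (v w' : List Bool)
    (hl : w'.length = (beta m v).length)
    (h : ∀ i ≤ w'.length, (w'.drop i).count true = ((beta m v).drop i).count true ∨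
      |uu m ((beta m v).drop i)| = (m.length : ℤ) + 2) : ∃ v', w' = beta m v' := by
  induction v generalizing w' with
  | nil =>
    refine ⟨[], ?_⟩
    simp only [beta, List.length_nil] at hl ⊢
    exact List.eq_nil_of_length_eq_zero hl
  | cons c v ih =>
    set T := beta m v with hT
    have hb : beta m (c :: v) = m ++ [c, !c] ++ T := by rw [beta_cons]
    rw [hb] at hl h
    have hl2 : w'.length = m.length + 2 + T.length := by
      rw [hl]; simp; ring
    -- split `w'`
    obtain ⟨x, T', hx, hT', hxl, hTl⟩ : ∃ x T', w' = x ++ T' ∧ T' = w'.drop (m.length + 2) ∧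
        x.length = m.length + 2 ∧ T'.length = T.length := by
      refine ⟨w'.take (m.length + 2), w'.drop (m.length + 2), (List.take_append_drop _ _).symm,
        rfl, ?_, ?_⟩
      · rw [List.length_take]; omega
      · rw [List.length_drop]; omega
    obtain ⟨y, a, b, hy, hyl⟩ : ∃ y a b, x = y ++ [a, b] ∧ y.length = m.length := by
      obtain ⟨n, hn⟩ : ∃ n, m.length = n := ⟨_, rfl⟩
      refine ⟨x.take m.length, x[m.length]'(by omega), x[m.length + 1]'(by omega), ?_, ?_⟩
      · have h1 : x = x.take m.length ++ x.drop m.length := (List.take_append_drop _ _).symm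
        have h2 : x.drop m.length = [x[m.length]'(by omega), x[m.length + 1]'(by omega)] := by
          rw [List.drop_eq_getElem_cons (by omega), List.drop_eq_getElem_cons (by omega)]
          rw [List.drop_eq_nil_of_le (by omega)]
        rw [← h2]; exact h1
      · rw [List.length_take]; omega
    -- counts at the start
    have hdropT : ∀ i, ((m ++ [c, !c] ++ T).drop (m.length + 2 + i)) = T.drop i := by
      intro i
      rw [List.drop_append]
      have e1 : (m ++ [c, !c]).drop (m.length + 2 + i) = [] :=
        List.drop_eq_nil_of_le (by simp)
      rw [e1, List.nil_append]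
      congr 1
      simp
    have hdropT' : ∀ i, (w'.drop (m.length + 2 + i)) = T'.drop i := by
      intro i
      rw [hT', List.drop_drop]
    have h0 : T'.count true = T.count true := by
      have h1 := h (m.length + 2) (by omega)
      have e1 := hdropT 0
      have e2 := hdropT' 0
      simp only [add_zero, List.drop_zero] at e1 e2
      rw [e1, e2] at h1
      rcases h1 with h1 | h1
      · exact h1
      · exfalso
        have := uu_start hm v
        rw [← hT] at this
        omega
    -- counts inside the block
    have hblk : ∀ i ≤ m.length, (y.drop i ++ [a, b] ++ T').count true =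
        (m.drop i ++ [c, !c] ++ T).count true := by
      intro i hi
      have h1 := h i (by omega)
      have e1 : (m ++ [c, !c] ++ T).drop i = m.drop i ++ [c, !c] ++ T := by
        rw [List.append_assoc, List.drop_append_of_le_length hi, List.append_assoc]
      have e2 : w'.drop i = y.drop i ++ [a, b] ++ T' := by
        rw [hx, hy, List.append_assoc, List.drop_append_of_le_length (by omega),
          List.append_assoc]
      rw [e1, e2] at h1
      rcases h1 with h1 | h1
      · exact h1
      · exfalso
        have := uu_block hm (List.drop_suffix i m) c v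
        rw [← hT] at this
        omega
    have hab : b = !a := by
      have h1 := hblk m.length le_rfl
      rw [List.drop_eq_nil_of_le (by omega), List.drop_eq_nil_of_le (by omega)] at h1
      simp only [List.nil_append, List.count_append, h0] at h1
      revert h1
      cases a <;> cases b <;> cases c <;> simp
    have hym : y = m := by
      apply eq_of_count_drop hyl
      intro i hi
      have h1 := hblk i (by omega)
      simp only [List.count_append, h0, hab] at h1
      have e1 : List.count true [a, !a] = 1 := by cases a <;> simp
      have e2 : List.count true [c, !c] = 1 := by cases c <;> simp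
      omega
    obtain ⟨v', hv'⟩ := ih T' hTl (by
      intro i hi
      have h1 := h (m.length + 2 + i) (by omega)
      rw [hdropT, hdropT'] at h1
      exact h1)
    refine ⟨a :: v', ?_⟩
    rw [beta_cons, ← hv', hx, hy, hym, hab]

/-- `uu` as a function of weight `j + 2`. -/
lemma W_count (j : ℕ) : W j (j + 2) (fun T => (T.count true : ℚ)) := by
  rw [show j + 2 = (j + 1) + 1 by omega, W_succ]
  constructor
  · exact W.of_eq_zero (fun w => by simp [D0])
  · rw [show j + 1 - j = 0 + 1 by omega]
    have e : D1 (fun T : List Bool => (T.count true : ℚ)) = fun _ => 1 := by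
      funext w; simp [D1]
    rw [e]; exact W.const 0 1

lemma W_length (j : ℕ) : W j 2 (fun T => (T.length : ℚ)) := by
  rw [show 2 = 1 + 1 by omega, W_succ]
  constructor
  · have e : D0 (fun T : List Bool => (T.length : ℚ)) = fun _ => 1 := by
      funext w; simp [D0]
    rw [e]; exact W.const 0 1
  · exact W.of_eq_zero (fun w => by simp [D1])

lemma W_uu (j : ℕ) (m : List Bool) : W j (j + 2) (fun T => (uu m T : ℚ)) := by
  have h1 := (W_count j).smul (2 * ((m.length : ℚ) + 2))
  have h2 := ((W_length j).mono (show 2 ≤ j + 2 by omega)).smul (2 * ((m.count true : ℚ) + 1))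
  have h3 := W.const (j := j) (j + 1) (2 * ((m.count true : ℚ) + 1) - ((m.length : ℚ) + 2))
  have h := (h1.sub h2).add h3
  have e : (fun T => (uu m T : ℚ)) = fun T => 2 * ((m.length : ℚ) + 2) * (T.count true : ℚ) -
      2 * ((m.count true : ℚ) + 1) * (T.length : ℚ) +
      (2 * ((m.count true : ℚ) + 1) - ((m.length : ℚ) + 2)) := by
    funext T; unfold uu; push_cast; ring
  rw [e]; exact h

lemma Sg_eq_sum (f : List Bool → ℚ) (w : List Bool) :
    Sg f w = ∑ i ∈ range w.length, f (w.drop (i + 1)) := by
  induction w with
  | nil => simp [Sg]
  | cons a w ih =>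
    simp only [Sg, ih, List.length_cons]
    rw [Finset.sum_range_succ']
    simp

/-- `|uu| ≤ q` on all suffixes of an image. -/
lemma uu_le {m : List Bool} (hm : Central m) (v : List Bool) (i : ℕ) :
    |uu m ((beta m v).drop i)| ≤ (m.length : ℤ) + 2 := by
  induction v generalizing i with
  | nil =>
    have := uu_start hm []
    simp only [beta, List.drop_nil] at this ⊢
    exact this.le
  | cons c v ih =>
    rw [beta_cons]
    rcases Nat.lt_or_ge m.length i with h | h
    · rcases Nat.eq_or_lt_of_le (show m.length + 1 ≤ i by omega) with h1 | h1
      · -- the ambiguous position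
        have e1 : (m ++ [c, !c] ++ beta m v).drop i = (!c) :: beta m v := by
          rw [← h1, List.append_assoc, List.drop_append]
          rw [List.drop_eq_nil_of_le (by omega)]
          simp
        rw [e1]
        obtain ⟨h3, h4⟩ := hm [] (List.nil_suffix)
        have h5 : (((!c) :: beta m v).count true : ℤ) =
            (if c then 0 else 1) + ((m.count true : ℤ) + 1) * v.length := by
          rw [List.count_cons, count_beta]
          cases c <;> simp; ring
        have h6 : (((!c) :: beta m v).length : ℤ) = 1 + ((m.length : ℤ) + 2) * v.length := by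
          rw [List.length_cons, length_beta]; push_cast; ring
        unfold uu
        rw [h5, h6]
        cases c
        · simp only [Bool.false_eq_true, if_false]
          rw [abs_le]; constructor <;> nlinarith
        · simp only [if_true]
          rw [abs_le]; constructor <;> nlinarith
      · obtain ⟨k, hk⟩ := Nat.exists_eq_add_of_le (show m.length + 2 ≤ i by omega)
        have e1 : (m ++ [c, !c] ++ beta m v).drop i = (beta m v).drop k := by
          rw [List.drop_append, List.drop_eq_nil_of_le (by simp; omega), List.nil_append]
          congr 1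
          simp; omega
        rw [e1]; exact ih k
    · have e1 : (m ++ [c, !c] ++ beta m v).drop i = m.drop i ++ [c, !c] ++ beta m v := by
        rw [List.append_assoc, List.drop_append_of_le_length h, List.append_assoc]
      rw [e1]; exact (uu_block hm (List.drop_suffix i m) c v).le

/-- Main rigidity step. -/
lemma rigid_step {j N : ℕ} {m : List Bool} (hm : Central m) (hN : 2 * j + 4 ≤ N)
    {v w' : List Bool} (h : SameW j N (beta m v) w') :
    ∃ v', w' = beta m v' ∧ SameW (j + 1) N v v' := by
  have hl : (beta m v).length = w'.length := by
    have := h _ ((W_length j).mono (by omega))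
    exact_mod_cast this
  have hc : (beta m v).count true = w'.count true := by
    have := h _ ((W_count j).mono (by omega))
    exact_mod_cast this
  have hrec : ∃ v', w' = beta m v' := by
    apply recog hm v w' hl.symm
    have hE : W j (2 * j + 4) (Sg (fun T => (uu m T : ℚ) * (uu m T : ℚ))) := by
      have h1 := ((W_uu j m).mul (W_uu j m)).Sg
      rw [show j + 2 + (j + 2) - 1 + 1 = 2 * j + 4 by omega] at h1
      exact h1
    have h1 := h _ (hE.mono hN)
    rw [Sg_eq_sum, Sg_eq_sum, ← hl] at h1
    have h2 : ∑ i ∈ range (beta m v).length, ((uu m (w'.drop (i + 1))) ^ 2 -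
        (uu m ((beta m v).drop (i + 1))) ^ 2) = 0 := by
      have h3 : ((∑ i ∈ range (beta m v).length, ((uu m (w'.drop (i + 1))) ^ 2 -
        (uu m ((beta m v).drop (i + 1))) ^ 2) : ℤ) : ℚ) = 0 := by
        push_cast
        rw [Finset.sum_sub_distrib, sub_eq_zero]
        rw [show (∑ x ∈ range (beta m v).length, (uu m (w'.drop (x + 1)) : ℚ) ^ 2) =
          ∑ i ∈ range (beta m v).length, (uu m (w'.drop (i + 1)) : ℚ) *
            (uu m (w'.drop (i + 1)) : ℚ) from Finset.sum_congr rfl (fun _ _ => sq _), ← h1]
        exact Finset.sum_congr rfl (fun _ _ => (sq _).symm)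
      exact_mod_cast h3
    -- the difference of the two
    have hdiff : ∀ i, uu m (w'.drop i) = uu m ((beta m v).drop i) +
        2 * ((m.length : ℤ) + 2) * (((w'.drop i).count true : ℤ) -
          (((beta m v).drop i).count true : ℤ)) := by
      intro i
      unfold uu
      rw [List.length_drop, List.length_drop, hl]
      ring
    have hge : ∀ i, 0 ≤ (uu m (w'.drop i)) ^ 2 - (uu m ((beta m v).drop i)) ^ 2 ∧
        ((uu m (w'.drop i)) ^ 2 - (uu m ((beta m v).drop i)) ^ 2 = 0 →
          (w'.drop i).count true = ((beta m v).drop i).count true ∨
          |uu m ((beta m v).drop i)| = (m.length : ℤ) + 2) := by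
      intro i
      have h3 := uu_le hm v i
      have h4 := hdiff i
      generalize hu : uu m ((beta m v).drop i) = u at *
      generalize hu' : uu m (w'.drop i) = u' at *
      generalize hq : (m.length : ℤ) + 2 = q at *
      have hq0 : 0 < q := by
        have : (0 : ℤ) ≤ m.length := by positivity
        omega
      obtain ⟨δ, hδ⟩ : ∃ δ : ℤ, ((w'.drop i).count true : ℤ) -
        (((beta m v).drop i).count true : ℤ) = δ := ⟨_, rfl⟩
      rw [hδ] at h4
      have e : u' ^ 2 - u ^ 2 = 4 * q * (δ * (u + q * δ)) := by rw [h4]; ring
      rw [abs_le] at h3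
      rcases lt_trichotomy δ 0 with h5 | h5 | h5
      · have h6 : u + q * δ ≤ 0 := by nlinarith
        have h7 : 0 ≤ δ * (u + q * δ) := mul_nonneg_of_nonpos_of_nonpos h5.le h6
        refine ⟨by rw [e]; positivity, fun h8 => Or.inr ?_⟩
        rw [e] at h8
        have h9 : δ * (u + q * δ) = 0 := by
          rcases mul_eq_zero.mp h8 with h10 | h10
          · omega
          · exact h10
        have h10 : u + q * δ = 0 := by
          rcases mul_eq_zero.mp h9 with h11 | h11
          · omega
          · exact h11
        have h11 : u = q := by nlinarith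
        rw [h11, abs_of_pos hq0]
      · subst h5
        refine ⟨by rw [e]; simp, fun _ => Or.inl ?_⟩
        omega
      · have h6 : 0 ≤ u + q * δ := by nlinarith
        have h7 : 0 ≤ δ * (u + q * δ) := mul_nonneg h5.le h6
        refine ⟨by rw [e]; positivity, fun h8 => Or.inr ?_⟩
        rw [e] at h8
        have h9 : δ * (u + q * δ) = 0 := by
          rcases mul_eq_zero.mp h8 with h10 | h10
          · omega
          · exact h10
        have h10 : u + q * δ = 0 := by
          rcases mul_eq_zero.mp h9 with h11 | h11
          · omega
          · exact h11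
        have h11 : u = -q := by nlinarith
        rw [h11, abs_neg, abs_of_pos hq0]
    have h5 := (Finset.sum_eq_zero_iff_of_nonneg (fun i _ => (hge (i + 1)).1)).mp h2
    intro i hi
    rcases i with _ | i
    · left; simpa using hc.symm
    · exact (hge (i + 1)).2 (h5 i (by simp; omega))
  obtain ⟨v', hv'⟩ := hrec
  refine ⟨v', hv', ?_⟩
  intro f hf
  obtain ⟨F, h1, h2⟩ := extend m j N f hf
  rw [← h2 v, ← h2 v', ← hv']
  exact h F h1

/-- Iterated images. -/
def build : List (List Bool) → List Bool → List Bool
  | [], v => v
  | m :: ms, v => beta m (build ms v)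

lemma rigid_iter (ms : List (List Bool)) (hms : ∀ m ∈ ms, Central m) :
    ∀ (j N : ℕ), 2 * (j + ms.length) + 2 ≤ N → ∀ v w', SameW j N (build ms v) w' →
      ∃ v', w' = build ms v' ∧ SameW (j + ms.length) N v v' := by
  induction ms with
  | nil =>
    intro j N _ v w' h
    exact ⟨w', rfl, by simpa [build] using h⟩
  | cons m ms ih =>
    intro j N hN v w' h
    simp only [List.length_cons] at hN
    obtain ⟨u', h1, h2⟩ := rigid_step (hms m (List.mem_cons_self)) (by omega) h
    obtain ⟨v', h3, h4⟩ := ih (fun x hx => hms x (List.mem_cons_of_mem _ hx)) (j + 1) N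
      (by omega) v u' h2
    refine ⟨v', by rw [h1, h3]; rfl, ?_⟩
    have e : j + (m :: ms).length = j + 1 + ms.length := by simp; omega
    rw [e]; exact h4

/-- Power sums of the positions of the letter `true`. -/
def psum (k : ℕ) (v : List Bool) : ℕ :=
  ∑ i ∈ range v.length, if v[i]? = some true then i ^ k else 0

lemma J1_eq_sum (f : List Bool → ℚ) (v : List Bool) :
    J1 f v = ∑ i ∈ range v.length, if v[i]? = some true then f (v.drop (i + 1)) else 0 := by
  induction v with
  | nil => simp [J1]
  | cons a v ih =>
    simp only [J1, ih, List.length_cons]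
    rw [Finset.sum_range_succ']
    simp

lemma W_pow_length (j k : ℕ) (a : ℚ) : W j (k + 1) (fun T => (a - (T.length : ℚ)) ^ k) := by
  have h1 : W j 2 (fun T : List Bool => a - (T.length : ℚ)) :=
    (W.const (j := j) 1 a).sub (W_length j)
  induction k with
  | zero => simpa using W.const (j := j) 0 1
  | succ k ih =>
    have h := ih.mul h1
    rw [show k + 1 + 2 - 1 = k + 1 + 1 by omega] at h
    have e : (fun T : List Bool => (a - (T.length : ℚ)) ^ (k + 1)) =
        fun T => (a - (T.length : ℚ)) ^ k * (a - (T.length : ℚ)) := by funext T; ring
    rw [e]; exact h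

lemma psum_eq {K N k : ℕ} {v v' : List Bool} (h : SameW K N v v') (hl : v.length = v'.length)
    (hk : k + 1 + K + 1 ≤ N) : psum k v = psum k v' := by
  have h1 := h _ (((W_pow_length K k ((v.length : ℚ) - 1)).J1).mono (by omega))
  rw [J1_eq_sum, J1_eq_sum] at h1
  have key : ∀ u : List Bool, u.length = v.length →
      (∑ i ∈ range u.length, if u[i]? = some true then
        ((v.length : ℚ) - 1 - ((u.drop (i + 1)).length : ℚ)) ^ k else 0) = (psum k u : ℚ) := by
    intro u hu
    unfold psum
    push_cast
    apply Finset.sum_congr rfl
    intro i hi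
    have hi' : i + 1 ≤ u.length := by simpa using hi
    split_ifs
    · rw [List.length_drop, Nat.cast_sub hi', hu]
      push_cast; ring
    · rfl
  have h2 := key v rfl
  have h3 := key v' hl.symm
  rw [h2, h3] at h1
  exact_mod_cast h1

/-- If there are enough moments then `v = v'`. -/
lemma eq_of_sameW {K N : ℕ} {v v' : List Bool} (h : SameW K N v v') (hl : v.length = v'.length)
    (hN : v.length + K + 1 ≤ N) : v = v' := by
  apply List.ext_getElem? 
  intro i
  rcases Nat.lt_or_ge i v.length with hi | hi
  swap
  · rw [List.getElem?_eq_none hi, List.getElem?_eq_none (by omega)]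
  -- Lagrange polynomial
  have hW : ∀ s : Finset ℕ, W K (s.card + 1)
      (fun T => ∏ a ∈ s, ((a : ℚ) - (T.length : ℚ))) := by
    intro s
    induction s using Finset.induction_on with
    | empty => simpa using W.const (j := K) 0 1
    | insert a s ha ih =>
      have h1 : W K 2 (fun T : List Bool => (a : ℚ) - (T.length : ℚ)) :=
        (W.const (j := K) 1 (a : ℚ)).sub (W_length K)
      have h2 := ih.mul h1
      rw [Finset.card_insert_of_notMem ha]
      have e : (fun T : List Bool => ∏ a ∈ insert a s, ((a : ℚ) - (T.length : ℚ))) =
          fun T => (∏ a ∈ s, ((a : ℚ) - (T.length : ℚ))) * ((a : ℚ) - (T.length : ℚ)) := by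
        funext T; rw [Finset.prod_insert ha, mul_comm]
      rw [e]
      exact h2.mono (by omega)
  set l := v.length - 1 - i with hldef
  set s := (range v.length).erase l with hs
  have hcard : s.card = v.length - 1 := by
    rw [hs, Finset.card_erase_of_mem (by simp; omega), Finset.card_range]
  have h1 := h _ (((hW s).J1).mono (by omega))
  rw [J1_eq_sum, J1_eq_sum] at h1
  have key : ∀ u : List Bool, u.length = v.length →
      (∑ k ∈ range u.length, if u[k]? = some true then
        ∏ a ∈ s, ((a : ℚ) - ((u.drop (k + 1)).length : ℚ)) else 0) =
      if u[i]? = some true then ∏ a ∈ s, ((a : ℚ) - (l : ℚ)) else 0 := by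
    intro u hu
    rw [Finset.sum_eq_single i]
    · have e : (u.drop (i + 1)).length = l := by rw [List.length_drop]; omega
      rw [e]
    · intro k hk hki
      have hk' : k < u.length := by simpa using hk
      split_ifs
      · apply Finset.prod_eq_zero (i := (u.drop (k + 1)).length)
        · rw [hs, Finset.mem_erase, Finset.mem_range, List.length_drop]
          constructor
          · omega
          · omega
        · ring
      · rfl
    · intro hi2
      exfalso; apply hi2; simp; omega
  rw [key v rfl, key v' hl.symm] at h1
  have hne : ∏ a ∈ s, ((a : ℚ) - (l : ℚ)) ≠ 0 := by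
    rw [Finset.prod_ne_zero_iff]
    intro a ha
    rw [hs, Finset.mem_erase] at ha
    rw [sub_ne_zero]
    exact_mod_cast ha.1
  rw [List.getElem?_eq_getElem hi, List.getElem?_eq_getElem (by omega)] at h1 ⊢
  generalize v[i] = a at h1 ⊢
  generalize v'[i]'(by omega) = b at h1 ⊢
  cases a <;> cases b <;> simp at h1 ⊢ <;> exact absurd h1 (by first | exact hne | exact fun e => hne e.symm)

end Pool.Agent.Work.MP_02e323_helper2
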