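import Mathlib
import Pool.Agent.Work.MP_02e323_helper2.Rigid
import Pool.Agent.Work.MP_02e323_helper2.Dig

/-!
# Digitally polynomial words at level `K`, and factors
-/

set_option autoImplicit false

open Finset

namespace Pool.Agent.Work.MP_02e323_helper2

lemma SameW.sum_drop {j N M : ℕ} {v v' : List Bool} (h : SameW j N v v')
    {f : List Bool → ℚ} (hf : W j M f) (hM : M + 1 ≤ N) :
    ∑ i ∈ range v.length, f (v.drop (i + 1)) = ∑ i ∈ range v'.length, f (v'.drop (i + 1)) := by
  have h1 := h _ (hf.Sg.mono hM)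
  rwa [Sg_eq_sum, Sg_eq_sum] at h1

lemma W_pow_len (j k : ℕ) : W j (k + 1) (fun T => ((T.length : ℚ)) ^ k) := by
  induction k with
  | zero => simpa using W.const (j := j) 0 1
  | succ k ih =>
    have h := ih.mul (W_length j)
    rw [show k + 1 + 2 - 1 = k + 1 + 1 by omega] at h
    have e : (fun T : List Bool => ((T.length : ℚ)) ^ (k + 1)) =
        fun T => ((T.length : ℚ)) ^ k * (T.length : ℚ) := by funext T; ring
    rw [e]; exact h

/-- Moments of the difference of the letter counts. -/
lemma momentsW {K N s : ℕ} {v v' : List Bool} (h : SameW K N v v')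
    (hN : K + s + 3 ≤ N) (k : ℕ) (hk : k ≤ s) :
    ∑ i ∈ range v.length, (((v.take (i + 1)).count true : ℚ) - (v'.take (i + 1)).count true) *
      ((v.length : ℚ) - (i + 1)) ^ k = 0 := by
  have hl : v.length = v'.length := by
    have := h _ ((W_length K).mono (by omega)); exact_mod_cast this
  have hc : (v.count true : ℚ) = v'.count true := h _ ((W_count K).mono (by omega))
  have h1 := h.sum_drop ((W_count K).mul (W_pow_len K k)) (by omega)
  rw [← hl, ← sub_eq_zero, ← Finset.sum_sub_distrib] at h1
  rw [← neg_eq_zero, ← Finset.sum_neg_distrib, ← h1]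
  apply Finset.sum_congr rfl
  intro i hi
  have hi' : i + 1 ≤ v.length := by simpa using hi
  simp only [List.length_drop, ← hl, count_drop_eq]
  rw [Nat.cast_sub hi', hc]
  push_cast
  ring

lemma sq_momentW {K N : ℕ} {v v' : List Bool} (h : SameW K N v v') (hN : 2 * K + 4 ≤ N) :
    ∑ i ∈ range v.length, (((v'.take (i + 1)).count true : ℚ) ^ 2 -
      ((v.take (i + 1)).count true : ℚ) ^ 2) = 0 := by
  have hl : v.length = v'.length := by
    have := h _ ((W_length K).mono (by omega)); exact_mod_cast this
  have hc : (v.count true : ℚ) = v'.count true := h _ ((W_count K).mono (by omega))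
  have h1 := h.sum_drop ((W_count K).mul (W_count K)) (by omega)
  have h0 := momentsW (s := 0) h (by omega) 0 le_rfl
  rw [← hl, ← sub_eq_zero, ← Finset.sum_sub_distrib] at h1
  simp only [pow_zero, mul_one, count_drop_eq] at h1 h0
  have h2 : ∑ i ∈ range v.length, (((v'.take (i + 1)).count true : ℚ) ^ 2 -
      ((v.take (i + 1)).count true : ℚ) ^ 2) =
      -(∑ x ∈ range v.length, (((v.count true : ℚ) - (v.take (x + 1)).count true) *
        ((v.count true : ℚ) - (v.take (x + 1)).count true) -
        ((v'.count true : ℚ) - (v'.take (x + 1)).count true) *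
        ((v'.count true : ℚ) - (v'.take (x + 1)).count true))) -
      2 * (v.count true : ℚ) * ∑ i ∈ range v.length, (((v.take (i + 1)).count true : ℚ) -
        (v'.take (i + 1)).count true) := by
    rw [Finset.mul_sum, ← Finset.sum_neg_distrib, ← Finset.sum_sub_distrib]
    apply Finset.sum_congr rfl
    intro i _
    rw [← hc]
    ring
  rw [h2, h1, h0]
  ring

/-- Real polynomials: the difference of counts is orthogonal to them. -/
lemma poly_momentW {K N s : ℕ} {v v' : List Bool} (h : SameW K N v v')
    (hN : K + s + 3 ≤ N) (P : Polynomial ℝ) (hP : P.natDegree ≤ s) :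
    ∑ i ∈ range v.length, (((v.take (i + 1)).count true : ℝ) - (v'.take (i + 1)).count true) *
      P.eval ((i + 1 : ℕ) : ℝ) = 0 := by
  obtain ⟨R, hR, hRdeg⟩ : ∃ R : Polynomial ℝ, (∀ x : ℝ, P.eval x = R.eval ((v.length : ℝ) - x)) ∧
      R.natDegree ≤ s := by
    refine ⟨P.comp (Polynomial.C (v.length : ℝ) - Polynomial.X), ?_, ?_⟩
    · intro x
      rw [Polynomial.eval_comp]
      simp
    · refine le_trans (Polynomial.natDegree_comp_le) ?_
      have h1 : (Polynomial.C (v.length : ℝ) - Polynomial.X).natDegree ≤ 1 := by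
        refine le_trans (Polynomial.natDegree_sub_le _ _) ?_
        simp
      calc P.natDegree * _ ≤ P.natDegree * 1 := Nat.mul_le_mul_left _ h1
        _ ≤ s := by omega
  have h1 : ∀ k ≤ s, ∑ i ∈ range v.length, (((v.take (i + 1)).count true : ℝ) -
      (v'.take (i + 1)).count true) * ((v.length : ℝ) - (i + 1)) ^ k = 0 := by
    intro k hk
    have h2 := momentsW h hN k hk
    exact_mod_cast h2
  have h3 : ∀ i : ℕ, P.eval ((i + 1 : ℕ) : ℝ) =
      ∑ k ∈ range (s + 1), R.coeff k * ((v.length : ℝ) - (i + 1)) ^ k := by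
    intro i
    rw [hR, Polynomial.eval_eq_sum_range' (n := s + 1) (by omega)]
    push_cast
    rfl
  simp only [h3, Finset.mul_sum]
  rw [Finset.sum_comm]
  apply Finset.sum_eq_zero
  intro k hk
  have hk' : k ≤ s := by simp at hk; omega
  have h4 := h1 k hk'
  have h5 : ∑ i ∈ range v.length, (((v.take (i + 1)).count true : ℝ) -
      (v'.take (i + 1)).count true) *
      (R.coeff k * ((v.length : ℝ) - (i + 1)) ^ k) = R.coeff k *
      ∑ i ∈ range v.length, (((v.take (i + 1)).count true : ℝ) -
      (v'.take (i + 1)).count true) * ((v.length : ℝ) - (i + 1)) ^ k := by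
    rw [Finset.mul_sum]
    apply Finset.sum_congr rfl
    intro i _
    ring
  rw [h5, h4, mul_zero]

/-- The key rigidity statement at level `K`. -/
theorem eq_of_nearW {K N s : ℕ} {v v' : List Bool}
    (h : SameW K N v v') (hN1 : 2 * K + 4 ≤ N) (hN2 : K + s + 3 ≤ N) (P : Polynomial ℝ)
    (hP : P.natDegree ≤ s)
    (hv : ∀ m, 0 < m → m < v.length → |((v.take m).count true : ℝ) - P.eval (m : ℝ)| < 1 / 2) :
    v = v' := by
  have hl : v.length = v'.length := by
    have := h _ ((W_length K).mono (by omega)); exact_mod_cast this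
  have hc : v.count true = v'.count true := by
    have := h _ ((W_count K).mono (by omega)); exact_mod_cast this
  have h1 := poly_momentW h hN2 P hP
  have h2 : ∑ i ∈ range v.length, (((v'.take (i + 1)).count true : ℝ) ^ 2 -
      ((v.take (i + 1)).count true : ℝ) ^ 2) = 0 := by
    have := sq_momentW h hN1
    exact_mod_cast this
  have h3 : ∑ i ∈ range v.length, ((((v'.take (i + 1)).count true : ℝ) -
      (v.take (i + 1)).count true) ^ 2 + 2 * (((v'.take (i + 1)).count true : ℝ) -
      (v.take (i + 1)).count true) * (((v.take (i + 1)).count true : ℝ) -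
      P.eval ((i + 1 : ℕ) : ℝ))) = 0 := by
    have e : ∑ i ∈ range v.length, ((((v'.take (i + 1)).count true : ℝ) -
      (v.take (i + 1)).count true) ^ 2 + 2 * (((v'.take (i + 1)).count true : ℝ) -
      (v.take (i + 1)).count true) * (((v.take (i + 1)).count true : ℝ) -
      P.eval ((i + 1 : ℕ) : ℝ))) =
      ∑ i ∈ range v.length, (((v'.take (i + 1)).count true : ℝ) ^ 2 -
      ((v.take (i + 1)).count true : ℝ) ^ 2) + 2 * ∑ i ∈ range v.length,
      (((v.take (i + 1)).count true : ℝ) - (v'.take (i + 1)).count true) *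
      P.eval ((i + 1 : ℕ) : ℝ) := by
      rw [Finset.mul_sum, ← Finset.sum_add_distrib]
      apply Finset.sum_congr rfl
      intro i _
      ring
    rw [e, h1, h2]; ring
  have hint : ∀ (a b : ℕ) (q : ℝ), |(b : ℝ) - q| < 1 / 2 → a ≠ b →
      0 < ((a : ℝ) - b) ^ 2 + 2 * ((a : ℝ) - b) * ((b : ℝ) - q) := by
    intro a b q hq hab
    have h4 : (1 : ℝ) ≤ |(a : ℝ) - b| := by
      have h5 : (a : ℤ) - b ≠ 0 := by
        intro h6; apply hab; omega
      have h6 : (1 : ℤ) ≤ |(a : ℤ) - b| := Int.one_le_abs h5
      have h7 : ((1 : ℤ) : ℝ) ≤ ((|(a : ℤ) - b| : ℤ) : ℝ) := by exact_mod_cast h6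
      simpa using h7
    rw [abs_lt] at hq
    rcases le_abs.mp h4 with h5 | h5
    · nlinarith [hq.1, hq.2]
    · nlinarith [hq.1, hq.2]
  have hlast : ∀ m, m = v.length → (v'.take m).count true = (v.take m).count true := by
    intro m hm
    rw [List.take_of_length_le (by omega), List.take_of_length_le (by omega), hc]
  have hnn : ∀ i ∈ range v.length, 0 ≤ (((v'.take (i + 1)).count true : ℝ) -
      (v.take (i + 1)).count true) ^ 2 + 2 * (((v'.take (i + 1)).count true : ℝ) -
      (v.take (i + 1)).count true) * (((v.take (i + 1)).count true : ℝ) -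
      P.eval ((i + 1 : ℕ) : ℝ)) := by
    intro i hi
    have hi' : i + 1 ≤ v.length := by simpa using hi
    by_cases h4 : (v'.take (i + 1)).count true = (v.take (i + 1)).count true
    · rw [h4]; simp
    · rcases Nat.eq_or_lt_of_le hi' with h5 | h5
      · exact absurd (hlast _ h5) h4
      · exact (hint _ _ _ (hv (i + 1) (by omega) h5) h4).le
  have h4 := (Finset.sum_eq_zero_iff_of_nonneg hnn).mp h3
  apply eq_of_count false hl
  intro c hcf m hm
  have hct : c = true := by simpa using hcf
  subst hct
  rcases m with _ | i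
  · simp
  · by_contra h5
    have h6 := h4 i (by simpa using hm)
    rcases Nat.eq_or_lt_of_le hm with h8 | h8
    · exact h5 (hlast _ h8).symm
    · have h7 := hint ((v'.take (i + 1)).count true) ((v.take (i + 1)).count true)
        (P.eval ((i + 1 : ℕ) : ℝ)) (hv (i + 1) (by omega) h8) (fun e => h5 e.symm)
      linarith

/-- Multiplying both words by the same words. -/
lemma SameP.mul_both {α : Type*} {t : ℕ} {x x' : List α} (h : SameP t x x') (a b : List α) :
    SameP t (a ++ x ++ b) (a ++ x' ++ b) := by
  intro f hf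
  have h1 : IsPol t (fun u => f (a ++ u ++ b)) := by
    have h2 := (hf.transRight b).transLeft a
    exact h2
  exact h _ h1

/-- Iterated central morphisms applied to a digitally polynomial word: all factors are
determined. -/
theorem determined_build {ms : List (List Bool)} (hms : ∀ m ∈ ms, Central m) {v : List Bool}
    {s t : ℕ} (ht1 : 2 * ms.length + 3 ≤ t) (ht2 : ms.length + s + 2 ≤ t)
    (P : Polynomial ℝ) (hP : P.natDegree ≤ s)
    (hv : ∀ m, 0 < m → m < v.length → |((v.take m).count true : ℝ) - P.eval (m : ℝ)| < 1 / 2)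
    {x x' : List Bool} (hx : x <:+: build ms v) (h : SameP t x x') : x = x' := by
  obtain ⟨a, b, hab⟩ := hx
  have h1 := (h.mul_both a b).sameW
  rw [hab] at h1
  obtain ⟨v', h2, h3⟩ := rigid_iter ms hms 0 (t + 1) (by omega) v _ h1
  rw [Nat.zero_add] at h3
  have h4 := eq_of_nearW h3 (by omega) (by omega) P hP hv
  rw [← h4, ← hab] at h2
  have h5 := List.append_cancel_right h2
  exact (List.append_cancel_left h5).symm

end Pool.Agent.Work.MP_02e323_helper2
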