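import Mathlib
import Pool.Agent.Work.MP_02e323_helper2.Main

/-!
# Finite Morse–Hedlund: words with at most `m` factors of length `m`
-/

set_option autoImplicit false

open Finset

namespace Pool.Agent.Work.MP_02e323_helper2

section Abstract

variable {β γ : Type*} [DecidableEq β] [DecidableEq γ]

/-- from a repetition and determinism on `[0, L)` get the conclusion -/
lemma rep_core {a : ℕ → β} {l : ℕ → γ} {N L : ℕ} (hLN : L ≤ N)
    (H1 : ∀ i j, i < N → j < N → a i = a j → l i = l j → a (i + 1) = a (j + 1))
    (hdet : ∀ i j, i < L → j < L → a i = a j → l i = l j)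
    (hrep : ∃ j, j ≤ L ∧ ∃ i, i < j ∧ a i = a j) :
    ∃ i j, i < j ∧ j ≤ L ∧ (∀ s t, s < t → t < j → a s ≠ a t) ∧
      a i = a j ∧ ∀ t, j + t < L → l (i + t) = l (j + t) := by
  classical
  obtain ⟨hjL, i, hij, hai⟩ := Nat.find_spec hrep
  set j := Nat.find hrep with hj
  refine ⟨i, j, hij, hjL, ?_, hai, ?_⟩
  · intro s t hst htj h
    exact Nat.find_min hrep htj ⟨by omega, s, hst, h⟩
  · have key : ∀ t, j + t ≤ L → a (i + t) = a (j + t) := by
      intro t
      induction t with
      | zero => intro _; simpa using hai
      | succ t ih =>
        intro ht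
        have h1 := ih (by omega)
        have h2 := hdet (i + t) (j + t) (by omega) (by omega) h1
        exact H1 (i + t) (j + t) (by omega) (by omega) h1 h2
    intro t ht
    exact hdet _ _ (by omega) (by omega) (key t (by omega))

lemma abs_core {a : ℕ → β} {l : ℕ → γ} {N : ℕ}
    (H1 : ∀ i j, i < N → j < N → a i = a j → l i = l j → a (i + 1) = a (j + 1))
    (hcard : ((range N).image (fun i => (a i, l i))).card ≤ ((range (N + 1)).image a).card) :
    N + 1 ≤ ((range (N + 1)).image a).card ∨
    ∃ i j L, i < j ∧ j ≤ L ∧ L ≤ N ∧ a i = a j ∧
      (∀ t, j + t < L → l (i + t) = l (j + t)) ∧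
      j + (N - L) ≤ ((range (N + 1)).image a).card := by
  classical
  set P := (range N).image (fun i => (a i, l i)) with hP
  set V := (range (N + 1)).image a with hV
  set A := (range N).image a with hA
  by_cases hdet : ∀ i j, i < N → j < N → a i = a j → l i = l j
  · by_cases hrep : ∃ j, j ≤ N ∧ ∃ i, i < j ∧ a i = a j
    · right
      obtain ⟨i, j, h1, h2, h3, h4, h5⟩ := rep_core le_rfl H1 hdet hrep
      refine ⟨i, j, N, h1, h2, le_rfl, h4, h5, ?_⟩
      have h6 : ((range j).image a).card = j := by
        rw [Finset.card_image_of_injOn, Finset.card_range]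
        intro s hs t ht hst
        have hs' : s < j := by simpa using hs
        have ht' : t < j := by simpa using ht
        rcases lt_trichotomy s t with h | h | h
        · exact absurd hst (h3 s t h ht')
        · exact h
        · exact absurd hst.symm (h3 t s h hs')
      have h7 : ((range j).image a).card ≤ V.card := by
        apply Finset.card_le_card
        apply Finset.image_subset_image
        intro x hx
        rw [Finset.mem_range] at hx ⊢
        omega
      omega
    · left
      push Not at hrep
      rw [hV, Finset.card_image_of_injOn, Finset.card_range]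
      intro s hs t ht hst
      have hs' : s < N + 1 := by simpa using hs
      have ht' : t < N + 1 := by simpa using ht
      rcases lt_trichotomy s t with h | h | h
      · exact absurd hst (hrep t (by omega) s h)
      · exact h
      · exact absurd hst.symm (hrep s (by omega) t h)
  · push Not at hdet
    obtain ⟨i0, j0, hi0, hj0, haij, hlij⟩ := hdet
    right
    set r := a i0 with hr
    -- general claim
    have hfst : ∀ E : Finset (β × γ), E ⊆ P → (∀ x ∈ A, ∃ y ∈ P \ E, y.1 = x) →
        A.card + E.card ≤ P.card := by
      intro E hE hx
      have h1 : A ⊆ (P \ E).image Prod.fst := by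
        intro x hxA
        obtain ⟨y, hy, h⟩ := hx x hxA
        exact Finset.mem_image.mpr ⟨y, hy, h⟩
      have h2 := (Finset.card_le_card h1).trans Finset.card_image_le
      rw [Finset.card_sdiff_of_subset hE] at h2
      have h3 := Finset.card_le_card hE
      omega
    have hVA : V ⊆ insert (a N) A := by
      intro x hx
      obtain ⟨i, hi, rfl⟩ := Finset.mem_image.mp hx
      rw [Finset.mem_range] at hi
      by_cases h : i = N
      · subst h; exact Finset.mem_insert_self _ _
      · exact Finset.mem_insert_of_mem (Finset.mem_image_of_mem _ (Finset.mem_range.mpr (by omega)))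
    have hPmem : ∀ i, i < N → (a i, l i) ∈ P := fun i hi =>
      Finset.mem_image.mpr ⟨i, Finset.mem_range.mpr hi, rfl⟩
    have hAmem : ∀ x ∈ A, ∃ i, i < N ∧ a i = x := by
      intro x hx
      obtain ⟨i, hi, h⟩ := Finset.mem_image.mp hx
      exact ⟨i, Finset.mem_range.mp hi, h⟩
    have hone : A.card + 1 ≤ P.card := by
      have := hfst {(r, l i0)} (by
        rw [Finset.singleton_subset_iff]; exact hPmem i0 hi0) ?_
      · simpa using this
      · intro x hx
        obtain ⟨i, hi, rfl⟩ := hAmem x hx
        by_cases h : a i = r
        · refine ⟨(a j0, l j0), ?_, by rw [← haij, h]⟩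
          rw [Finset.mem_sdiff]
          refine ⟨hPmem j0 hj0, ?_⟩
          rw [Finset.mem_singleton, Prod.mk.injEq]
          exact fun h' => hlij h'.2.symm
        · refine ⟨(a i, l i), ?_, rfl⟩
          rw [Finset.mem_sdiff]
          refine ⟨hPmem i hi, ?_⟩
          rw [Finset.mem_singleton, Prod.mk.injEq]
          exact fun h' => h h'.1
    have hVle : V.card ≤ A.card + 1 := (Finset.card_le_card hVA).trans (Finset.card_insert_le _ _)
    have haN : a N ∉ A := by
      intro h
      rw [Finset.insert_eq_of_mem h] at hVA
      have := Finset.card_le_card hVA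
      omega
    have haN' : ∀ i, i < N → a i ≠ a N := by
      intro i hi h
      apply haN
      rw [← h]
      exact Finset.mem_image_of_mem _ (Finset.mem_range.mpr hi)
    have hE2 : ∀ E : Finset (β × γ), E ⊆ P → (∀ x ∈ A, ∃ y ∈ P \ E, y.1 = x) → E.card ≤ 1 := by
      intro E h1 h2
      have := hfst E h1 h2
      omega
    -- C1
    have C1 : ∀ i j, i < N → j < N → a i = a j → l i ≠ l j → a i = r := by
      intro i j hi hj h1 h2
      by_contra h3
      have h4 := hE2 {(a i, l i), (r, l i0)} ?_ ?_
      · rw [Finset.card_pair] at h4
        · omega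
        · rw [Ne, Prod.mk.injEq]; exact fun h => h3 h.1
      · intro x hx
        rw [Finset.mem_insert, Finset.mem_singleton] at hx
        rcases hx with rfl | rfl
        · exact hPmem i hi
        · exact hPmem i0 hi0
      · intro x hx
        obtain ⟨k, hk, rfl⟩ := hAmem x hx
        by_cases h5 : a k = a i
        · refine ⟨(a j, l j), ?_, by rw [← h1, h5]⟩
          rw [Finset.mem_sdiff]
          refine ⟨hPmem j hj, ?_⟩
          rw [Finset.mem_insert, Finset.mem_singleton, Prod.mk.injEq, Prod.mk.injEq]
          rintro (h | h)
          · exact h2 h.2.symm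
          · exact h3 (h1.trans h.1)
        · by_cases h6 : a k = r
          · refine ⟨(a j0, l j0), ?_, by rw [← haij, h6]⟩
            rw [Finset.mem_sdiff]
            refine ⟨hPmem j0 hj0, ?_⟩
            rw [Finset.mem_insert, Finset.mem_singleton, Prod.mk.injEq, Prod.mk.injEq]
            rintro (h | h)
            · exact h3 (by rw [← h.1, ← haij])
            · exact hlij h.2.symm
          · refine ⟨(a k, l k), ?_, rfl⟩
            rw [Finset.mem_sdiff]
            refine ⟨hPmem k hk, ?_⟩
            rw [Finset.mem_insert, Finset.mem_singleton, Prod.mk.injEq, Prod.mk.injEq]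
            rintro (h | h)
            · exact h5 h.1
            · exact h6 h.1
    -- the last occurrence of r
    obtain ⟨L, hLN, hLr, hLmax⟩ : ∃ L, L < N ∧ a L = r ∧ ∀ i, L < i → i < N → a i ≠ r := by
      set S := (range N).filter (fun i => a i = r) with hS
      have hm : ∀ i, i ∈ S ↔ i < N ∧ a i = r := by
        intro i
        rw [hS, Finset.mem_filter, Finset.mem_range]
      have hne : S.Nonempty := ⟨i0, (hm i0).mpr ⟨hi0, rfl⟩⟩
      refine ⟨S.max' hne, ?_, ?_, ?_⟩
      · exact ((hm _).mp (S.max'_mem hne)).1
      · exact ((hm _).mp (S.max'_mem hne)).2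
      · intro i hi hiN h
        have := S.le_max' i ((hm i).mpr ⟨hiN, h⟩)
        omega
    -- C0
    have C0 : ∀ s t, s < t → t ≤ N → L < t → a s = a t → False := by
      intro s t hst htN hLt h
      have key : ∀ u, t + u ≤ N → a (s + u) = a (t + u) := by
        intro u
        induction u with
        | zero => intro _; simpa using h
        | succ u ih =>
          intro hu
          have h1 := ih (by omega)
          have h2 : l (s + u) = l (t + u) := by
            by_contra h3
            have h4 := C1 (s + u) (t + u) (by omega) (by omega) h1 h3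
            exact hLmax (t + u) (by omega) (by omega) (by rw [← h1, h4])
          exact H1 (s + u) (t + u) (by omega) (by omega) h1 h2
      have h1 := key (N - t) (by omega)
      rw [show t + (N - t) = N by omega] at h1
      exact haN' (s + (N - t)) (by omega) h1
    have C2 : ∀ i, i < L → a i = r → l i ≠ l L := by
      intro i hi h1 h2
      have h3 := H1 i L (by omega) hLN (by rw [h1, hLr]) h2
      exact C0 (i + 1) (L + 1) (by omega) (by omega) (by omega) h3
    have C3 : ∀ i j, i < L → j < L → a i = r → a j = r → l i = l j := by
      intro i j hi hj h1 h2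
      by_contra h3
      have h4 := hE2 {(a i, l i), (a j, l j)} ?_ ?_
      · rw [Finset.card_pair] at h4
        · omega
        · rw [Ne, Prod.mk.injEq]; exact fun h => h3 h.2
      · intro x hx
        rw [Finset.mem_insert, Finset.mem_singleton] at hx
        rcases hx with rfl | rfl
        · exact hPmem i (by omega)
        · exact hPmem j (by omega)
      · intro x hx
        obtain ⟨k, hk, rfl⟩ := hAmem x hx
        by_cases h6 : a k = r
        · refine ⟨(a L, l L), ?_, by rw [hLr, h6]⟩
          rw [Finset.mem_sdiff]
          refine ⟨hPmem L hLN, ?_⟩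
          rw [Finset.mem_insert, Finset.mem_singleton, Prod.mk.injEq, Prod.mk.injEq]
          rintro (h | h)
          · exact C2 i hi h1 h.2.symm
          · exact C2 j hj h2 h.2.symm
        · refine ⟨(a k, l k), ?_, rfl⟩
          rw [Finset.mem_sdiff]
          refine ⟨hPmem k hk, ?_⟩
          rw [Finset.mem_insert, Finset.mem_singleton, Prod.mk.injEq, Prod.mk.injEq]
          rintro (h | h)
          · exact h6 (h.1.trans h1)
          · exact h6 (h.1.trans h2)
    have hdetL : ∀ i j, i < L → j < L → a i = a j → l i = l j := by
      intro i j hi hj h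
      by_contra h1
      have h2 := C1 i j (by omega) (by omega) h h1
      exact h1 (C3 i j hi hj h2 (by rw [← h, h2]))
    have hrep : ∃ j, j ≤ L ∧ ∃ i, i < j ∧ a i = a j := by
      refine ⟨L, le_rfl, ?_⟩
      have hi0L : i0 ≤ L := by
        by_contra h; push Not at h
        exact hLmax i0 h hi0 rfl
      have hj0L : j0 ≤ L := by
        by_contra h; push Not at h
        exact hLmax j0 h hj0 haij.symm
      have hne : i0 ≠ j0 := by
        rintro rfl; exact hlij rfl
      rcases Nat.lt_or_ge i0 L with h | h
      · exact ⟨i0, h, by rw [hLr]⟩
      · exact ⟨j0, by omega, by rw [hLr, ← haij]⟩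
    obtain ⟨i, j, h1, h2, h3, h4, h5⟩ := rep_core hLN.le H1 hdetL hrep
    refine ⟨i, j, L, h1, h2, hLN.le, h4, h5, ?_⟩
    have h6 : ((range j ∪ Finset.Ioc L N).image a).card = j + (N - L) := by
      rw [Finset.card_image_of_injOn, Finset.card_union_of_disjoint, Finset.card_range,
        Nat.card_Ioc]
      · rw [Finset.disjoint_left]
        intro x hx hx'
        rw [Finset.mem_range] at hx
        rw [Finset.mem_Ioc] at hx'
        omega
      · have hinj : ∀ s t, s < t → (t < j ∨ (L < t ∧ t ≤ N)) → a s ≠ a t := by
          intro s t hst ht h
          rcases ht with ht | ht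
          · exact h3 s t hst ht h
          · exact C0 s t hst ht.2 ht.1 h
        intro s hs t ht hst
        have hs' : s < j ∨ (L < s ∧ s ≤ N) := by simpa using hs
        have ht' : t < j ∨ (L < t ∧ t ≤ N) := by simpa using ht
        rcases lt_trichotomy s t with h | h | h
        · exact absurd hst (hinj s t h ht')
        · exact h
        · exact absurd hst.symm (hinj t s h hs')
    rw [← h6]
    apply Finset.card_le_card
    apply Finset.image_subset_image
    intro x hx
    rw [Finset.mem_union, Finset.mem_range, Finset.mem_Ioc] at hx
    rw [Finset.mem_range]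
    omega

end Abstract

variable {α : Type*}

/-- the factor of length `k` starting at `i` -/
def F (w : List α) (k i : ℕ) : List α := (w.drop i).take k

lemma F_succ (w : List α) (k i : ℕ) : F w (k + 1) i = F w k i ++ (w[i + k]?).toList := by
  unfold F
  rw [List.take_succ, List.getElem?_drop]

lemma F_next (w : List α) (k i : ℕ) : F w k (i + 1) = (F w (k + 1) i).drop 1 := by
  unfold F
  rw [List.drop_take, List.drop_drop]
  simp

lemma F_take (w : List α) (k i : ℕ) : (F w (k + 1) i).take k = F w k i := by
  unfold F
  rw [List.take_take]
  congr 1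
  omega

open Classical in
/-- number of factors of length `k` -/
noncomputable def cpx (w : List α) (k : ℕ) : ℕ := ((range (w.length + 1 - k)).image (F w k)).card

lemma cpx_zero (w : List α) : cpx w 0 = 1 := by
  classical
  unfold cpx
  have : (range (w.length + 1 - 0)).image (F w 0) = {[]} := by
    ext x
    rw [Finset.mem_image, Finset.mem_singleton]
    constructor
    · rintro ⟨i, _, rfl⟩; simp [F]
    · rintro rfl; exact ⟨0, by rw [Finset.mem_range]; omega, by simp [F]⟩
  rw [this, Finset.card_singleton]

lemma cpx_le_succ (w : List α) {k : ℕ} (hk : k < w.length) : cpx w k ≤ cpx w (k + 1) + 1 := by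
  classical
  unfold cpx
  have h1 : (range (w.length + 1 - k)).image (F w k) ⊆
      insert (F w k (w.length - k))
        (((range (w.length + 1 - (k + 1))).image (F w (k + 1))).image (List.take k)) := by
    intro x hx
    obtain ⟨i, hi, rfl⟩ := Finset.mem_image.mp hx
    rw [Finset.mem_range] at hi
    by_cases h : i = w.length - k
    · rw [h]; exact Finset.mem_insert_self _ _
    · apply Finset.mem_insert_of_mem
      refine Finset.mem_image.mpr ⟨F w (k + 1) i, Finset.mem_image_of_mem _ ?_, F_take w k i⟩
      rw [Finset.mem_range]; omega
  refine (Finset.card_le_card h1).trans ((Finset.card_insert_le _ _).trans ?_)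
  exact Nat.add_le_add_right Finset.card_image_le 1

lemma cpx_le_add (w : List α) (k j : ℕ) (h : k + j ≤ w.length) : cpx w k ≤ cpx w (k + j) + j := by
  induction j with
  | zero => exact le_rfl
  | succ j ih =>
    have h1 := ih (by omega)
    have h2 := cpx_le_succ w (k := k + j) (by omega)
    have h3 : k + (j + 1) = k + j + 1 := by ring
    rw [h3]
    omega

lemma pieces_self (w : List α) : Pieces w.length w := by
  induction w with
  | nil => exact Pieces.nil
  | cons a w ih =>
    have h : HasPeriod 1 [a] := by intro i hi; simp at hi
    have := Pieces.cons (by norm_num) h ih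
    have e : 3 * 1 - 2 + w.length = (a :: w).length := by simp [add_comm]
    rw [e] at this
    exact this

lemma Pieces.append {C C' : ℕ} {w w' : List α} (h : Pieces C w) (h' : Pieces C' w') :
    Pieces (C + C') (w ++ w') := by
  induction h with
  | nil => simpa using h'
  | @cons p C W w hp hW hw ih =>
    rw [add_assoc, List.append_assoc]
    exact Pieces.cons hp hW ih

lemma pieces_of_cpx {w : List α} {m : ℕ} (hm : 1 ≤ m) (hmn : m ≤ w.length) (h : cpx w m ≤ m) :
    ∃ C, C ≤ 6 * m - 2 ∧ Pieces C w := by
  classical
  set n := w.length with hn
  obtain ⟨k, hkm, hk⟩ : ∃ k, k < m ∧ cpx w (k + 1) ≤ cpx w k := by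
    by_contra hcon
    push Not at hcon
    have : ∀ k, k ≤ m → k + 1 ≤ cpx w k := by
      intro k
      induction k with
      | zero => intro _; rw [cpx_zero]
      | succ k ih => intro hk; have := ih (by omega); have := hcon k (by omega); omega
    have := this m le_rfl
    omega
  have hck : cpx w k ≤ 2 * m - k := by
    have := cpx_le_add w k (m - k) (by omega)
    rw [show k + (m - k) = m by omega] at this
    omega
  -- apply the abstract lemma
  have H1 : ∀ i j, i < n - k → j < n - k → F w k i = F w k j → w[i + k]? = w[j + k]? →
      F w k (i + 1) = F w k (j + 1) := by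
    intro i j _ _ h1 h2
    rw [F_next, F_next, F_succ, F_succ, h1, h2]
  have hcard : ((range (n - k)).image (fun i => (F w k i, w[i + k]?))).card ≤
      ((range (n - k + 1)).image (F w k)).card := by
    have h1 : ((range (n - k)).image (fun i => (F w k i, w[i + k]?))).card ≤ cpx w (k + 1) := by
      unfold cpx
      rw [show w.length + 1 - (k + 1) = n - k by omega]
      have h2 : (range (n - k)).image (fun i => (F w k i, w[i + k]?)) ⊆
          ((range (n - k)).image (F w (k + 1))).image (fun u => (u.take k, u[k]?)) := by
        intro x hx
        obtain ⟨i, hi, rfl⟩ := Finset.mem_image.mp hx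
        refine Finset.mem_image.mpr ⟨F w (k + 1) i, Finset.mem_image_of_mem _ hi, ?_⟩
        rw [F_take]
        congr 1
        unfold F
        rw [List.getElem?_take, if_pos (by omega), List.getElem?_drop]
      exact (Finset.card_le_card h2).trans Finset.card_image_le
    have h3 : cpx w k = ((range (n - k + 1)).image (F w k)).card := by
      unfold cpx
      rw [show w.length + 1 - k = n - k + 1 by omega]
    rw [← h3]
    exact h1.trans hk
  have h3 : cpx w k = ((range (n - k + 1)).image (F w k)).card := by
    unfold cpx
    rw [show w.length + 1 - k = n - k + 1 by omega]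
  rcases abs_core H1 hcard with h | ⟨i, j, L, hij, hjL, hLN, ha, hl, hb⟩
  · rw [← h3] at h
    exact ⟨w.length, by omega, pieces_self w⟩
  · rw [← h3] at hb
    have hper : HasPeriod (j - i) ((w.take (L + k)).drop i) := by
      intro s hs
      rw [List.length_drop, List.length_take] at hs
      have hs1 : s + (j - i) + i < L + k := by omega
      rw [List.getElem?_drop, List.getElem?_drop, List.getElem?_take, List.getElem?_take,
        if_pos (by omega), if_pos (by omega)]
      rw [show i + (s + (j - i)) = j + s by omega]
      by_cases hsk : s < k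
      · have h4 := congrArg (fun u => u[s]?) ha
        simp only [F] at h4
        rw [List.getElem?_take, List.getElem?_take, if_pos hsk, if_pos hsk, List.getElem?_drop,
          List.getElem?_drop] at h4
        exact h4
      · have h4 := hl (s - k) (by omega)
        rw [show i + (s - k) + k = i + s by omega, show j + (s - k) + k = j + s by omega] at h4
        exact h4
    have hmid := Pieces.cons (show 0 < j - i by omega) hper (Pieces.nil (α := α))
    rw [List.append_nil] at hmid
    have hx := pieces_self (w.take i)
    have hy := pieces_self (w.drop (L + k))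
    have hall := (hx.append hmid).append hy
    have e : w.take i ++ (w.take (L + k)).drop i ++ w.drop (L + k) = w := by
      have e1 : w.take i = (w.take (L + k)).take i := by
        rw [List.take_take]
        congr 1
        omega
      rw [e1, List.take_append_drop, List.take_append_drop]
    rw [e] at hall
    refine ⟨_, ?_, hall⟩
    rw [List.length_take, List.length_drop]
    omega

lemma cpx_le_ncard {w : List α} {m : ℕ} (hmn : m ≤ w.length) :
    cpx w m ≤ {u : List α | u.length = m ∧ u <:+: w}.ncard := by
  classical
  unfold cpx
  rw [← Set.ncard_coe_finset]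
  apply Set.ncard_le_ncard
  · intro x hx
    rw [Finset.coe_image] at hx
    obtain ⟨i, hi, rfl⟩ := hx
    have hi' : i < w.length + 1 - m := by simpa using hi
    refine ⟨?_, ?_⟩
    · unfold F
      rw [List.length_take, List.length_drop]
      omega
    · unfold F
      exact (List.take_prefix _ _).isInfix.trans (List.drop_suffix _ _).isInfix
  · apply (List.finite_toSet w.sublists).subset
    rintro u ⟨_, hu⟩
    exact List.mem_sublists.mpr hu.sublist

theorem determined_of_cpx {w w' : List α} {m t : ℕ} (hm : 1 ≤ m)
    (h : {u : List α | u.length = m ∧ u <:+: w}.ncard ≤ m) (ht : 12 * m - 4 ≤ t)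
    (hs : SameP t w w') : w = w' := by
  by_cases hmn : m ≤ w.length
  · obtain ⟨C, hC, hp⟩ := pieces_of_cpx hm hmn ((cpx_le_ncard hmn).trans h)
    exact hp.determined (by omega) (by omega) hs
  · exact (pieces_self w).determined (by omega) (by omega) hs

end Pool.Agent.Work.MP_02e323_helper2
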