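import Mathlib
import Pool.Agent.Work.MP_02e323_helper2.Dig

/-!
# Words whose letter order is the sign of a polynomial

`Before w a i b j`: the letter `a` with index `i` (counted from `0`) comes before the letter `b`
with index `j`.  If for all pairs `a ≠ b` the truth value of `Before w a i b j` is the sign of a
polynomial `G(i, j)` of total degree `≤ d`, then `w` is determined by its full `(d+2)`-spectrum.
-/

set_option autoImplicit false

open Finset

namespace Pool.Agent.Work.MP_02e323_helper2

variable {α : Type*}

lemma IsPol.reverse {D : ℕ} {f : List α → ℚ} (hf : IsPol D f) :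
    IsPol D (fun w => f w.reverse) := by
  induction D generalizing f with
  | zero =>
    intro w
    show f w.reverse = f ([] : List α).reverse
    rw [hf w.reverse]; rfl
  | succ D ih =>
    intro c
    have h1 : IsPol D (fun u => f (u ++ [c]) - f u) := hf.diffRight [c]
    have h2 := ih h1
    have e : (fun w : List α => f (c :: w).reverse - f w.reverse) =
        (fun w => f (w.reverse ++ [c]) - f w.reverse) := by
      funext w; rw [List.reverse_cons]
    rw [e]; exact h2

/-- Some prefix of `w` contains at least `i + 1` letters `a` and at most `j` letters `b`: for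
`i < |w|_a`, `j < |w|_b` the letter `a` with index `i` comes before the letter `b` with index `j`
(indices start at `0`). -/
def Before [DecidableEq α] (w : List α) (a : α) (i : ℕ) (b : α) (j : ℕ) : Prop :=
  ∃ m, i < (w.take m).count a ∧ (w.take m).count b ≤ j

lemma before_append [DecidableEq α] {w : List α} {a b : α} {i j : ℕ} (c : α)
    (hj : j < w.count b) : Before (w ++ [c]) a i b j ↔ Before w a i b j := by
  constructor
  · rintro ⟨m, h1, h2⟩
    rcases Nat.lt_or_ge w.length m with hm | hm
    · rw [List.take_of_length_le (by simp; omega), List.count_append] at h2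
      omega
    · rw [List.take_append_of_le_length hm] at h1 h2
      exact ⟨m, h1, h2⟩
  · rintro ⟨m, h1, h2⟩
    refine ⟨min m w.length, ?_, ?_⟩
    · rw [List.take_append_of_le_length (min_le_right _ _), ← List.take_eq_take_min]
      exact h1
    · rw [List.take_append_of_le_length (min_le_right _ _), ← List.take_eq_take_min]
      exact h2

lemma before_last [DecidableEq α] {w : List α} {a b : α} (hab : a ≠ b) {i : ℕ}
    (hi : i < w.count a) : Before (w ++ [b]) a i b (w.count b) := by
  refine ⟨w.length, ?_, ?_⟩
  · rw [List.take_append_of_le_length le_rfl, List.take_length]; exact hi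
  · rw [List.take_append_of_le_length le_rfl, List.take_length]

lemma not_before_last [DecidableEq α] {w : List α} {a b : α} {j : ℕ}
    (hj : j < w.count b) : ¬ Before (w ++ [a]) a (w.count a) b j := by
  rw [before_append a hj]
  rintro ⟨m, h1, _⟩
  have h2 : (w.take m).count a ≤ w.count a := (List.take_sublist m w).count_le a
  omega

open Classical in
/-- Sum of `g i j` over the pairs with `a` before `b`. -/
noncomputable def BS [DecidableEq α] (a b : α) (g : ℕ → ℕ → ℚ) (w : List α) : ℚ :=
  ∑ i ∈ range (w.count a), ∑ j ∈ range (w.count b), if Before w a i b j then g i j else 0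

lemma BS_append_b [DecidableEq α] {a b : α} (hab : a ≠ b) (g : ℕ → ℕ → ℚ) (w : List α) :
    BS a b g (w ++ [b]) = BS a b g w + ∑ i ∈ range (w.count a), g i (w.count b) := by
  have h1 : (w ++ [b]).count a = w.count a := by
    rw [List.count_append]; simp [Ne.symm hab]
  have h2 : (w ++ [b]).count b = w.count b + 1 := by
    rw [List.count_append]; simp
  unfold BS
  rw [h1, h2, ← Finset.sum_add_distrib]
  apply Finset.sum_congr rfl
  intro i hi
  rw [Finset.sum_range_succ, if_pos (before_last hab (by simpa using hi))]
  congr 1
  apply Finset.sum_congr rfl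
  intro j hj
  rw [before_append b (by simpa using hj)]

lemma BS_append_a [DecidableEq α] {a b : α} (hab : a ≠ b) (g : ℕ → ℕ → ℚ) (w : List α) :
    BS a b g (w ++ [a]) = BS a b g w := by
  have h1 : (w ++ [a]).count a = w.count a + 1 := by
    rw [List.count_append]; simp
  have h2 : (w ++ [a]).count b = w.count b := by
    rw [List.count_append]; simp [hab]
  unfold BS
  rw [h1, h2, Finset.sum_range_succ]
  have h3 : ∑ j ∈ range (w.count b),
      (open Classical in if Before (w ++ [a]) a (w.count a) b j then g (w.count a) j else 0) = 0 := by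
    apply Finset.sum_eq_zero
    intro j hj
    rw [if_neg (not_before_last (by simpa using hj))]
  rw [h3, add_zero]
  apply Finset.sum_congr rfl
  intro i hi
  apply Finset.sum_congr rfl
  intro j hj
  rw [before_append a (by simpa using hj)]

lemma BS_append_c [DecidableEq α] {a b c : α} (hca : c ≠ a) (hcb : c ≠ b) (g : ℕ → ℕ → ℚ)
    (w : List α) : BS a b g (w ++ [c]) = BS a b g w := by
  have h1 : (w ++ [c]).count a = w.count a := by
    rw [List.count_append]; simp [hca]
  have h2 : (w ++ [c]).count b = w.count b := by
    rw [List.count_append]; simp [hcb]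
  unfold BS
  rw [h1, h2]
  apply Finset.sum_congr rfl
  intro i hi
  apply Finset.sum_congr rfl
  intro j hj
  rw [before_append c (by simpa using hj)]

/-- Primitive in the number of letters `a`. -/
lemma isPol_prim [DecidableEq α] (a : α) (k : ℕ) :
    IsPol (k + 1) (fun x : List α => ∑ i ∈ range (x.count a), ((i : ℚ)) ^ k) := by
  intro c
  by_cases hc : c = a
  · subst hc
    have e : (fun x : List α => ∑ i ∈ range ((c :: x).count c), ((i : ℚ)) ^ k -
        ∑ i ∈ range (x.count c), ((i : ℚ)) ^ k) = fun x => (x.count c : ℚ) ^ k := by
      funext x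
      rw [List.count_cons_self, Finset.sum_range_succ]; ring
    rw [e]; exact (isPol_count c).pow_one k
  · have e : (fun x : List α => ∑ i ∈ range ((c :: x).count a), ((i : ℚ)) ^ k -
        ∑ i ∈ range (x.count a), ((i : ℚ)) ^ k) = fun _ => 0 := by
      funext x
      rw [List.count_cons_of_ne hc]; ring
    rw [e]; exact IsPol.const k 0

lemma isPol_BS [DecidableEq α] {a b : α} (hab : a ≠ b) (k l : ℕ) :
    IsPol (k + l + 2) (BS a b (fun i j => (i : ℚ) ^ k * (j : ℚ) ^ l)) := by
  have h1 : IsPol ((k + 1) + l) (fun x : List α => (∑ i ∈ range (x.count a), ((i : ℚ)) ^ k) *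
      (x.count b : ℚ) ^ l) := (isPol_prim a k).mul ((isPol_count b).pow_one l)
  have h2 := (isPol_J h1.reverse b).reverse
  have e : (fun w : List α => J b (fun x : List α =>
      (∑ i ∈ range (x.reverse.count a), ((i : ℚ)) ^ k) * (x.reverse.count b : ℚ) ^ l) w.reverse) =
      BS a b (fun i j => (i : ℚ) ^ k * (j : ℚ) ^ l) := by
    funext w
    induction w using List.reverseRecOn with
    | nil => simp [BS, J_nil]
    | append_singleton w c ih =>
      rw [List.reverse_append, List.reverse_singleton, List.singleton_append, J_cons, ih]
      by_cases hcb : c = b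
      · subst hcb
        rw [BS_append_b hab, if_pos rfl, List.reverse_reverse, Finset.sum_mul]
      · rw [if_neg hcb, add_zero]
        by_cases hca : c = a
        · subst hca
          rw [BS_append_a hab]
        · rw [BS_append_c hca hcb]
  rw [e] at h2
  exact h2.mono (by omega)

open Classical in
/-- The order relations of two words with the same spectrum have the same moments. -/
lemma order_moment [DecidableEq α] {d t : ℕ} {w w' : List α} (h : SameP t w w')
    (hd : d + 2 ≤ t) {a b : α} (hab : a ≠ b) (G : MvPolynomial (Fin 2) ℝ)
    (hG : G.totalDegree ≤ d) :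
    ∑ i ∈ range (w.count a), ∑ j ∈ range (w.count b),
      ((if Before w a i b j then (1 : ℝ) else 0) - (if Before w' a i b j then (1 : ℝ) else 0)) *
        MvPolynomial.eval ![(i : ℝ), (j : ℝ)] G = 0 := by
  have hca : w.count a = w'.count a := by
    have := h _ ((isPol_count a).mono (by omega)); exact_mod_cast this
  have hcb : w.count b = w'.count b := by
    have := h _ ((isPol_count b).mono (by omega)); exact_mod_cast this
  have key : ∀ k l : ℕ, k + l ≤ d → ∑ i ∈ range (w.count a), ∑ j ∈ range (w.count b),
      ((if Before w a i b j then (1 : ℝ) else 0) - (if Before w' a i b j then (1 : ℝ) else 0)) *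
        ((i : ℝ) ^ k * (j : ℝ) ^ l) = 0 := by
    intro k l hkl
    have h1 := h _ ((isPol_BS hab k l).mono (show k + l + 2 ≤ t by omega))
    have h2 : ((BS a b (fun i j => (i : ℚ) ^ k * (j : ℚ) ^ l) w : ℚ) : ℝ) =
        ((BS a b (fun i j => (i : ℚ) ^ k * (j : ℚ) ^ l) w' : ℚ) : ℝ) := by rw [h1]
    unfold BS at h2
    rw [← hca, ← hcb, ← sub_eq_zero] at h2
    push_cast at h2
    rw [← Finset.sum_sub_distrib] at h2
    refine Eq.trans ?_ h2
    apply Finset.sum_congr rfl
    intro i _
    rw [← Finset.sum_sub_distrib]
    apply Finset.sum_congr rfl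
    intro j _
    by_cases hB : Before w a i b j <;> by_cases hB' : Before w' a i b j <;> simp [hB, hB']
  have hev : ∀ i j : ℕ, MvPolynomial.eval ![(i : ℝ), (j : ℝ)] G =
      ∑ m ∈ G.support, G.coeff m * ((i : ℝ) ^ (m 0) * (j : ℝ) ^ (m 1)) := by
    intro i j
    rw [MvPolynomial.eval_eq']
    apply Finset.sum_congr rfl
    intro m _
    rw [Fin.prod_univ_two]
    simp
  simp only [hev, Finset.mul_sum]
  have hsw : ∑ i ∈ range (w.count a), ∑ j ∈ range (w.count b), ∑ m ∈ G.support,
      ((if Before w a i b j then (1 : ℝ) else 0) - (if Before w' a i b j then (1 : ℝ) else 0)) *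
        (G.coeff m * ((i : ℝ) ^ (m 0) * (j : ℝ) ^ (m 1))) =
      ∑ m ∈ G.support, G.coeff m * ∑ i ∈ range (w.count a), ∑ j ∈ range (w.count b),
      ((if Before w a i b j then (1 : ℝ) else 0) - (if Before w' a i b j then (1 : ℝ) else 0)) *
        ((i : ℝ) ^ (m 0) * (j : ℝ) ^ (m 1)) := by
    have e1 : ∀ i ∈ range (w.count a), ∑ j ∈ range (w.count b), ∑ m ∈ G.support,
        ((if Before w a i b j then (1 : ℝ) else 0) - (if Before w' a i b j then (1 : ℝ) else 0)) *
        (G.coeff m * ((i : ℝ) ^ (m 0) * (j : ℝ) ^ (m 1))) =
        ∑ m ∈ G.support, ∑ j ∈ range (w.count b),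
        ((if Before w a i b j then (1 : ℝ) else 0) - (if Before w' a i b j then (1 : ℝ) else 0)) *
        (G.coeff m * ((i : ℝ) ^ (m 0) * (j : ℝ) ^ (m 1))) := fun i _ => Finset.sum_comm
    rw [Finset.sum_congr rfl e1, Finset.sum_comm]
    apply Finset.sum_congr rfl
    intro m _
    rw [Finset.mul_sum]
    apply Finset.sum_congr rfl
    intro i _
    rw [Finset.mul_sum]
    apply Finset.sum_congr rfl
    intro j _
    ring
  rw [hsw]
  apply Finset.sum_eq_zero
  intro m hm
  have h3 : m 0 + m 1 ≤ d := by
    have h4 := MvPolynomial.le_totalDegree hm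
    have h5 : (m.sum fun _ e => e) = m 0 + m 1 := by
      rw [Finsupp.sum_fintype _ _ (by simp), Fin.sum_univ_two]
    omega
  rw [key _ _ h3, mul_zero]

/-- Words are determined by letter counts and the order relations. -/
lemma eq_of_before [DecidableEq α] {w w' : List α} (hl : w.length = w'.length)
    (hc : ∀ a, w.count a = w'.count a)
    (h : ∀ a b, a ≠ b → ∀ i < w.count a, ∀ j < w.count b,
      (Before w a i b j ↔ Before w' a i b j)) : w = w' := by
  induction w using List.reverseRecOn generalizing w' with
  | nil =>
    have : w'.length = 0 := by rw [← hl]; rfl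
    exact (List.eq_nil_of_length_eq_zero this).symm
  | append_singleton w x ih =>
    rcases List.eq_nil_or_concat w' with h0 | ⟨w₁', y, h0⟩
    · subst h0; simp at hl
    rw [List.concat_eq_append] at h0
    subst h0
    have hl' : w.length = w₁'.length := by simpa using hl
    by_cases hxy : x = y
    · subst hxy
      have hc' : ∀ a, w.count a = w₁'.count a := by
        intro a
        have := hc a
        rw [List.count_append, List.count_append] at this
        omega
      rw [ih hl' hc' ?_]
      intro a b hab i hi j hj
      have h1 := h a b hab i (by rw [List.count_append]; omega) j (by rw [List.count_append]; omega)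
      rw [before_append x hj, before_append x (by rw [← hc' b]; exact hj)] at h1
      exact h1
    · exfalso
      have hyx : ¬ y = x := fun e => hxy e.symm
      have hx := hc x
      have hy := hc y
      simp only [List.count_append, List.count_singleton_self] at hx hy
      have e1 : List.count y [x] = 0 := by simp [hxy]
      have e2 : List.count x [y] = 0 := by simp [hyx]
      rw [e2] at hx
      rw [e1] at hy
      have hb : Before (w₁' ++ [y]) x (w.count x) y (w₁'.count y) :=
        before_last hxy (by omega)
      have hnb : ¬ Before (w ++ [x]) x (w.count x) y (w₁'.count y) :=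
        not_before_last (by omega)
      apply hnb
      rw [h x y hxy (w.count x) (by simp) (w₁'.count y)
        (by simp only [List.count_append]; omega)]
      exact hb

/-- Main theorem, for `SameP`. -/
theorem eq_of_order [DecidableEq α] {d t : ℕ} {w w' : List α} (h : SameP t w w')
    (hd : d + 2 ≤ t)
    (hG : ∀ a b, a ≠ b → ∃ G : MvPolynomial (Fin 2) ℝ, G.totalDegree ≤ d ∧
      ∀ i < w.count a, ∀ j < w.count b,
        (Before w a i b j → 0 < MvPolynomial.eval ![(i : ℝ), (j : ℝ)] G) ∧
        (¬ Before w a i b j → MvPolynomial.eval ![(i : ℝ), (j : ℝ)] G < 0)) : w = w' := by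
  classical
  have hc : ∀ a, w.count a = w'.count a := by
    intro a
    have := h _ ((isPol_count a).mono (by omega)); exact_mod_cast this
  refine eq_of_before (h.length_eq (by omega)) hc ?_
  intro a b hab
  obtain ⟨G, hdeg, hs⟩ := hG a b hab
  have h1 := order_moment h hd hab G hdeg
  -- all terms are nonnegative
  have hnn : ∀ i ∈ range (w.count a), ∀ j ∈ range (w.count b),
      0 ≤ ((if Before w a i b j then (1 : ℝ) else 0) -
        (if Before w' a i b j then (1 : ℝ) else 0)) *
        MvPolynomial.eval ![(i : ℝ), (j : ℝ)] G := by
    intro i hi j hj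
    have hs' := hs i (by simpa using hi) j (by simpa using hj)
    by_cases hB : Before w a i b j
    · by_cases hB' : Before w' a i b j
      · simp [hB, hB']
      · rw [if_pos hB, if_neg hB', sub_zero, one_mul]
        exact (hs'.1 hB).le
    · by_cases hB' : Before w' a i b j
      · rw [if_neg hB, if_pos hB']
        have := hs'.2 hB
        linarith
      · simp [hB, hB']
  have h2 := (Finset.sum_eq_zero_iff_of_nonneg
    (fun i hi => Finset.sum_nonneg (fun j hj => hnn i hi j hj))).mp h1
  intro i hi j hj
  have h3 := (Finset.sum_eq_zero_iff_of_nonneg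
    (fun j hj => hnn i (by simpa using hi) j hj)).mp (h2 i (by simpa using hi)) j
      (by simpa using hj)
  have hs' := hs i hi j hj
  by_cases hB : Before w a i b j
  · by_cases hB' : Before w' a i b j
    · simp [hB, hB']
    · exfalso
      rw [if_pos hB, if_neg hB', sub_zero, one_mul] at h3
      have := hs'.1 hB
      linarith
  · by_cases hB' : Before w' a i b j
    · exfalso
      rw [if_neg hB, if_pos hB'] at h3
      have := hs'.2 hB
      linarith
    · simp [hB, hB']

end Pool.Agent.Work.MP_02e323_helper2
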