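import Mathlib
import Pool.Agent.Work.MP_02e323_helper2.Ord

/-!
# MP_02e323_co: words whose letter order is the sign pattern of a polynomial

Suppose that for all pairs of letters `a ≠ b` the order relation (the `i`-th letter `a` of `w` comes
before the `j`-th letter `b` of `w`) is the sign pattern of a real polynomial `G(i, j)` of total
degree at most `d`.  Then `w` is determined by its full `(d+2)`-spectrum, whatever its length.
-/

set_option autoImplicit false

namespace Pool.Agent.Work.MP_02e323_helper2.AlgebraicOrder

/-- `occ u w` is the number `|w|_u` of occurrences of `u` as a scattered subword of `w`: the number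
of strictly increasing index maps along which `w` reads `u`. -/
noncomputable def occ {α : Type} (u w : List α) : ℕ :=
  {f : Fin u.length → Fin w.length | StrictMono f ∧ ∀ i, w.get (f i) = u.get i}.ncard

/-- `w` is the only word (of any length) with its full `t`-spectrum. -/
def Determined {α : Type} (t : ℕ) (w : List α) : Prop :=
  ∀ w' : List α, (∀ u : List α, u.length ≤ t → occ u w' = occ u w) → w' = w

/-- Some prefix of `w` contains more than `i` letters `a` and at most `j` letters `b`.  For
`i < |w|_a` and `j < |w|_b` this says: the letter `a` with index `i` comes before the letter `b`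
with index `j`, where the letters `a` (and the letters `b`) of `w` are indexed `0, 1, 2, …` from
left to right. -/
def Before {α : Type} [DecidableEq α] (w : List α) (a : α) (i : ℕ) (b : α) (j : ℕ) : Prop :=
  ∃ m, i < (w.take m).count a ∧ (w.take m).count b ≤ j

theorem result (α : Type) [Fintype α] [DecidableEq α] (d t : ℕ) (w : List α)
    (G : α → α → MvPolynomial (Fin 2) ℝ) (hdeg : ∀ a b, (G a b).totalDegree ≤ d)
    (hG : ∀ a b, a ≠ b → ∀ i < w.count a, ∀ j < w.count b,
      (Before w a i b j → 0 < MvPolynomial.eval ![(i : ℝ), (j : ℝ)] (G a b)) ∧
      (¬ Before w a i b j → MvPolynomial.eval ![(i : ℝ), (j : ℝ)] (G a b) < 0))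
    (ht : d + 2 ≤ t) : Determined t w := by
  intro w' h
  have key : Work.MP_02e323_helper2.SameP t w w' :=
    Work.MP_02e323_helper2.sameP_of_occ (fun u hu => (h u hu).symm)
  refine (Work.MP_02e323_helper2.eq_of_order key ht (fun a b hab => ⟨G a b, hdeg a b, ?_⟩)).symm
  intro i hi j hj
  exact hG a b hab i hi j hj

end Pool.Agent.Work.MP_02e323_helper2.AlgebraicOrder
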