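import Mathlib
import Pool.Agent.Work.MP_02e323_helper2.Main

/-!
# Words `V ++ W` with `V` cut into periodic pieces and `W` periodic
-/

set_option autoImplicit false

open Finset

namespace Pool.Agent.Work.MP_02e323_helper2

variable {α : Type*}

lemma v_last (z : ℕ → α) (n : ℕ) : ∃ x, v z (n + 1) = x ++ [z 0] := by
  induction n with
  | zero => exact ⟨[], by simp [v_succ]⟩
  | succ n ih2 =>
    obtain ⟨x, hx⟩ := ih2
    exact ⟨z (n + 1) :: x, by rw [v_succ, hx]; rfl⟩

/-- Separation for `V ++ W`. -/
lemma sep_VW {C p : ℕ} {V W : List α} (hV : Pieces C V) (hp : 0 < p) (hW : HasPeriod p W)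
    (hW0 : W ≠ []) {c : α} (hc : ∀ x, W ≠ x ++ [c]) :
    ∃ φ, IsPol (p - 1 + C) φ ∧ φ [] ≠ 0 ∧ ∀ x T, V ++ W = x ++ c :: T → φ T = 0 := by
  classical
  induction hV with
  | nil =>
    obtain ⟨z, q, hq, hqp, hz, hmin, hWv⟩ := hW.exists_seq hp hW0
    have hz0 : z 0 ≠ c := by
      intro h0
      obtain ⟨n, hn⟩ := Nat.exists_eq_succ_of_ne_zero (List.length_pos_iff.mpr hW0).ne'
      obtain ⟨x, hx⟩ := v_last z n
      apply hc x
      rw [hWv, hn, ← h0]
      exact hx
    obtain ⟨φ, h1, h2, h3⟩ := sep_last hq hz hmin hz0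
    refine ⟨φ, h1.mono (by omega), h2, fun x T h => ?_⟩
    rw [List.nil_append, hWv] at h
    obtain ⟨h4, h5⟩ := v_eq_append h
    rw [h4]
    exact h3 _ h5
  | @cons p' C W' V hp' hW' hV ih =>
    obtain ⟨φ', h1', h2', h3'⟩ := ih
    by_cases hW0' : W' = []
    · subst hW0'
      exact ⟨φ', h1'.mono (by omega), h2', fun x T h => h3' x T (by simpa using h)⟩
    · obtain ⟨z, q, hq, hqp, hz, hmin, hWv⟩ := hW'.exists_seq hp' hW0'
      have hVW : V ++ W ≠ [] := by
        intro h
        exact hW0 (List.append_eq_nil_iff.mp h).2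
      obtain ⟨g₁, d, hgd⟩ : ∃ g₁ d, V ++ W = g₁ ++ [d] :=
        ⟨(V ++ W).dropLast, (V ++ W).getLast hVW, (List.dropLast_append_getLast hVW).symm⟩
      have hdc : d ≠ c := by
        intro h
        obtain ⟨x, b, hx⟩ : ∃ x b, W = x ++ [b] :=
          ⟨W.dropLast, W.getLast hW0, (List.dropLast_append_getLast hW0).symm⟩
        have h1 : (V ++ x) ++ [b] = g₁ ++ [d] := by
          rw [← hgd, hx, List.append_assoc]
        have h2 := (List.append_inj' h1 rfl).2
        simp only [List.cons.injEq, and_true] at h2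
        exact hc x (by rw [hx, h2, h])
      obtain ⟨φ, h1, h2, h3⟩ := sep_mid hq hz hmin hdc g₁
      refine ⟨fun u => φ u * φ' u, (h1.mul h1').mono (by omega), mul_ne_zero h2 h2', ?_⟩
      intro x T h
      show φ T * φ' T = 0
      rw [List.append_assoc] at h
      rcases List.append_eq_append_iff.mp h with ⟨a, h4, h5⟩ | ⟨a, h4, h5⟩
      · rw [h3' a T h5, mul_zero]
      · rcases a with _ | ⟨b, a⟩
        · rw [List.nil_append] at h5
          rw [h3' [] T (by rw [← h5]; rfl), mul_zero]
        · rw [List.cons_append] at h5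
          injection h5 with h6 h7
          subst h6
          rw [hWv] at h4
          obtain ⟨h8, h9⟩ := v_eq_append h4
          rw [h7, h8, hgd, h3 _ h9, zero_mul]

theorem determined_VW {C p t : ℕ} {V W : List α} (hV : Pieces C V) (hp : 0 < p)
    (hW : HasPeriod p W) (ht : 2 * p - 1 + 2 * C ≤ t) {w' : List α}
    (hs : SameP t (V ++ W) w') : V ++ W = w' := by
  obtain ⟨n, hn⟩ : ∃ n, W.length = n := ⟨_, rfl⟩
  induction n generalizing W w' with
  | zero =>
    have h2 : W = [] := List.eq_nil_of_length_eq_zero hn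
    subst h2
    rw [List.append_nil] at hs ⊢
    exact hV.determined (by omega) (by omega) hs
  | succ n ih =>
    have h1 := hs.length_eq (by omega)
    rcases List.eq_nil_or_concat W with h0 | ⟨w₁, a, h0⟩
    · subst h0; simp at hn
    rcases List.eq_nil_or_concat w' with h0' | ⟨w₁', c, h0'⟩
    · subst h0'
      rw [List.length_append, hn] at h1
      simp at h1
    rw [List.concat_eq_append] at h0 h0'
    subst h0 h0'
    rw [← List.append_assoc] at hs ⊢
    by_cases hac : a = c
    · subst hac
      have h3 := ih hW.dropLast hs.cancel (by simpa using hn)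
      rw [h3]
    · exfalso
      have hc : ∀ x, w₁ ++ [a] ≠ x ++ [c] := by
        intro x hx
        have := List.append_inj' hx rfl
        simp at this
        exact hac this.2
      obtain ⟨φ, h2, h3, h4⟩ := sep_VW hV hp hW (by simp) hc
      refine last_letter hs h2 h3 (by omega) ?_
      intro x T h
      exact h4 x T (by rw [← h, List.append_assoc])

end Pool.Agent.Work.MP_02e323_helper2
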